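import Pool.Agent.Work.MP_88b7aa_gt.Kd.B1
import Pool.Agent.Work.MP_88b7aa_gt.PQ.Eng

/-!
# Soundness of the second version: real operations
-/

set_option autoImplicit false
set_option exponentiation.threshold 3000

namespace Pool.Agent.Work.MP_88b7aa_gt.Kd

open Pool.Agent.Work.MP_88b7aa_gt.Kc (dgs dgs_succ dgs_lt dgs_and dgs_xor dgs_self dgs_digit dgs_mask dgs_mod xor_abs pk_floor)
open Pool.Agent.Work.MP_88b7aa_gt.PQ

/-- The constants of a layout. -/
structure LOK (l : Lay) (L t : ℕ) : Prop where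
  M : l.M = 2 ^ (128 * L)
  M1 : l.M1 = 2 ^ (128 * L) - 1
  O : l.O = dgs 128 (fun _ => 2 ^ 127) L
  OI : l.OI = dgs 128 (fun _ => 2 ^ 127) L - dgs 128 (fun _ => 1) L
  I : l.I = dgs 128 (fun _ => 1) L
  K : l.K = dgs 128 (fun _ => 1) L * (2 ^ 80 - 1)
  MO : l.MO = 2 ^ (128 * L) - dgs 128 (fun _ => 2 ^ 79) L
  s1 : l.s1 = 128 * t
  s2 : l.s2 = 128 * (2 * t)

theorem bp_eq (n : ℕ) : bp n = 2 ^ (128 * n) := rfl

theorem mkL_ok (L t : ℕ) : LOK (mkL L t) L t where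
  M := rfl
  M1 := rfl
  O := by show rp Dh L = _; rw [rp_eq]; rfl
  OI := by show rp Dh L - rp 1 L = _; rw [rp_eq, rp_eq]; rfl
  I := by show rp 1 L = _; rw [rp_eq]
  K := by
    show rp (2 ^ 80 - 1) L = _
    rw [rp_eq, dgs_one_mul, mul_comm]
  MO := by show 2 ^ (128 * L) - rp (2 ^ 79) L = _; rw [rp_eq]
  s1 := rfl
  s2 := by show 256 * t = _; ring

/-- The monomials of a layout. -/
structure Sem (L t : ℕ) (S : Finset ℕ) (μ : ℕ → ℝ) : Prop where
  zero : μ 0 = 1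
  S0 : 0 ∈ S
  le : ∀ i, |μ i| ≤ 1
  lt : ∀ i ∈ S, i < L
  lev : ∀ i ∈ S, i = 0 ∨ t ≤ i
  mul : ∀ i ∈ S, ∀ j ∈ S, i + j < L → i + j ∈ S ∧ μ (i + j) = μ i * μ j
  top : ∀ i ∈ S, ∀ j ∈ S, L ≤ i + j → t ≤ i ∧ t ≤ j ∧ (2 * t ≤ i ∨ 2 * t ≤ j)
  card : S.card ≤ 15
  pos : 0 < t
  tL : 2 * t ≤ L

/-- the value of a polynomial -/
noncomputable def pv (μ : ℕ → ℝ) (c : ℕ → ℤ) (L : ℕ) : ℝ := ∑ i ∈ Finset.range L, (c i : ℝ) * μ i

/-- `Z` encloses `y`, with the coefficients `c`. -/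
structure RQ (L : ℕ) (S : Finset ℕ) (μ : ℕ → ℝ) (c : ℕ → ℤ) (y : ℝ) (Z : Q2) : Prop where
  sup : ∀ i, c i ≠ 0 → i ∈ S
  lt : Z.X < 2 ^ (128 * L)
  eq : (Z.X : ℤ) ≡ zg c L [ZMOD ((2 ^ (128 * L) : ℕ) : ℤ)]
  nb : na c L ≤ Z.b
  er : |y * 2 ^ 48 - pv μ c L| ≤ (Z.r : ℝ)

def RepQ (L : ℕ) (S : Finset ℕ) (μ : ℕ → ℝ) (y : ℝ) (Z : Q2) : Prop := ∃ c, RQ L S μ c y Z

theorem pv_le {μ : ℕ → ℝ} (h : ∀ i, |μ i| ≤ 1) (c : ℕ → ℤ) (L : ℕ) : |pv μ c L| ≤ (na c L : ℝ) := by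
  unfold pv na
  refine (Finset.abs_sum_le_sum_abs _ _).trans ?_
  push_cast
  refine Finset.sum_le_sum fun i _ => ?_
  rw [abs_mul]
  have e : (((c i).natAbs : ℕ) : ℝ) = |(c i : ℝ)| := by rw [Nat.cast_natAbs, Int.cast_abs]
  rw [e]
  exact mul_le_of_le_one_right (abs_nonneg _) (h i)

theorem pv_add (μ : ℕ → ℝ) (c d : ℕ → ℤ) (L : ℕ) : pv μ (fun i => c i + d i) L = pv μ c L + pv μ d L := by
  unfold pv
  rw [← Finset.sum_add_distrib]
  exact Finset.sum_congr rfl fun i _ => by push_cast; ring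

theorem pv_sub (μ : ℕ → ℝ) (c d : ℕ → ℤ) (L : ℕ) : pv μ (fun i => c i - d i) L = pv μ c L - pv μ d L := by
  unfold pv
  rw [← Finset.sum_sub_distrib]
  exact Finset.sum_congr rfl fun i _ => by push_cast; ring

theorem pv_neg (μ : ℕ → ℝ) (c : ℕ → ℤ) (L : ℕ) : pv μ (fun i => -c i) L = -pv μ c L := by
  unfold pv
  rw [← Finset.sum_neg_distrib]
  exact Finset.sum_congr rfl fun i _ => by push_cast; ring

section

variable {l : Lay} {L t : ℕ} (hl : LOK l L t) {S : Finset ℕ} {μ : ℕ → ℝ} (hS : Sem L t S μ)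

include hl

theorem land_M1 (a : ℕ) : Nat.land a l.M1 = a % 2 ^ (128 * L) := by
  rw [hl.M1, land_mod]

theorem RQ.add {c d : ℕ → ℤ} {y z : ℝ} {Y Z : Q2} (h : RQ L S μ c y Y) (k : RQ L S μ d z Z) :
    RQ L S μ (fun i => c i + d i) (y + z) (Q2.add l Y Z) where
  sup := by
    intro i hi
    by_contra hn
    have h1 : c i = 0 := by by_contra h2; exact hn (h.sup i h2)
    have h2 : d i = 0 := by by_contra h3; exact hn (k.sup i h3)
    exact hi (by rw [h1, h2]; rfl)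
  lt := by
    show Nat.land _ l.M1 < _
    rw [land_M1 hl]
    exact Nat.mod_lt _ (by positivity)
  eq := by
    show ((Nat.land (Y.X + Z.X) l.M1 : ℕ) : ℤ) ≡ _ [ZMOD _]
    rw [land_M1 hl]
    refine (modz _ _).trans ?_
    rw [Nat.cast_add, zg_add]
    exact h.eq.add k.eq
  nb := (na_add c d L).trans (Nat.add_le_add h.nb k.nb)
  er := by
    show _ ≤ ((Y.r + Z.r : ℕ) : ℝ)
    rw [pv_add, Nat.cast_add]
    have e : (y + z) * 2 ^ 48 - (pv μ c L + pv μ d L) = (y * 2 ^ 48 - pv μ c L) + (z * 2 ^ 48 - pv μ d L) := by ring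
    rw [e]
    exact (abs_add_le _ _).trans (add_le_add h.er k.er)

theorem RQ.sub {c d : ℕ → ℤ} {y z : ℝ} {Y Z : Q2} (h : RQ L S μ c y Y) (k : RQ L S μ d z Z) :
    RQ L S μ (fun i => c i - d i) (y - z) (Q2.sub l Y Z) where
  sup := by
    intro i hi
    by_contra hn
    have h1 : c i = 0 := by by_contra h2; exact hn (h.sup i h2)
    have h2 : d i = 0 := by by_contra h3; exact hn (k.sup i h3)
    exact hi (by rw [h1, h2]; rfl)
  lt := by
    show Nat.land _ l.M1 < _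
    rw [land_M1 hl]
    exact Nat.mod_lt _ (by positivity)
  eq := by
    show ((Nat.land (Y.X + (l.M - Z.X)) l.M1 : ℕ) : ℤ) ≡ _ [ZMOD _]
    rw [land_M1 hl, hl.M]
    refine (modz _ _).trans ?_
    rw [Nat.cast_add, Nat.cast_sub k.lt.le, zg_sub]
    have h1 : ((Y.X : ℤ) + (((2 ^ (128 * L) : ℕ) : ℤ) - Z.X)) ≡ (Y.X : ℤ) - Z.X [ZMOD ((2 ^ (128 * L) : ℕ) : ℤ)] := by
      rw [Int.modEq_iff_dvd]
      exact ⟨-1, by ring⟩
    exact h1.trans (h.eq.sub k.eq)
  nb := (na_sub c d L).trans (Nat.add_le_add h.nb k.nb)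
  er := by
    show _ ≤ ((Y.r + Z.r : ℕ) : ℝ)
    rw [pv_sub, Nat.cast_add]
    have e : (y - z) * 2 ^ 48 - (pv μ c L - pv μ d L) = (y * 2 ^ 48 - pv μ c L) - (z * 2 ^ 48 - pv μ d L) := by ring
    rw [e]
    exact (abs_sub _ _).trans (add_le_add h.er k.er)

theorem RQ.neg {c : ℕ → ℤ} {y : ℝ} {Y : Q2} (h : RQ L S μ c y Y) : RQ L S μ (fun i => -c i) (-y) (Q2.neg l Y) where
  sup := fun i hi => h.sup i (by intro h1; exact hi (by rw [h1]; rfl))
  lt := by
    show Nat.land _ l.M1 < _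
    rw [land_M1 hl]
    exact Nat.mod_lt _ (by positivity)
  eq := by
    show ((Nat.land (l.M - Y.X) l.M1 : ℕ) : ℤ) ≡ _ [ZMOD _]
    rw [land_M1 hl, hl.M]
    refine (modz _ _).trans ?_
    rw [Nat.cast_sub h.lt.le, zg_neg]
    have h1 : (((2 ^ (128 * L) : ℕ) : ℤ) - Y.X) ≡ -(Y.X : ℤ) [ZMOD ((2 ^ (128 * L) : ℕ) : ℤ)] := by
      rw [Int.modEq_iff_dvd]
      exact ⟨-1, by ring⟩
    exact h1.trans h.eq.neg
  nb := by rw [na_neg]; exact h.nb
  er := by
    show _ ≤ (Y.r : ℝ)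
    rw [pv_neg]
    have e : -y * 2 ^ 48 - -pv μ c L = -(y * 2 ^ 48 - pv μ c L) := by ring
    rw [e, abs_neg]
    exact h.er

omit hl in
theorem RQ.ez {c : ℕ → ℤ} {y : ℝ} {Y : Q2} (hS : Sem L t S μ) (h : RQ L S μ c y Y) : ∀ i, L ≤ i → c i = 0 := by
  intro i hi
  by_contra hn
  have := hS.lt i (h.sup i hn)
  omega

/-- The digits of a model with offsets. -/
theorem RQ.offs {c : ℕ → ℤ} {y : ℝ} {Y : Q2} (h : RQ L S μ c y Y) (hb : ∀ i, (c i).natAbs < 2 ^ 127) :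
    Nat.land (Nat.add Y.X l.O) l.M1 = dgs 128 (od c) L := by
  rw [land_M1 hl, hl.O]
  exact recov hb h.eq

/-- The absolute values of the digits. -/
theorem absA_eq {c : ℕ → ℤ} (hb : ∀ i, (c i).natAbs < 2 ^ 127) {N : ℕ} (hN : N = dgs 128 (od c) L) :
    Q2.absA l N = dgs 128 (fun i => (c i).natAbs) L := by
  unfold Q2.absA Q2.absB
  rw [hl.I, hl.OI]
  have h1 : Nat.shiftRight N 127 = N / 2 ^ 127 := Nat.shiftRight_eq_div_pow _ _
  rw [h1]
  refine (absd (fun i => od_lt (hb i)) L hN rfl).trans ?_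
  unfold dgs
  exact Finset.sum_congr rfl fun i _ => by beta_reduce; rw [od_abs (hb i)]

omit hl in
theorem H1_eq : H1 = 2 ^ 127 - 1 := rfl
omit hl in
theorem D1_eq : D1 = 2 ^ 128 - 1 := rfl
omit hl in
theorem Dh_eq : Dh = 2 ^ 127 := rfl

omit hl in
theorem na_le_b {c : ℕ → ℤ} {y : ℝ} {Y : Q2} (hS : Sem L t S μ) (h : RQ L S μ c y Y) (hb : Y.b ≤ H1) (i : ℕ) :
    (c i).natAbs < 2 ^ 127 := by
  have h1 := (le_na (h.ez hS) i).trans (h.nb.trans hb)
  rw [H1_eq] at h1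
  have : (2 : ℕ) ^ 127 = (2 ^ 127 - 1) + 1 := by norm_num
  omega

theorem abs_eq {c : ℕ → ℤ} {y : ℝ} {Y : Q2} (hS : Sem L t S μ) (h : RQ L S μ c y Y) (hb : Y.b ≤ H1) :
    Q2.abs l Y.X = dgs 128 (fun i => (c i).natAbs) L :=
  absA_eq hl (na_le_b hS h hb) (h.offs hl (na_le_b hS h hb))

/-- partial norms -/
def nf (c : ℕ → ℤ) (j L : ℕ) : ℕ := ∑ i ∈ Finset.range (L - j), (c (i + j)).natAbs

omit hl in
theorem nf_le (c : ℕ → ℤ) {j L : ℕ} (h : j ≤ L) : nf c j L ≤ na c L := by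
  unfold nf na
  have e : L = j + (L - j) := by omega
  conv_rhs => rw [e, Finset.sum_range_add]
  have e2 : ∑ i ∈ Finset.range (L - j), (c (i + j)).natAbs = ∑ i ∈ Finset.range (L - j), (c (j + i)).natAbs :=
    Finset.sum_congr rfl fun i _ => by rw [add_comm]
  rw [e2]
  exact Nat.le_add_left _ _

omit hl in
theorem sm_n {c : ℕ → ℤ} {A : ℕ} (hA : A = dgs 128 (fun i => (c i).natAbs) L) (hn : na c L ≤ H1) : Nat.mod A D1 = na c L := by
  rw [hA, D1_eq]
  refine dgs_sum (lt_of_le_of_lt hn ?_)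
  rw [H1_eq]
  norm_num

omit hl in
theorem sm_f {c : ℕ → ℤ} {A : ℕ} (hA : A = dgs 128 (fun i => (c i).natAbs) L) (hs : ∀ i, L ≤ i → c i = 0) (hn : na c L ≤ H1)
    {j s : ℕ} (hj : j ≤ L) (h : s = 128 * j) : Nat.mod (Nat.shiftRight A s) D1 = nf c j L := by
  have hc : ∀ i, (c i).natAbs < 2 ^ 128 := by
    intro i
    have h1 := (le_na hs i).trans hn
    rw [H1_eq] at h1
    have : (2 : ℕ) ^ 127 - 1 < 2 ^ 128 := by norm_num
    omega
  have h1 : Nat.shiftRight A s = A / 2 ^ s := Nat.shiftRight_eq_div_pow _ _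
  rw [h1, hA, h, dgs_shift hc hj, D1_eq]
  refine dgs_sum (lt_of_le_of_lt ((nf_le c hj).trans hn) ?_)
  rw [H1_eq]
  norm_num

/-! ### The product -/

/-- the coefficients of the truncated product -/
def pr (c d : ℕ → ℤ) (n : ℕ) : ℤ := ∑ i ∈ Finset.range (n + 1), c i * d (n - i)

omit hl in
theorem pr_sup (hS : Sem L t S μ) {c d : ℕ → ℤ} (hc : ∀ i, c i ≠ 0 → i ∈ S) (hd : ∀ i, d i ≠ 0 → i ∈ S) (n : ℕ) (hn : n < L)
    (h : pr c d n ≠ 0) : n ∈ S := by
  obtain ⟨i, hi, h1⟩ := Finset.exists_ne_zero_of_sum_ne_zero h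
  rw [Finset.mem_range] at hi
  have h2 : c i ≠ 0 := left_ne_zero_of_mul h1
  have h3 : d (n - i) ≠ 0 := right_ne_zero_of_mul h1
  have h4 := (hS.mul i (hc i h2) (n - i) (hd _ h3) (by omega)).1
  have e : i + (n - i) = n := by omega
  rwa [e] at h4

omit hl in
/-- the product of two sums, split by the degree -/
theorem split_prod {R : Type} [CommRing R] (f g : ℕ → R) (L : ℕ) :
    (∑ i ∈ Finset.range L, f i) * (∑ j ∈ Finset.range L, g j) =
      (∑ n ∈ Finset.range L, ∑ i ∈ Finset.range (n + 1), f i * g (n - i)) +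
      ∑ i ∈ Finset.range L, ∑ j ∈ Finset.range L, if L ≤ i + j then f i * g j else 0 := by
  rw [Finset.sum_range_diag_flip L (fun i j => f i * g j), ← Finset.sum_add_distrib, Finset.sum_mul]
  refine Finset.sum_congr rfl fun i hi => ?_
  rw [Finset.mem_range] at hi
  rw [Finset.mul_sum]
  have e : L = (L - i) + i := by omega
  conv_lhs => rw [e, Finset.sum_range_add]
  congr 1
  conv_rhs => rw [e, Finset.sum_range_add]
  have z : ∑ j ∈ Finset.range (L - i), (if L - i + i ≤ i + j then f i * g j else 0) = 0 := by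
    refine Finset.sum_eq_zero fun j hj => ?_
    rw [Finset.mem_range] at hj
    rw [if_neg (by omega)]
  rw [z, zero_add]
  refine Finset.sum_congr rfl fun j _ => ?_
  rw [if_pos (by omega)]

omit hl in
theorem zg_pr (c d : ℕ → ℤ) (L : ℕ) : zg c L * zg d L ≡ zg (pr c d) L [ZMOD ((2 ^ (128 * L) : ℕ) : ℤ)] := by
  unfold zg
  rw [split_prod]
  have e : ∑ n ∈ Finset.range L, ∑ i ∈ Finset.range (n + 1), c i * (2 ^ 128) ^ i * (d (n - i) * (2 ^ 128) ^ (n - i)) =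
      ∑ n ∈ Finset.range L, pr c d n * (2 ^ 128) ^ n := by
    refine Finset.sum_congr rfl fun n _ => ?_
    unfold pr
    rw [Finset.sum_mul]
    refine Finset.sum_congr rfl fun i hi => ?_
    rw [Finset.mem_range] at hi
    have e1 : n = i + (n - i) := by omega
    conv_rhs => rw [e1, pow_add]
    have e2 : i + (n - i) - i = n - i := by omega
    rw [e2]
    ring
  rw [e, Int.modEq_iff_dvd]
  have hd : ((2 ^ (128 * L) : ℕ) : ℤ) ∣ ∑ i ∈ Finset.range L, ∑ j ∈ Finset.range L,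
      if L ≤ i + j then c i * (2 ^ 128) ^ i * (d j * (2 ^ 128) ^ j) else 0 := by
    refine Finset.dvd_sum fun i _ => Finset.dvd_sum fun j _ => ?_
    split
    · rename_i h
      refine ⟨c i * d j * (2 ^ 128) ^ (i + j - L), ?_⟩
      have e3 : ((2 : ℤ) ^ 128) ^ i * (2 ^ 128) ^ j = (2 ^ 128) ^ L * (2 ^ 128) ^ (i + j - L) := by
        rw [← pow_add, ← pow_add]
        congr 1
        omega
      push_cast
      rw [pow_mul]
      linear_combination c i * d j * e3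
    · exact dvd_zero _
  obtain ⟨z, hz⟩ := hd
  refine ⟨-z, ?_⟩
  rw [hz]
  ring

omit hl in
/-- the coefficients of the product are bounded by the product of the norms -/
theorem na_pr (c d : ℕ → ℤ) (L : ℕ) : na (pr c d) L ≤ na c L * na d L := by
  have h1 : ∀ n, (pr c d n).natAbs ≤ ∑ i ∈ Finset.range (n + 1), (c i).natAbs * (d (n - i)).natAbs := by
    intro n
    unfold pr
    refine (Int.natAbs_sum_le _ _).trans (Finset.sum_le_sum fun i _ => ?_)
    rw [Int.natAbs_mul]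
  have h2 := split_prod (R := ℤ) (fun i => ((c i).natAbs : ℤ)) (fun i => ((d i).natAbs : ℤ)) L
  have h3 : (na (pr c d) L : ℤ) ≤ ∑ n ∈ Finset.range L, ∑ i ∈ Finset.range (n + 1), ((c i).natAbs : ℤ) * ((d (n - i)).natAbs : ℤ) := by
    unfold na
    push_cast
    refine Finset.sum_le_sum fun n _ => ?_
    have := h1 n
    zify at this
    exact this
  have h4 : 0 ≤ ∑ i ∈ Finset.range L, ∑ j ∈ Finset.range L, if L ≤ i + j then ((c i).natAbs : ℤ) * ((d j).natAbs : ℤ) else 0 := by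
    refine Finset.sum_nonneg fun i _ => Finset.sum_nonneg fun j _ => ?_
    split
    · positivity
    · exact le_rfl
  have h5 : ((na c L * na d L : ℕ) : ℤ) = (∑ i ∈ Finset.range L, ((c i).natAbs : ℤ)) * ∑ i ∈ Finset.range L, ((d i).natAbs : ℤ) := by
    unfold na
    push_cast
    rfl
  have : (na (pr c d) L : ℤ) ≤ ((na c L * na d L : ℕ) : ℤ) := by
    rw [h5, h2]
    linarith
  exact_mod_cast this

omit hl in
theorem nf_eq (c : ℕ → ℤ) {j L : ℕ} (h : j ≤ L) : nf c j L = ∑ i ∈ Finset.range L, if j ≤ i then (c i).natAbs else 0 := by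
  unfold nf
  have e : L = j + (L - j) := by omega
  conv_rhs => rw [e, Finset.sum_range_add]
  have z : ∑ i ∈ Finset.range j, (if j ≤ i then (c i).natAbs else 0) = 0 := by
    refine Finset.sum_eq_zero fun i hi => ?_
    rw [Finset.mem_range] at hi
    rw [if_neg (by omega)]
  rw [z, zero_add]
  refine Finset.sum_congr rfl fun i _ => ?_
  rw [if_pos (by omega), add_comm]

omit hl in
/-- the truncation error -/
theorem pv_pr (hS : Sem L t S μ) {c d : ℕ → ℤ} (hc : ∀ i, c i ≠ 0 → i ∈ S) (hd : ∀ i, d i ≠ 0 → i ∈ S) :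
    |pv μ c L * pv μ d L - pv μ (pr c d) L| ≤
      ((nf c t L * nf d (2 * t) L + nf c (2 * t) L * nf d t L : ℕ) : ℝ) := by
  have h1 := split_prod (fun i => (c i : ℝ) * μ i) (fun i => (d i : ℝ) * μ i) L
  have e : ∑ n ∈ Finset.range L, ∑ i ∈ Finset.range (n + 1), (c i : ℝ) * μ i * ((d (n - i) : ℝ) * μ (n - i)) = pv μ (pr c d) L := by
    unfold pv pr
    refine Finset.sum_congr rfl fun n hn => ?_
    rw [Finset.mem_range] at hn
    push_cast
    rw [Finset.sum_mul]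
    refine Finset.sum_congr rfl fun i hi => ?_
    rw [Finset.mem_range] at hi
    by_cases h2 : c i = 0
    · rw [h2]; simp
    by_cases h3 : d (n - i) = 0
    · rw [h3]; simp
    have h4 := (hS.mul i (hc i h2) (n - i) (hd _ h3) (by omega)).2
    have e1 : i + (n - i) = n := by omega
    rw [e1] at h4
    rw [h4]
    ring
  rw [e] at h1
  have h2 : pv μ c L * pv μ d L - pv μ (pr c d) L = ∑ i ∈ Finset.range L, ∑ j ∈ Finset.range L,
      if L ≤ i + j then (c i : ℝ) * μ i * ((d j : ℝ) * μ j) else 0 := by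
    have h3 : pv μ c L * pv μ d L = pv μ (pr c d) L + ∑ i ∈ Finset.range L, ∑ j ∈ Finset.range L,
      if L ≤ i + j then (c i : ℝ) * μ i * ((d j : ℝ) * μ j) else 0 := h1
    rw [h3]
    ring
  have ht : t ≤ L := by have := hS.tL; omega
  rw [h2, nf_eq c (j := t) ht, nf_eq d (j := t) ht, nf_eq c (j := 2 * t) hS.tL, nf_eq d (j := 2 * t) hS.tL]
  have e3 : (((∑ i ∈ Finset.range L, if t ≤ i then (c i).natAbs else 0) * (∑ i ∈ Finset.range L, if 2 * t ≤ i then (d i).natAbs else 0) +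
      (∑ i ∈ Finset.range L, if 2 * t ≤ i then (c i).natAbs else 0) * (∑ i ∈ Finset.range L, if t ≤ i then (d i).natAbs else 0) : ℕ) : ℝ) =
      ∑ i ∈ Finset.range L, ∑ j ∈ Finset.range L, ((if t ≤ i then ((c i).natAbs : ℝ) else 0) * (if 2 * t ≤ j then ((d j).natAbs : ℝ) else 0) +
        (if 2 * t ≤ i then ((c i).natAbs : ℝ) else 0) * (if t ≤ j then ((d j).natAbs : ℝ) else 0)) := by
    push_cast
    rw [Finset.sum_mul_sum, Finset.sum_mul_sum, ← Finset.sum_add_distrib]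
    refine Finset.sum_congr rfl fun i _ => ?_
    rw [← Finset.sum_add_distrib]
  rw [e3]
  refine (Finset.abs_sum_le_sum_abs _ _).trans (Finset.sum_le_sum fun i _ => (Finset.abs_sum_le_sum_abs _ _).trans
    (Finset.sum_le_sum fun j _ => ?_))
  have p1 : (0 : ℝ) ≤ (if t ≤ i then ((c i).natAbs : ℝ) else 0) * (if 2 * t ≤ j then ((d j).natAbs : ℝ) else 0) := by
    split <;> split <;> positivity
  have p2 : (0 : ℝ) ≤ (if 2 * t ≤ i then ((c i).natAbs : ℝ) else 0) * (if t ≤ j then ((d j).natAbs : ℝ) else 0) := by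
    split <;> split <;> positivity
  split
  · rename_i hij
    by_cases h2 : c i = 0
    · rw [h2]
      have : |((0 : ℤ) : ℝ) * μ i * ((d j : ℝ) * μ j)| = 0 := by simp
      rw [this]
      rw [h2] at p1 p2
      linarith
    by_cases h3 : d j = 0
    · rw [h3]
      have : |(c i : ℝ) * μ i * (((0 : ℤ) : ℝ) * μ j)| = 0 := by simp
      rw [this]
      rw [h3] at p1 p2
      linarith
    obtain ⟨g1, g2, g3⟩ := hS.top i (hc i h2) j (hd j h3) hij
    have e4 : |(c i : ℝ) * μ i * ((d j : ℝ) * μ j)| ≤ ((c i).natAbs : ℝ) * ((d j).natAbs : ℝ) := by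
      have e5 : (((c i).natAbs : ℕ) : ℝ) = |(c i : ℝ)| := by rw [Nat.cast_natAbs, Int.cast_abs]
      have e6 : (((d j).natAbs : ℕ) : ℝ) = |(d j : ℝ)| := by rw [Nat.cast_natAbs, Int.cast_abs]
      rw [e5, e6, abs_mul, abs_mul, abs_mul]
      have m1 := hS.le i
      have m2 := hS.le j
      have a1 := abs_nonneg (c i : ℝ)
      have a2 := abs_nonneg (d j : ℝ)
      have a3 := abs_nonneg (μ i)
      have a4 := abs_nonneg (μ j)
      have b1 : |(c i : ℝ)| * |μ i| ≤ |(c i : ℝ)| := mul_le_of_le_one_right a1 m1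
      have b2 : |(d j : ℝ)| * |μ j| ≤ |(d j : ℝ)| := mul_le_of_le_one_right a2 m2
      exact mul_le_mul b1 b2 (mul_nonneg a2 a4) a1
    rcases g3 with g3 | g3
    · have e7 : (if 2 * t ≤ i then ((c i).natAbs : ℝ) else 0) * (if t ≤ j then ((d j).natAbs : ℝ) else 0) =
          ((c i).natAbs : ℝ) * ((d j).natAbs : ℝ) := by rw [if_pos g3, if_pos g2]
      linarith
    · have e7 : (if t ≤ i then ((c i).natAbs : ℝ) else 0) * (if 2 * t ≤ j then ((d j).natAbs : ℝ) else 0) =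
          ((c i).natAbs : ℝ) * ((d j).natAbs : ℝ) := by rw [if_pos g1, if_pos g3]
      linarith
  · rw [abs_zero]
    linarith

end

end Pool.Agent.Work.MP_88b7aa_gt.Kd
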