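import Pool.Agent.Work.MP_88b7aa_gt.Kd.A9

/-!
# Soundness of the second version: the four arithmetics
-/

set_option autoImplicit false
set_option exponentiation.threshold 6000

namespace Pool.Agent.Work.MP_88b7aa_gt.Kd

open Pool.Agent.Work.MP_88b7aa_gt.Kc (dgs dgs_succ dgs_lt dgs_and dgs_xor dgs_self dgs_digit dgs_mask dgs_mod xor_abs QF QF_lin QF_err
  QF_conv mul_abs_lt modEq_of_eq v9 QF_v9)
open Pool.Agent.Work.MP_88b7aa_gt.PQ

seal PP P1 Ph Os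

/-- the monomials -/
noncomputable def μE (E : List (ℕ × ℕ × ℕ × ℕ × ℕ)) (x : Fin 4 → ℝ) (i : ℕ) : ℝ := mo x (exl E i)

theorem sum_S' {L : ℕ} {S : Finset ℕ} (h : S ⊆ Finset.range L) {F : ℕ → ℝ} (hF : ∀ p, p ∉ S → F p = 0) :
    ∑ p ∈ Finset.range L, F p = ∑ p ∈ S, F p :=
  (Finset.sum_subset h fun p _ hp => hF p hp).symm

theorem LP1 (x : Fin 4 → ℝ) : LP 3 2 1 S1 (μE E1 x) pl1 dl1 where
  n0 := by norm_num
  k4 := by norm_num
  pl0 := rfl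
  sum := fun F hF => by
    rw [sum_S' (by decide) hF]
    simp [S1, pl1, dl1, Finset.sum_range_succ]
    ring
  sq := fun i hi => by
    interval_cases i
    all_goals
      unfold μE mo
      simp [dl1, exl, E1]
      try positivity

theorem LP2 (x : Fin 4 → ℝ) : LP 9 4 2 S2 (μE E2 x) pl2 dl2 where
  n0 := by norm_num
  k4 := by norm_num
  pl0 := rfl
  sum := fun F hF => by
    rw [sum_S' (by decide) hF]
    simp [S2, pl2, dl2, Finset.sum_range_succ]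
    ring
  sq := fun i hi => by
    interval_cases i
    all_goals
      unfold μE mo
      simp [dl2, exl, E2]
      try positivity

theorem LP3 (x : Fin 4 → ℝ) : LP 21 7 3 S3 (μE E3 x) pl3 dl3 where
  n0 := by norm_num
  k4 := by norm_num
  pl0 := rfl
  sum := fun F hF => by
    rw [sum_S' (by decide) hF]
    simp [S3, pl3, dl3, Finset.sum_range_succ]
    ring
  sq := fun i hi => by
    interval_cases i
    all_goals
      unfold μE mo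
      simp [dl3, exl, E3]
      try positivity

theorem LP4 (x : Fin 4 → ℝ) : LP 39 12 4 S4 (μE E4 x) pl4 dl4 where
  n0 := by norm_num
  k4 := by norm_num
  pl0 := rfl
  sum := fun F hF => by
    rw [sum_S' (by decide) hF]
    have h1 := hF 1 (by decide)
    simp [S4, pl4, dl4, Finset.sum_range_succ, h1]
    ring
  sq := fun i hi => by
    interval_cases i
    all_goals
      unfold μE mo
      simp [dl4, exl, E4]
      try positivity

theorem node1 {x : Fin 4 → ℝ} (hx : ∀ i, |x i| ≤ 1) : NodeOK 2 S1 (μE E1 x) pl1 nd1 := by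
  intro c N h hg hf u
  refine le_of_le_of_eq (nd1_sound h hf (hx 0) u) ?_
  congr 1
  funext e
  unfold μE mo
  simp [Finset.sum_range_succ, pl1, exl, E1]

theorem node2 {x : Fin 4 → ℝ} (hx : ∀ i, |x i| ≤ 1) : NodeOK 4 S2 (μE E2 x) pl2 nd2 := by
  intro c N h hg hf u
  refine le_of_le_of_eq (nd2_sound h hf (hx 0) (hx 1) u) ?_
  congr 1
  funext e
  unfold μE mo
  simp [Finset.sum_range_succ, pl2, exl, E2]

theorem node3 {x : Fin 4 → ℝ} (hx : ∀ i, |x i| ≤ 1) : NodeOK 7 S3 (μE E3 x) pl3 nd3 := by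
  intro c N h hg hf u
  refine le_of_le_of_eq (nd3_sound h hf (hx 0) (hx 1) (hx 2) u) ?_
  congr 1
  funext e
  unfold μE mo
  simp [Finset.sum_range_succ, pl3, exl, E3]

theorem node4 {x : Fin 4 → ℝ} (hx : ∀ i, |x i| ≤ 1) : NodeOK 12 S4 (μE E4 x) pl4 nd4 := by
  intro c N h hg hf u
  refine le_of_le_of_eq (nd4_sound h hf (hx 0) (hx 1) (hx 2) (hx 3) u) ?_
  congr 1
  funext e
  have h1 : c (90 + e) = 0 := hg 10 (by norm_num) (by decide) e e.isLt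
  unfold μE mo
  simp [Finset.sum_range_succ, pl4, exl, E4, h1]

/-! ### The instances -/

theorem Q2.ek_eq {α : Type} (x : Q2) (k : Q2 → α) : Q2.ek x k = k x := rfl

theorem HQ.ek_eq {α : Type} (x : HQ) (k : HQ → α) : HQ.ek x k = k x := rfl

theorem fHQ_eq (M : H9 Q2) (k : H9 Q2 → Bool) : fHQ M k = k M := by
  unfold fHQ cxK
  simp only [Q2.ek_eq]

theorem tstQ_sound {l : Lay} {L t : ℕ} (hl : LOK l L t) {S : Finset ℕ} {μ : ℕ → ℝ} (hS : Sem L t S μ) {n k : ℕ} {pl dl : List ℕ}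
    (hLP : LP L n k S μ pl dl) {f : ℕ → Bool} (hf : NodeOK n S μ pl f) {T X G : H9 ℝ} {t' x g : HQ} {lam mu : ℝ} {a b : Q2}
    (hT : RelQ L n k S μ pl dl T t') (hX : RelQ L n k S μ pl dl X x) (hG : RelQ L n k S μ pl dl G g) (ha : RepQ L S μ lam a)
    (hb : RepQ L S μ mu b) (ht : tstQ n k f t' x g a b = true) (v : Fin 3 → ℂ) :
    0 ≤ qf (hm T) v - lam * qf (hm X) v + mu * qf (hm G) v := by
  obtain ⟨ct, rt, hT⟩ := hT
  obtain ⟨cx, rx, hX⟩ := hX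
  obtain ⟨cg, rg, hG⟩ := hG
  unfold tstQ at ht
  rw [Bool.and_eq_true, Bool.and_eq_true, es_eq, es_eq] at ht
  obtain ⟨⟨h1, h2⟩, h3⟩ := ht
  have e1 := isc_val hl hS ha h1
  have e2 := isc_val hl hS hb h2
  have h4 := tq1_sound hLP hS.S0 hS.zero hS.le hf hT hX hG a.X b.X h3 v
  rw [← e1, ← e2] at h4
  have h5 := QF_lin (v9 T) (v9 X) 1 (-lam) v
  have h6 := QF_lin (fun k => v9 T k + -lam * v9 X k) (v9 G) 1 mu v
  have e3 : (fun k => 1 * v9 T k + -lam * v9 X k) = fun k => v9 T k + -lam * v9 X k := by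
    funext j
    ring
  have e4 : (fun k => 1 * (v9 T k + -lam * v9 X k) + mu * v9 G k) = fun k => v9 T k - lam * v9 X k + mu * v9 G k := by
    funext j
    ring
  rw [e3] at h5
  rw [e4, h5] at h6
  rw [h6, QF_v9, QF_v9, QF_v9] at h4
  linarith

theorem AQ_ok {l : Lay} {L t : ℕ} (hl : LOK l L t) {S : Finset ℕ} {μ : ℕ → ℝ} (hS : Sem L t S μ) {n k : ℕ} {pl dl : List ℕ}
    (hLP : LP L n k S μ pl dl) {f : ℕ → Bool} (hf : NodeOK n S μ pl f) {W : ℕ} {fin : ℕ → ℕ} (hfin : FinR W L n k S pl dl fin)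
    (hlt : ∀ Y, fin Y < 2 ^ (1152 * (n + k))) :
    ArpOK (⟨OQ l, Q2.pos l, pkQ l W fin, tstQ n k f, fHQ, HQ.ek⟩ : Arp Q2 HQ) (RepQ L S μ) (RelQ L n k S μ pl dl) :=
  ⟨OQ_rel hl hS, fun h hp => h.pos hl hS hp, fun h => RelQ_pk hl hS hfin hlt h,
    fun hT hX hG ha hb ht v => tstQ_sound hl hS hLP hf hT hX hG ha hb ht v, fHQ_eq, fun Q k => HQ.ek_eq Q k⟩

theorem AQ1_ok {x : Fin 4 → ℝ} (hx : ∀ i, |x i| ≤ 1) : ArpOK AQ1 (RepQ 3 S1 (μE E1 x)) (RelQ 3 2 1 S1 (μE E1 x) pl1 dl1) :=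
  AQ_ok (mkL_ok 3 1) (Sem_of mulT1 hx) (LP1 x) (node1 hx) (fin1_ok S1) fun _ => asm_lt _ _ _ _ _

theorem AQ2_ok {x : Fin 4 → ℝ} (hx : ∀ i, |x i| ≤ 1) : ArpOK AQ2 (RepQ 9 S2 (μE E2 x)) (RelQ 9 4 2 S2 (μE E2 x) pl2 dl2) :=
  AQ_ok (mkL_ok 9 3) (Sem_of mulT2 hx) (LP2 x) (node2 hx) (fin2_ok S2) fun _ => asm_lt _ _ _ _ _

theorem AQ3_ok {x : Fin 4 → ℝ} (hx : ∀ i, |x i| ≤ 1) : ArpOK AQ3 (RepQ 21 S3 (μE E3 x)) (RelQ 21 7 3 S3 (μE E3 x) pl3 dl3) :=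
  AQ_ok (mkL_ok 21 7) (Sem_of mulT3 hx) (LP3 x) (node3 hx) (fin3_ok S3) fun _ => asm_lt _ _ _ _ _

theorem AQ4_ok {x : Fin 4 → ℝ} (hx : ∀ i, |x i| ≤ 1) : ArpOK AQ4 (RepQ 39 S4 (μE E4 x)) (RelQ 39 12 4 S4 (μE E4 x) pl4 dl4) :=
  AQ_ok (mkL_ok 39 13) (Sem_of mulT4 hx) (LP4 x) (node4 hx) (fin4_ok S4 (by decide)) fun _ => asm_lt _ _ _ _ _

end Pool.Agent.Work.MP_88b7aa_gt.Kd
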