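import Pool.Agent.Work.MP_88b7aa_gt.Kd.A1

/-!
# Soundness of the second version: product, constants, positivity
-/

set_option autoImplicit false
set_option exponentiation.threshold 3000

namespace Pool.Agent.Work.MP_88b7aa_gt.Kd

open Pool.Agent.Work.MP_88b7aa_gt.Kc (dgs dgs_succ dgs_lt dgs_and dgs_xor dgs_self dgs_digit dgs_mask dgs_mod xor_abs pk_floor)
open Pool.Agent.Work.MP_88b7aa_gt.PQ

/-- floor of the coefficients -/
def fl (c : ℕ → ℤ) (i : ℕ) : ℤ := c i / 2 ^ 48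

theorem fl_od {c : ℕ → ℤ} {i : ℕ} (h : (c i).natAbs < 2 ^ 127) : ((od c i / 2 ^ 48 : ℕ) : ℤ) = fl c i + 2 ^ 79 := by
  unfold fl
  rw [Int.natCast_div, od_cast h]
  have e : (2 : ℤ) ^ 127 = 2 ^ 79 * 2 ^ 48 := by norm_num
  have e2 : ((2 ^ 48 : ℕ) : ℤ) = 2 ^ 48 := by norm_num
  rw [e2, e, Int.add_mul_ediv_right _ _ (by norm_num)]

/-- The rounded product of residues. -/
theorem rnd_eq {L : ℕ} {p : ℕ → ℤ} (hb : ∀ i, (p i).natAbs < 2 ^ 127) {N : ℕ} (hN : N = dgs 128 (od p) L) {l : Lay} {t : ℕ}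
    (hl : LOK l L t) :
    ((Nat.land (Nat.add (Nat.land (Nat.shiftRight N (nat_lit 48)) l.K) l.MO) l.M1 : ℕ) : ℤ) ≡ zg (fl p) L
      [ZMOD ((2 ^ (128 * L) : ℕ) : ℤ)] := by
  rw [land_M1 hl]
  refine (modz _ _).trans ?_
  have h1 : Nat.land (Nat.shiftRight N (nat_lit 48)) l.K = dgs 128 (fun i => od p i / 2 ^ 48) L := by
    have h2 : Nat.shiftRight N (nat_lit 48) = N / 2 ^ 48 := Nat.shiftRight_eq_div_pow _ _
    rw [h2, hN, hl.K]
    refine (pk_floor (w := 128) (k := 48) (u := od p) (e := fun _ => 1) (by norm_num) (fun i => od_lt (hb i)) (fun _ => le_rfl)).trans ?_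
    unfold dgs
    exact Finset.sum_congr rfl fun i _ => by beta_reduce; rw [one_mul]
  show ((Nat.land (Nat.shiftRight N (nat_lit 48)) l.K + l.MO : ℕ) : ℤ) ≡ _ [ZMOD _]
  rw [h1, hl.MO]
  have h3 : dgs 128 (fun _ => 2 ^ 79) L ≤ 2 ^ (128 * L) := (dgs_lt (fun _ => by norm_num) L).le
  rw [Nat.cast_add, Nat.cast_sub h3, dgs_cast, dgs_cast]
  have e : zg (fun i => ((od p i / 2 ^ 48 : ℕ) : ℤ)) L = zg (fl p) L + zg (fun _ => ((2 ^ 79 : ℕ) : ℤ)) L := by
    rw [← zg_add]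
    unfold zg
    refine Finset.sum_congr rfl fun i _ => ?_
    beta_reduce
    rw [fl_od (hb i)]
    push_cast
    ring
  rw [e, Int.modEq_iff_dvd]
  exact ⟨-1, by ring⟩

theorem fl_err (c : ℕ → ℤ) (i : ℕ) : |((fl c i : ℤ) : ℝ) - (c i : ℝ) / 2 ^ 48| ≤ 1 := by
  unfold fl
  have h1 := Int.emod_add_mul_ediv (c i) (2 ^ 48)
  have h2 := Int.emod_nonneg (c i) (by norm_num : (2 : ℤ) ^ 48 ≠ 0)
  have h3 := Int.emod_lt_of_pos (c i) (by norm_num : (0 : ℤ) < 2 ^ 48)
  have h4 : ((c i % 2 ^ 48 : ℤ) : ℝ) + 2 ^ 48 * ((c i / 2 ^ 48 : ℤ) : ℝ) = (c i : ℝ) := by exact_mod_cast h1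
  have h5 : (0 : ℝ) ≤ ((c i % 2 ^ 48 : ℤ) : ℝ) := by exact_mod_cast h2
  have h6 : ((c i % 2 ^ 48 : ℤ) : ℝ) < 2 ^ 48 := by exact_mod_cast h3
  rw [abs_le]
  have h7 : (c i : ℝ) / 2 ^ 48 = ((c i % 2 ^ 48 : ℤ) : ℝ) / 2 ^ 48 + ((c i / 2 ^ 48 : ℤ) : ℝ) := by
    rw [← h4]
    field_simp
  rw [h7]
  have h8 : 0 ≤ ((c i % 2 ^ 48 : ℤ) : ℝ) / 2 ^ 48 := by positivity
  have h9 : ((c i % 2 ^ 48 : ℤ) : ℝ) / 2 ^ 48 ≤ 1 := by
    rw [div_le_one (by positivity)]
    exact h6.le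
  constructor <;> linarith

theorem sum_S {L t : ℕ} {S : Finset ℕ} {μ : ℕ → ℝ} (hS : Sem L t S μ) {f : ℕ → ℝ} (hf : ∀ i, i < L → i ∉ S → f i = 0)
    (h1 : ∀ i, |f i| ≤ 1) : |∑ i ∈ Finset.range L, f i| ≤ 15 := by
  have e : ∑ i ∈ Finset.range L, f i = ∑ i ∈ S, f i := by
    refine (Finset.sum_subset (fun i hi => Finset.mem_range.mpr (hS.lt i hi)) fun i hi hn => hf i (Finset.mem_range.mp hi) hn).symm
  rw [e]
  refine (Finset.abs_sum_le_sum_abs _ _).trans ?_
  refine (Finset.sum_le_sum fun i _ => h1 i).trans ?_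
  rw [Finset.sum_const, nsmul_eq_mul, mul_one]
  exact_mod_cast hS.card

/-- The rounding error of the value. -/
theorem pv_fl {L t : ℕ} {S : Finset ℕ} {μ : ℕ → ℝ} (hS : Sem L t S μ) {p : ℕ → ℤ} (hp : ∀ i, i < L → p i ≠ 0 → i ∈ S) :
    |pv μ (fl p) L - pv μ p L / 2 ^ 48| ≤ 15 := by
  have e : pv μ (fl p) L - pv μ p L / 2 ^ 48 = ∑ i ∈ Finset.range L, (((fl p i : ℤ) : ℝ) - (p i : ℝ) / 2 ^ 48) * μ i := by
    unfold pv
    rw [Finset.sum_div, ← Finset.sum_sub_distrib]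
    exact Finset.sum_congr rfl fun i _ => by ring
  rw [e]
  refine sum_S hS ?_ ?_
  · intro i hi hn
    have h0 : p i = 0 := by by_contra h; exact hn (hp i hi h)
    have h1 : fl p i = 0 := by unfold fl; rw [h0]; norm_num
    rw [h1, h0]
    simp
  · intro i
    rw [abs_mul]
    have := mul_le_mul (fl_err p i) (hS.le i) (abs_nonneg _) zero_le_one
    simpa using this

/-- The norm of the rounded polynomial. -/
theorem na_fl {L t : ℕ} {S : Finset ℕ} {μ : ℕ → ℝ} (hS : Sem L t S μ) {p : ℕ → ℤ} (hp : ∀ i, i < L → p i ≠ 0 → i ∈ S) :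
    (na (fl p) L : ℝ) ≤ (na p L : ℝ) / 2 ^ 48 + 15 := by
  have h1 : (na (fl p) L : ℝ) - (na p L : ℝ) / 2 ^ 48 ≤
      ∑ i ∈ Finset.range L, |((fl p i : ℤ) : ℝ) - (p i : ℝ) / 2 ^ 48| := by
    unfold na
    push_cast
    rw [Finset.sum_div, ← Finset.sum_sub_distrib]
    refine Finset.sum_le_sum fun i _ => ?_
    have e1 : (((fl p i).natAbs : ℕ) : ℝ) = |((fl p i : ℤ) : ℝ)| := by rw [Nat.cast_natAbs, Int.cast_abs]
    have e2 : (((p i).natAbs : ℕ) : ℝ) / 2 ^ 48 = |(p i : ℝ) / 2 ^ 48| := by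
      rw [Nat.cast_natAbs, Int.cast_abs, abs_div, abs_of_pos (by positivity : (0 : ℝ) < 2 ^ 48)]
    rw [e1, e2]
    exact abs_sub_abs_le_abs_sub _ _
  have h2 := sum_S hS (f := fun i => |((fl p i : ℤ) : ℝ) - (p i : ℝ) / 2 ^ 48|) (by
    intro i hi hn
    have h0 : p i = 0 := by by_contra h; exact hn (hp i hi h)
    have h3 : fl p i = 0 := by unfold fl; rw [h0]; norm_num
    beta_reduce
    rw [h3, h0]
    simp) (by
    intro i
    beta_reduce
    rw [abs_abs]
    exact fl_err p i)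
  have h3 := (abs_le.mp h2).2
  linarith

theorem shr48 (a : ℕ) : (a : ℝ) / 2 ^ 48 ≤ ((Nat.shiftRight a (nat_lit 48) : ℕ) : ℝ) + 1 := by
  have h1 : Nat.shiftRight a (nat_lit 48) = a / 2 ^ 48 := Nat.shiftRight_eq_div_pow _ _
  rw [h1, div_le_iff₀ (by positivity)]
  have h2 := Nat.div_add_mod a (2 ^ 48)
  have h3 : a % 2 ^ 48 < 2 ^ 48 := Nat.mod_lt _ (by positivity)
  have h4 : a ≤ (a / 2 ^ 48 + 1) * 2 ^ 48 := by
    rw [add_mul, one_mul]
    omega
  exact_mod_cast h4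

section

variable {l : Lay} {L t : ℕ} (hl : LOK l L t) {S : Finset ℕ} {μ : ℕ → ℝ} (hS : Sem L t S μ)

include hS

theorem RQ.ab {c : ℕ → ℤ} {y : ℝ} {Y : Q2} (h : RQ L S μ c y Y) : |y| * 2 ^ 48 ≤ (na c L : ℝ) + Y.r := by
  have h1 := h.er
  have h2 := pv_le hS.le c L
  have e : |y| * 2 ^ 48 = |y * 2 ^ 48| := by rw [abs_mul, abs_of_pos (by positivity : (0 : ℝ) < 2 ^ 48)]
  rw [e]
  have h3 : |y * 2 ^ 48| ≤ |pv μ c L| + |y * 2 ^ 48 - pv μ c L| := by
    have := abs_add_le (pv μ c L) (y * 2 ^ 48 - pv μ c L)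
    have e2 : pv μ c L + (y * 2 ^ 48 - pv μ c L) = y * 2 ^ 48 := by ring
    rwa [e2] at this
  linarith

theorem rep_bad {y z : ℝ} {Y Z : Q2} {c d : ℕ → ℤ} (h : RQ L S μ c y Y) (k : RQ L S μ d z Z) :
    RepQ L S μ (y * z) (Q2.bad Y Z) := by
  refine ⟨fun _ => 0, ⟨fun i hi => absurd rfl hi, ?_, ?_, ?_, ?_⟩⟩
  · show 0 < 2 ^ (128 * L)
    positivity
  · show ((0 : ℕ) : ℤ) ≡ _ [ZMOD _]
    have : zg (fun _ => 0) L = 0 := by unfold zg; simp
    rw [this]
    rfl
  · show na (fun _ => 0) L ≤ 0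
    unfold na
    simp
  · show _ ≤ ((Nat.succ (Nat.shiftRight ((Y.b + Y.r) * (Z.b + Z.r)) (nat_lit 48)) : ℕ) : ℝ)
    have e0 : pv μ (fun _ => 0) L = 0 := by unfold pv; simp
    rw [e0, sub_zero]
    have h1 := h.ab hS
    have k1 := k.ab hS
    have h2 : (na c L : ℝ) ≤ Y.b := by exact_mod_cast h.nb
    have k2 : (na d L : ℝ) ≤ Z.b := by exact_mod_cast k.nb
    have h3 := shr48 ((Y.b + Y.r) * (Z.b + Z.r))
    have e1 : |y * z * 2 ^ 48| = (|y| * 2 ^ 48) * (|z| * 2 ^ 48) / 2 ^ 48 := by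
      rw [abs_mul, abs_mul, abs_of_pos (by positivity : (0 : ℝ) < 2 ^ 48)]
      field_simp
    rw [e1]
    have h4 : (|y| * 2 ^ 48) * (|z| * 2 ^ 48) ≤ ((Y.b : ℝ) + Y.r) * ((Z.b : ℝ) + Z.r) := by
      have g1 : |y| * 2 ^ 48 ≤ (Y.b : ℝ) + Y.r := by linarith
      have g2 : |z| * 2 ^ 48 ≤ (Z.b : ℝ) + Z.r := by linarith
      have g3 : (0 : ℝ) ≤ |z| * 2 ^ 48 := by positivity
      have g4 : (0 : ℝ) ≤ (Y.b : ℝ) + Y.r := by positivity
      exact mul_le_mul g1 g2 g3 g4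
    have h5 : (|y| * 2 ^ 48) * (|z| * 2 ^ 48) / 2 ^ 48 ≤ ((((Y.b + Y.r) * (Z.b + Z.r) : ℕ) : ℝ)) / 2 ^ 48 := by
      push_cast
      gcongr
    refine h5.trans (h3.trans (le_of_eq ?_))
    push_cast
    rfl

theorem rep_zero : RepQ L S μ 0 Q2.zero := by
  refine ⟨fun _ => 0, ⟨fun i hi => absurd rfl hi, ?_, ?_, ?_, ?_⟩⟩
  · show 0 < 2 ^ (128 * L)
    positivity
  · show ((0 : ℕ) : ℤ) ≡ _ [ZMOD _]
    have : zg (fun _ => 0) L = 0 := by unfold zg; simp
    rw [this]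
    rfl
  · show na (fun _ => 0) L ≤ 0
    unfold na
    simp
  · have e0 : pv μ (fun _ => 0) L = 0 := by unfold pv; simp
    rw [e0]
    show |(0 : ℝ) * 2 ^ 48 - 0| ≤ ((0 : ℕ) : ℝ)
    simp

theorem RQ.isz {c : ℕ → ℤ} {y : ℝ} {Y : Q2} (h : RQ L S μ c y Y) (hz : Nat.beq (Nat.add Y.b Y.r) (nat_lit 0) = true) : y = 0 := by
  rw [Nat.beq_eq] at hz
  have hz' : Y.b + Y.r = 0 := hz
  have e1 : Y.b = 0 := by omega
  have e2 : Y.r = 0 := by omega
  have h1 := h.ab hS
  have h2 := h.nb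
  rw [e1] at h2
  have h3 : na c L = 0 := by omega
  rw [h3, e2] at h1
  have h4 : |y| * 2 ^ 48 ≤ 0 := by simpa using h1
  have h5 : |y| ≤ 0 := by
    by_contra hn
    have : 0 < |y| := not_le.mp hn
    have : 0 < |y| * 2 ^ 48 := by positivity
    linarith
  exact abs_nonpos_iff.mp h5

include hl

theorem RQ.mul3 {c d : ℕ → ℤ} {y z : ℝ} {Y Z : Q2} (h : RQ L S μ c y Y) (k : RQ L S μ d z Z) (hb : Y.b ≤ H1) (kb : Z.b ≤ H1) :
    RepQ L S μ (y * z) (Q2.mul2 l Y Z (Q2.abs l Y.X) (Q2.abs l Z.X)) := by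
  have hA := abs_eq hl hS h hb
  have hB := abs_eq hl hS k kb
  have hc := h.ez hS
  have hd := k.ez hS
  have nc : na c L ≤ H1 := h.nb.trans hb
  have nd : na d L ≤ H1 := k.nb.trans kb
  have ht : t ≤ L := by have := hS.tL; omega
  have a1 := sm_n (L := L) hA nc
  have b1 := sm_n (L := L) hB nd
  have a2 := sm_f (L := L) hA hc nc ht hl.s1
  have b2 := sm_f (L := L) hB hd nd ht hl.s1
  have a3 := sm_f (L := L) hA hc nc hS.tL hl.s2
  have b3 := sm_f (L := L) hB hd nd hS.tL hl.s2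
  unfold Q2.mul2 Q2.mul3
  rw [a1, b1, a2, b2, a3, b3]
  cases hn : Nat.ble (Nat.mul (na c L) (na d L)) H1 with
  | false => exact rep_bad hS h k
  | true =>
    rw [Nat.ble_eq] at hn
    have hn' : na c L * na d L ≤ H1 := hn
    have hpr := na_pr c d L
    have hps : ∀ i, i < L → pr c d i ≠ 0 → i ∈ S := fun i hi => pr_sup hS h.sup k.sup i hi
    -- a version of the product with support
    set p : ℕ → ℤ := fun i => if i < L then pr c d i else 0 with hp
    have pp : ∀ i, i < L → p i = pr c d i := fun i hi => by rw [hp]; simp [hi]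
    have p0 : ∀ i, L ≤ i → p i = 0 := fun i hi => by rw [hp]; simp [not_lt.mpr hi]
    have nap : na p L = na (pr c d) L := Finset.sum_congr rfl fun i hi => by rw [pp i (Finset.mem_range.mp hi)]
    have zgp : zg p L = zg (pr c d) L := Finset.sum_congr rfl fun i hi => by rw [pp i (Finset.mem_range.mp hi)]
    have pvp : pv μ p L = pv μ (pr c d) L := Finset.sum_congr rfl fun i hi => by rw [pp i (Finset.mem_range.mp hi)]
    have hpS : ∀ i, p i ≠ 0 → i ∈ S := by
      intro i hi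
      rcases Nat.lt_or_ge i L with h1 | h1
      · rw [pp i h1] at hi
        exact hps i h1 hi
      · exact absurd (p0 i h1) hi
    have hbp : ∀ i, (p i).natAbs < 2 ^ 127 := by
      intro i
      have h1 := le_na p0 i
      rw [nap] at h1
      have h2 := h1.trans (hpr.trans hn')
      rw [H1_eq] at h2
      have : (2 : ℕ) ^ 127 = (2 ^ 127 - 1) + 1 := by norm_num
      omega
    have hX : ((Y.X * Z.X : ℕ) : ℤ) ≡ zg p L [ZMOD ((2 ^ (128 * L) : ℕ) : ℤ)] := by
      rw [zgp]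
      push_cast
      have := (h.eq.mul k.eq).trans (zg_pr c d L)
      push_cast at this
      exact this
    have hN : Nat.land (Nat.add (Nat.mul Y.X Z.X) l.O) l.M1 = dgs 128 (od p) L := by
      rw [land_M1 hl, hl.O]
      exact recov hbp hX
    refine ⟨fl p, ⟨?_, ?_, ?_, ?_, ?_⟩⟩
    · intro i hi
      refine hpS i ?_
      intro h1
      apply hi
      unfold fl
      rw [h1]
      norm_num
    · show Nat.land _ l.M1 < _
      rw [land_M1 hl]
      exact Nat.mod_lt _ (by positivity)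
    · exact rnd_eq hbp hN hl
    · show na (fl p) L ≤ Nat.shiftRight (na c L * na d L) (nat_lit 48) + 16
      have h1 := na_fl hS (p := p) fun i _ => hpS i
      have h2 : (na p L : ℝ) ≤ ((na c L * na d L : ℕ) : ℝ) := by
        rw [nap]
        exact_mod_cast hpr
      have h3 := shr48 (na c L * na d L)
      have h4 : (na p L : ℝ) / 2 ^ 48 ≤ ((na c L * na d L : ℕ) : ℝ) / 2 ^ 48 := by gcongr
      have h5 : (na (fl p) L : ℝ) ≤ ((Nat.shiftRight (na c L * na d L) (nat_lit 48) + 16 : ℕ) : ℝ) := by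
        push_cast at h3 h4 ⊢
        linarith
      exact_mod_cast h5
    · show _ ≤ ((Q2.rem _ _ _ _ _ _ _ _ : ℕ) : ℝ)
      unfold Q2.rem
      show _ ≤ ((Nat.shiftRight (nf c t L * nf d (2 * t) L + nf c (2 * t) L * nf d t L + (na c L * Z.r + (na d L + Z.r) * Y.r)) (nat_lit 48) + 16 : ℕ) : ℝ)
      have g1 := pv_fl hS (p := p) fun i _ => hpS i
      have g2 := pv_pr hS h.sup k.sup
      have g3 := shr48 (nf c t L * nf d (2 * t) L + nf c (2 * t) L * nf d t L + (na c L * Z.r + (na d L + Z.r) * Y.r))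
      rw [pvp] at g1
      have g4 := h.er
      have g5 := k.er
      have g6 := k.ab hS
      have g7 := pv_le hS.le c L
      -- the product of the values
      have g8 : |(y * 2 ^ 48) * (z * 2 ^ 48) - pv μ c L * pv μ d L| ≤ (na c L : ℝ) * Z.r + ((na d L : ℝ) + Z.r) * Y.r := by
        have e : (y * 2 ^ 48) * (z * 2 ^ 48) - pv μ c L * pv μ d L =
            pv μ c L * (z * 2 ^ 48 - pv μ d L) + (z * 2 ^ 48) * (y * 2 ^ 48 - pv μ c L) := by ring
        rw [e]
        refine (abs_add_le _ _).trans (add_le_add ?_ ?_)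
        · rw [abs_mul]
          exact mul_le_mul g7 g5 (abs_nonneg _) (Nat.cast_nonneg _)
        · rw [abs_mul]
          have e2 : |z * 2 ^ 48| = |z| * 2 ^ 48 := by rw [abs_mul, abs_of_pos (by positivity : (0 : ℝ) < 2 ^ 48)]
          rw [e2]
          exact mul_le_mul g6 g4 (abs_nonneg _) (by positivity)
      have g9 : |y * z * 2 ^ 48 - pv μ (pr c d) L / 2 ^ 48| ≤
          ((nf c t L * nf d (2 * t) L + nf c (2 * t) L * nf d t L + (na c L * Z.r + (na d L + Z.r) * Y.r) : ℕ) : ℝ) / 2 ^ 48 := by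
        have e : y * z * 2 ^ 48 - pv μ (pr c d) L / 2 ^ 48 =
            (((y * 2 ^ 48) * (z * 2 ^ 48) - pv μ c L * pv μ d L) + (pv μ c L * pv μ d L - pv μ (pr c d) L)) / 2 ^ 48 := by
          field_simp
          ring
        rw [e, abs_div, abs_of_pos (by positivity : (0 : ℝ) < 2 ^ 48)]
        gcongr
        refine (abs_add_le _ _).trans ?_
        push_cast at g2 g8 ⊢
        linarith
      have g10 : |y * z * 2 ^ 48 - pv μ (fl p) L| ≤ |y * z * 2 ^ 48 - pv μ (pr c d) L / 2 ^ 48| + |pv μ (fl p) L - pv μ (pr c d) L / 2 ^ 48| := by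
        have := abs_sub (y * z * 2 ^ 48 - pv μ (pr c d) L / 2 ^ 48) (pv μ (fl p) L - pv μ (pr c d) L / 2 ^ 48)
        have e : y * z * 2 ^ 48 - pv μ (pr c d) L / 2 ^ 48 - (pv μ (fl p) L - pv μ (pr c d) L / 2 ^ 48) = y * z * 2 ^ 48 - pv μ (fl p) L := by ring
        rwa [e] at this
      have g11 := g10.trans (add_le_add (g9.trans g3) g1)
      refine g11.trans (le_of_eq ?_)
      rw [Nat.cast_add]
      push_cast
      ring

theorem RepQ.mul {y z : ℝ} {Y Z : Q2} (h : RepQ L S μ y Y) (k : RepQ L S μ z Z) : RepQ L S μ (y * z) (Q2.mul l Y Z) := by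
  obtain ⟨c, h⟩ := h
  obtain ⟨d, k⟩ := k
  unfold Q2.mul
  cases hz : Nat.beq (Nat.add Y.b Y.r) (nat_lit 0) with
  | true =>
    rw [h.isz hS hz, zero_mul]
    exact rep_zero hS
  | false =>
    cases kz : Nat.beq (Nat.add Z.b Z.r) (nat_lit 0) with
    | true =>
      rw [k.isz hS kz, mul_zero]
      exact rep_zero hS
    | false =>
      show RepQ L S μ (y * z) (Q2.mul1 l Y Z)
      unfold Q2.mul1
      cases hb : and (Nat.ble Y.b H1) (Nat.ble Z.b H1) with
      | false => exact rep_bad hS h k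
      | true =>
        rw [Bool.and_eq_true, Nat.ble_eq, Nat.ble_eq] at hb
        exact RQ.mul3 hl hS h k hb.1 hb.2

/-- a constant -/
theorem rep_con {y : ℝ} (v : ℤ) (X b r : ℕ) (hX : X < 2 ^ (128 * L)) (he : (X : ℤ) ≡ v [ZMOD ((2 ^ (128 * L) : ℕ) : ℤ)])
    (hb : v.natAbs ≤ b) (hr : |y * 2 ^ 48 - v| ≤ (r : ℝ)) : RepQ L S μ y ⟨X, b, r⟩ := by
  have hL : 0 < L := by have := hS.tL; have := hS.pos; omega
  have key : ∀ (R : Type) [AddCommMonoid R] (f : ℕ → R), (∀ i, i ≠ 0 → f i = 0) → ∑ i ∈ Finset.range L, f i = f 0 := by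
    intro R _ f hf
    exact Finset.sum_eq_single 0 (fun i _ hi => hf i hi) fun h => absurd (Finset.mem_range.mpr hL) h
  refine ⟨fun i => if i = 0 then v else 0, ⟨?_, hX, ?_, ?_, ?_⟩⟩
  · intro i hi
    by_cases h : i = 0
    · rw [h]
      exact hS.S0
    · simp [h] at hi
  · have : zg (fun i => if i = 0 then v else 0) L = v := by
      unfold zg
      rw [key ℤ _ (by intro i hi; simp [hi])]
      simp
    rw [this]
    exact he
  · have : na (fun i => if i = 0 then v else 0) L = v.natAbs := by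
      unfold na
      rw [key ℕ _ (by intro i hi; simp [hi])]
      simp
    rw [this]
    exact hb
  · have : pv μ (fun i => if i = 0 then v else 0) L = v := by
      unfold pv
      rw [key ℝ _ (by intro i hi; simp [hi])]
      simp [hS.zero]
    rw [this]
    exact hr

theorem rep_cst (z : ℤ) : RepQ L S μ ((z : ℝ) / 1073741824) (Q2.cst l z) := by
  cases z with
  | ofNat n =>
    show RepQ L S μ (((n : ℤ) : ℝ) / 1073741824) ⟨Nat.land (n * 262144) l.M1, n * 262144, 0⟩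
    refine rep_con hl hS ((n : ℤ) * 262144) _ _ _ ?_ ?_ ?_ ?_
    · rw [land_M1 hl]
      exact Nat.mod_lt _ (by positivity)
    · rw [land_M1 hl]
      refine (modz _ _).trans ?_
      push_cast
      rfl
    · rw [Int.natAbs_mul]
      exact le_rfl
    · push_cast
      have : (n : ℝ) / 1073741824 * 2 ^ 48 - n * 262144 = 0 := by ring
      rw [this]
      simp
  | negSucc n =>
    show RepQ L S μ (((Int.negSucc n : ℤ) : ℝ) / 1073741824)
      ⟨Nat.land (l.M - Nat.land ((n + 1) * 262144) l.M1) l.M1, (n + 1) * 262144, 0⟩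
    refine rep_con hl hS (-(((n : ℤ) + 1) * 262144)) _ _ _ ?_ ?_ ?_ ?_
    · rw [land_M1 hl]
      exact Nat.mod_lt _ (by positivity)
    · rw [land_M1 hl, land_M1 hl, hl.M]
      refine (modz _ _).trans ?_
      have h1 : (n + 1) * 262144 % 2 ^ (128 * L) ≤ 2 ^ (128 * L) := (Nat.mod_lt _ (by positivity)).le
      rw [Nat.cast_sub h1]
      have h2 := modz ((n + 1) * 262144) (128 * L)
      have h3 : (((2 ^ (128 * L) : ℕ) : ℤ) - ((((n + 1) * 262144 % 2 ^ (128 * L) : ℕ) : ℤ))) ≡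
          0 - (((n + 1) * 262144 : ℕ) : ℤ) [ZMOD ((2 ^ (128 * L) : ℕ) : ℤ)] :=
        Int.ModEq.sub (by rw [Int.modEq_iff_dvd]; exact ⟨-1, by ring⟩) h2
      refine h3.trans ?_
      push_cast
      have e : (0 : ℤ) - ((n : ℤ) + 1) * 262144 = -(((n : ℤ) + 1) * 262144) := by ring
      rw [e]
    · rw [Int.natAbs_neg, Int.natAbs_mul]
      have : ((n : ℤ) + 1).natAbs = n + 1 := by omega
      rw [this]
      exact le_rfl
    · have e : ((Int.negSucc n : ℤ) : ℝ) = -((n : ℝ) + 1) := by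
        rw [Int.cast_negSucc]
        push_cast
        ring
      rw [e]
      push_cast
      have : (-((n : ℝ) + 1)) / 1073741824 * 2 ^ 48 - -(((n : ℝ) + 1) * 262144) = 0 := by ring
      rw [this]
      simp

theorem OQ_rel : OpsRel (OQ l) (RepQ L S μ) where
  add := by
    rintro x y s u ⟨c, h⟩ ⟨d, k⟩
    exact ⟨_, h.add hl k⟩
  sub := by
    rintro x y s u ⟨c, h⟩ ⟨d, k⟩
    exact ⟨_, h.sub hl k⟩
  neg := by
    rintro x s ⟨c, h⟩
    exact ⟨_, h.neg hl⟩
  mul := fun h k => RepQ.mul hl hS h k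
  cst := fun z => rep_cst hl hS z
  nrm := fun h => h

theorem RepQ.pos {y : ℝ} {Y : Q2} (h : RepQ L S μ y Y) (hp : Q2.pos l Y = true) : 0 < y := by
  obtain ⟨c, h⟩ := h
  unfold Q2.pos at hp
  cases hb : Nat.ble Y.b H1 with
  | false => rw [hb] at hp; exact absurd hp (by simp)
  | true =>
    rw [hb] at hp
    rw [Nat.ble_eq] at hb
    have hp' : Q2.pos1 l Y (Nat.land (Nat.add Y.X l.O) l.M1) = true := hp
    have hcb := na_le_b hS h hb
    rw [h.offs hl hcb] at hp'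
    unfold Q2.pos1 at hp'
    rw [absA_eq hl hcb rfl, Nat.ble_eq] at hp'
    have ht : t ≤ L := by have := hS.tL; omega
    have nc : na c L ≤ H1 := h.nb.trans hb
    rw [sm_f (L := L) rfl (h.ez hS) nc ht hl.s1] at hp'
    have hL : 0 < L := by have := hS.tL; have := hS.pos; omega
    have h0 : Nat.land (dgs 128 (od c) L) D1 = od c 0 := by
      have e : D1 = 2 ^ 128 - 1 := rfl
      rw [e, land_mod]
      have := dgs_digit (w := 128) (d := od c) (fun i => od_lt (hcb i)) L 0 hL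
      simpa using this
    rw [h0] at hp'
    have hp2 : 2 ^ 127 + nf c t L + (Y.r + 1) ≤ od c 0 := hp'
    have e0 := od_cast (hcb 0)
    have h1 : ((2 : ℤ) ^ 127 + nf c t L + (Y.r + 1)) ≤ c 0 + 2 ^ 127 := by
      rw [← e0]
      exact_mod_cast hp2
    have h2 : (nf c t L : ℤ) + Y.r + 1 ≤ c 0 := by linarith
    have h3 : (nf c t L : ℝ) + Y.r + 1 ≤ (c 0 : ℝ) := by exact_mod_cast h2
    -- the value
    have h4 : |pv μ c L - c 0| ≤ (nf c t L : ℝ) := by
      have e1 : pv μ c L = c 0 + ∑ i ∈ Finset.range (L - t), (c (i + t) : ℝ) * μ (i + t) := by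
        unfold pv
        have e2 : L = t + (L - t) := by omega
        conv_lhs => rw [e2, Finset.sum_range_add]
        congr 1
        · have hpos := hS.pos
          rw [Finset.sum_eq_single 0]
          · rw [hS.zero, mul_one]
          · intro i hi h0
            rw [Finset.mem_range] at hi
            have : c i = 0 := by
              by_contra hn
              rcases hS.lev i (h.sup i hn) with h5 | h5
              · exact h0 h5
              · omega
            rw [this]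
            simp
          · intro hn
            exact absurd (Finset.mem_range.mpr hpos) hn
        · exact Finset.sum_congr rfl fun i _ => by rw [add_comm t i]
      rw [e1, add_sub_cancel_left]
      unfold nf
      push_cast
      refine (Finset.abs_sum_le_sum_abs _ _).trans (Finset.sum_le_sum fun i _ => ?_)
      rw [abs_mul]
      have e3 : (((c (i + t)).natAbs : ℕ) : ℝ) = |(c (i + t) : ℝ)| := by rw [Nat.cast_natAbs, Int.cast_abs]
      rw [e3]
      exact mul_le_of_le_one_right (abs_nonneg _) (hS.le _)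
    have h5 := (abs_le.mp h.er).1
    have h6 := (abs_le.mp h4).1
    have h7 : 0 < y * 2 ^ 48 := by linarith
    exact (mul_pos_iff_of_pos_right (by positivity)).mp h7

end

end Pool.Agent.Work.MP_88b7aa_gt.Kd
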