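import Pool.Agent.Work.MP_88b7aa_gt.Kd.A2
import Pool.Agent.Work.MP_88b7aa_gt.Kc.S5

/-!
# Soundness of the second version: the test of one matrix
-/

set_option autoImplicit false
set_option exponentiation.threshold 3000

namespace Pool.Agent.Work.MP_88b7aa_gt.Kd

open Pool.Agent.Work.MP_88b7aa_gt.Kc (dgs dgs_succ dgs_lt dgs_and dgs_xor dgs_self dgs_digit dgs_mask dgs_mod xor_abs QF QF_lin QF_err
  QF_conv mul_abs_lt modEq_of_eq)
open Pool.Agent.Work.MP_88b7aa_gt.PQ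

theorem PP_eq : PP = 2 ^ 512 := by
  unfold PP
  exact Nat.pow_eq

seal PP

theorem Ph_eq : Ph = 2 ^ 511 - 1 := by
  unfold Ph
  rfl

theorem P1_eq : P1 = PP - 1 := by
  unfold P1
  rfl

theorem Os_eq : Os = PP - 2 ^ 127 := by
  unfold Os
  rfl

seal P1 Ph Os

theorem PP_pos : 0 < PP := by rw [PP_eq]; positivity

theorem P1_mod : (P1 : ℤ) ≡ -1 [ZMOD PP] := by
  rw [P1_eq, Nat.cast_sub (by have := PP_pos; omega), Nat.cast_one, Int.modEq_iff_dvd]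
  exact ⟨-1, by ring⟩

theorem modP (n : ℕ) : ((Nat.land n P1 : ℕ) : ℤ) ≡ n [ZMOD PP] := by
  rw [P1_eq, PP_eq, land_mod]
  exact modz _ _

/-- A small residue is the number itself. -/
theorem res_eq {r : ℕ} {T : ℤ} (h : (r : ℤ) ≡ T [ZMOD PP]) (hr : r ≤ Ph) (hT : |T| < 2 ^ 511) : T = r := by
  have h1 := (Int.modEq_iff_dvd.mp h)
  have h2 : (PP : ℤ) = 2 * 2 ^ 511 := by
    rw [PP_eq]
    push_cast
  rw [Ph_eq] at hr
  have h3 : (r : ℤ) ≤ 2 ^ 511 - 1 := by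
    have h4 : r + 1 ≤ 2 ^ 511 := by
      have : 0 < 2 ^ 511 := by positivity
      omega
    have h5 : ((r + 1 : ℕ) : ℤ) ≤ ((2 ^ 511 : ℕ) : ℤ) := Int.ofNat_le.mpr h4
    push_cast at h5
    linarith
  have h6 := abs_lt.mp hT
  have h7 : (0 : ℤ) ≤ r := Int.natCast_nonneg _
  have h8 : |T - r| < PP := by
    rw [h2, abs_lt]
    constructor <;> linarith
  have h9 := Int.eq_zero_of_abs_lt_dvd h1 h8
  linarith

theorem leaf_sound (d0 d1 d2 p q r s t w : ℕ) (D0 D1 D2 P Q R S T W : ℤ) (g0 : (d0 : ℤ) ≡ D0 [ZMOD PP])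
    (g1 : (d1 : ℤ) ≡ D1 [ZMOD PP]) (g2 : (d2 : ℤ) ≡ D2 [ZMOD PP]) (gp : (p : ℤ) ≡ P [ZMOD PP])
    (gq : (q : ℤ) ≡ Q [ZMOD PP]) (gr : (r : ℤ) ≡ R [ZMOD PP]) (gs : (s : ℤ) ≡ S [ZMOD PP])
    (gt : (t : ℤ) ≡ T [ZMOD PP]) (gw : (w : ℤ) ≡ W [ZMOD PP]) (b0 : |D0| ≤ 2 ^ 126) (b1 : |D1| ≤ 2 ^ 126) (b2 : |D2| ≤ 2 ^ 126)
    (bp : |P| ≤ 2 ^ 126) (bq : |Q| ≤ 2 ^ 126) (br : |R| ≤ 2 ^ 126) (bs : |S| ≤ 2 ^ 126) (bt : |T| ≤ 2 ^ 126) (bw : |W| ≤ 2 ^ 126) (hD : 0 < D0)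
    (h : psd d0 d1 d2 p q r s t w = true) (u : Fin 3 → ℂ) : 0 ≤ qf (Hm D0 D1 D2 P Q R S T W) u := by
  unfold psd psd2 at h
  rw [Bool.and_eq_true, Bool.and_eq_true, Nat.ble_eq, Nat.ble_eq, Nat.ble_eq] at h
  obtain ⟨⟨hA1, hA2⟩, hC⟩ := h
  -- the residues
  have eA : ((Nat.land (Nat.add (Nat.mul d0 d1) (Nat.mul P1 (Nat.add (Nat.mul p p) (Nat.mul q q)))) P1 : ℕ) : ℤ) ≡
      D0 * D1 - (P ^ 2 + Q ^ 2) [ZMOD PP] := by
    refine (modP _).trans ?_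
    show ((d0 * d1 + P1 * (p * p + q * q) : ℕ) : ℤ) ≡ _ [ZMOD PP]
    push_cast
    have := (g0.mul g1).add (P1_mod.mul ((gp.mul gp).add (gq.mul gq)))
    refine this.trans (modEq_of_eq (by ring))
  have eC : ((Nat.add (Nat.mul d0 d2) (Nat.mul P1 (Nat.add (Nat.mul r r) (Nat.mul s s))) : ℕ) : ℤ) ≡
      D0 * D2 - (R ^ 2 + S ^ 2) [ZMOD PP] := by
    show ((d0 * d2 + P1 * (r * r + s * s) : ℕ) : ℤ) ≡ _ [ZMOD PP]
    push_cast
    have := (g0.mul g2).add (P1_mod.mul ((gr.mul gr).add (gs.mul gs)))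
    refine this.trans (modEq_of_eq (by ring))
  have e1 : ((Nat.add (Nat.mul d0 t) (Nat.mul P1 (Nat.add (Nat.mul p r) (Nat.mul q s))) : ℕ) : ℤ) ≡
      D0 * T - (P * R + Q * S) [ZMOD PP] := by
    show ((d0 * t + P1 * (p * r + q * s) : ℕ) : ℤ) ≡ _ [ZMOD PP]
    push_cast
    have := (g0.mul gt).add (P1_mod.mul ((gp.mul gr).add (gq.mul gs)))
    refine this.trans (modEq_of_eq (by ring))
  have e2 : ((Nat.add (Nat.add (Nat.mul d0 w) (Nat.mul q r)) (Nat.mul P1 (Nat.mul p s)) : ℕ) : ℤ) ≡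
      D0 * W - (P * S - Q * R) [ZMOD PP] := by
    show ((d0 * w + q * r + P1 * (p * s) : ℕ) : ℤ) ≡ _ [ZMOD PP]
    push_cast
    have := ((g0.mul gw).add (gq.mul gr)).add (P1_mod.mul (gp.mul gs))
    refine this.trans (modEq_of_eq (by ring))
  -- bounds
  have k1 : ∀ {a b : ℤ}, |a| ≤ 2 ^ 126 → |b| ≤ 2 ^ 126 → |a * b| ≤ 2 ^ 252 := by
    intro a b ha hb
    have := mul_abs_lt ha hb
    rwa [← pow_add] at this
  have bA : |D0 * D1 - (P ^ 2 + Q ^ 2)| ≤ 3 * 2 ^ 252 := by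
    have x1 := abs_le.mp (k1 b0 b1)
    have x2 := abs_le.mp (k1 bp bp)
    have x3 := abs_le.mp (k1 bq bq)
    rw [abs_le]
    constructor <;> nlinarith
  have bC : |D0 * D2 - (R ^ 2 + S ^ 2)| ≤ 3 * 2 ^ 252 := by
    have x1 := abs_le.mp (k1 b0 b2)
    have x2 := abs_le.mp (k1 br br)
    have x3 := abs_le.mp (k1 bs bs)
    rw [abs_le]
    constructor <;> nlinarith
  have bB1 : |D0 * T - (P * R + Q * S)| ≤ 3 * 2 ^ 252 := by
    have x1 := abs_le.mp (k1 b0 bt)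
    have x2 := abs_le.mp (k1 bp br)
    have x3 := abs_le.mp (k1 bq bs)
    rw [abs_le]
    constructor <;> linarith [x1.1, x1.2, x2.1, x2.2, x3.1, x3.2]
  have bB2 : |D0 * W - (P * S - Q * R)| ≤ 3 * 2 ^ 252 := by
    have x1 := abs_le.mp (k1 b0 bw)
    have x2 := abs_le.mp (k1 bp bs)
    have x3 := abs_le.mp (k1 bq br)
    rw [abs_le]
    constructor <;> linarith [x1.1, x1.2, x2.1, x2.2, x3.1, x3.2]
  set A := D0 * D1 - (P ^ 2 + Q ^ 2) with hAd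
  set C := D0 * D2 - (R ^ 2 + S ^ 2) with hCd
  set B1 := D0 * T - (P * R + Q * S) with hB1
  set B2 := D0 * W - (P * S - Q * R) with hB2
  have c1 : (3 * 2 ^ 252 : ℤ) < 2 ^ 511 := by norm_num
  have hA : A = _ := res_eq eA hA2 (bA.trans_lt c1)
  have hApos : 0 < A := by
    rw [hA]
    have : 0 < Nat.land (Nat.add (Nat.mul d0 d1) (Nat.mul P1 (Nat.add (Nat.mul p p) (Nat.mul q q)))) P1 := hA1
    exact_mod_cast this
  have eT : ((Nat.land (Nat.add (Nat.mul (Nat.land (Nat.add (Nat.mul d0 d1) (Nat.mul P1 (Nat.add (Nat.mul p p) (Nat.mul q q)))) P1)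
      (Nat.add (Nat.mul d0 d2) (Nat.mul P1 (Nat.add (Nat.mul r r) (Nat.mul s s)))))
      (Nat.mul P1 (Nat.add (Nat.mul (Nat.add (Nat.mul d0 t) (Nat.mul P1 (Nat.add (Nat.mul p r) (Nat.mul q s))))
      (Nat.add (Nat.mul d0 t) (Nat.mul P1 (Nat.add (Nat.mul p r) (Nat.mul q s)))))
      (Nat.mul (Nat.add (Nat.add (Nat.mul d0 w) (Nat.mul q r)) (Nat.mul P1 (Nat.mul p s)))
      (Nat.add (Nat.add (Nat.mul d0 w) (Nat.mul q r)) (Nat.mul P1 (Nat.mul p s))))))) P1 : ℕ) : ℤ) ≡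
      A * C - (B1 ^ 2 + B2 ^ 2) [ZMOD PP] := by
    refine (modP _).trans ?_
    generalize (Nat.land (Nat.add (Nat.mul d0 d1) (Nat.mul P1 (Nat.add (Nat.mul p p) (Nat.mul q q)))) P1) = A' at eA ⊢
    generalize (Nat.add (Nat.mul d0 d2) (Nat.mul P1 (Nat.add (Nat.mul r r) (Nat.mul s s)))) = C' at eC ⊢
    generalize (Nat.add (Nat.mul d0 t) (Nat.mul P1 (Nat.add (Nat.mul p r) (Nat.mul q s)))) = X' at e1 ⊢
    generalize (Nat.add (Nat.add (Nat.mul d0 w) (Nat.mul q r)) (Nat.mul P1 (Nat.mul p s))) = Y' at e2 ⊢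
    show ((A' * C' + P1 * (X' * X' + Y' * Y') : ℕ) : ℤ) ≡ _ [ZMOD PP]
    push_cast
    have := (eA.mul eC).add (P1_mod.mul ((e1.mul e1).add (e2.mul e2)))
    refine this.trans (modEq_of_eq (by ring))
  have k2 : ∀ {a b : ℤ}, |a| ≤ 3 * 2 ^ 252 → |b| ≤ 3 * 2 ^ 252 → |a * b| ≤ 9 * 2 ^ 504 := by
    intro a b ha hb
    have := mul_abs_lt ha hb
    refine this.trans (le_of_eq ?_)
    norm_num
  have bT : |A * C - (B1 ^ 2 + B2 ^ 2)| ≤ 27 * 2 ^ 504 := by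
    have x1 := abs_le.mp (k2 bA bC)
    have x2 := abs_le.mp (k2 bB1 bB1)
    have x3 := abs_le.mp (k2 bB2 bB2)
    rw [abs_le]
    constructor <;> nlinarith
  have c2 : (27 * 2 ^ 504 : ℤ) < 2 ^ 511 := by norm_num
  have hT := res_eq eT hC (bT.trans_lt c2)
  have hTpos : 0 ≤ A * C - (B1 ^ 2 + B2 ^ 2) := by
    rw [hT]
    exact Int.natCast_nonneg _
  refine psd_Hm _ _ _ _ _ _ _ _ _ (by exact_mod_cast hD) (by exact_mod_cast hApos) ?_ u
  have : B1 ^ 2 + B2 ^ 2 ≤ A * C := by linarith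
  rw [hB1, hB2, hAd, hCd] at this
  exact_mod_cast this


theorem pow_127 : (2 : ℕ) ^ 127 = 2 * 2 ^ 126 := by norm_num

theorem na_lt {c : ℤ} (h : |c| ≤ 2 ^ 126) : c.natAbs < 2 ^ 127 := by
  have h1 : (c.natAbs : ℤ) ≤ 2 ^ 126 := by rw [Int.natCast_natAbs]; exact h
  have h2 : c.natAbs ≤ 2 ^ 126 := by exact_mod_cast h1
  have := pow_127
  omega

/-- the signed digit -/
theorem sd_mod {w : ℕ → ℤ} (hw : ∀ k, (w k).natAbs < 2 ^ 127) {N : ℕ} (hN : N = dgs 128 (od w) 9) (k : ℕ) (hk : k < 9) (s : ℕ)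
    (hs : s = 128 * k) : ((sd N s : ℕ) : ℤ) ≡ w k [ZMOD PP] := by
  have e : sd N s = od w k + (PP - 2 ^ 127) := by
    unfold sd
    rw [Os_eq, D1_eq, land_mod]
    have h1 : Nat.shiftRight N s = N / 2 ^ s := Nat.shiftRight_eq_div_pow _ _
    rw [h1, hs, pow_mul, hN, dgs_digit (w := 128) (fun i => od_lt (hw i)) 9 k hk]
    rfl
  have h2 : 2 ^ 127 ≤ PP := by
    rw [PP_eq]
    exact Nat.pow_le_pow_right (by norm_num) (by norm_num)
  have e2 : ((2 ^ 127 : ℕ) : ℤ) = 2 ^ 127 := by norm_num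
  rw [e, Nat.cast_add, Nat.cast_sub h2, od_cast (hw k), e2, Int.modEq_iff_dvd]
  exact ⟨-1, by ring⟩

/-- The test of one matrix. -/
theorem lf_sound {w : ℕ → ℤ} (hw : ∀ k, (w k).natAbs < 2 ^ 127) (hb : ∀ k, k < 9 → |w k| ≤ 2 ^ 126) {N : ℕ} (hN : N = dgs 128 (od w) 9)
    (hf : lf N = true) (u : Fin 3 → ℂ) : 0 ≤ QF (fun k => (w k : ℝ)) u := by
  unfold lf at hf
  cases h0 : Nat.ble (Nat.land N D1) Dh with
  | true => rw [h0] at hf; exact absurd hf (by simp)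
  | false =>
    rw [h0, cond_false] at hf
    have h1 : ¬ (Nat.land N D1 ≤ Dh) := by
      rw [← Nat.ble_eq, h0]
      simp
    have hD : 0 < w 0 := by
      rw [D1_eq, land_mod, hN] at h1
      have h2 := dgs_digit (w := 128) (d := od w) (fun i => od_lt (hw i)) 9 0 (by norm_num)
      rw [pow_zero, Nat.div_one] at h2
      rw [h2, Dh_eq] at h1
      have h3 := od_cast (hw 0)
      have h4 : ((2 ^ 127 : ℕ) : ℤ) < od w 0 := by exact_mod_cast (not_le.mp h1)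
      rw [h3] at h4
      push_cast at h4
      linarith
    have e0 := sd_mod hw hN 0 (by norm_num) (nat_lit 0) rfl
    have e1 := sd_mod hw hN 1 (by norm_num) (nat_lit 128) rfl
    have e2 := sd_mod hw hN 2 (by norm_num) (nat_lit 256) rfl
    have e3 := sd_mod hw hN 3 (by norm_num) (nat_lit 384) rfl
    have e4 := sd_mod hw hN 4 (by norm_num) (nat_lit 512) rfl
    have e5 := sd_mod hw hN 5 (by norm_num) (nat_lit 640) rfl
    have e6 := sd_mod hw hN 6 (by norm_num) (nat_lit 768) rfl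
    have e7 := sd_mod hw hN 7 (by norm_num) (nat_lit 896) rfl
    have e8 := sd_mod hw hN 8 (by norm_num) (nat_lit 1024) rfl
    revert e0 e1 e2 e3 e4 e5 e6 e7 e8 hf
    generalize sd N (nat_lit 0) = d0
    generalize sd N (nat_lit 128) = d1
    generalize sd N (nat_lit 256) = d2
    generalize sd N (nat_lit 384) = d3
    generalize sd N (nat_lit 512) = d4
    generalize sd N (nat_lit 640) = d5
    generalize sd N (nat_lit 768) = d6
    generalize sd N (nat_lit 896) = d7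
    generalize sd N (nat_lit 1024) = d8
    intro hf2 e0 e1 e2 e3 e4 e5 e6 e7 e8
    exact leaf_sound d0 d1 d2 d3 d4 d5 d6 d7 d8 (w 0) (w 1) (w 2) (w 3) (w 4) (w 5) (w 6) (w 7) (w 8)
      e0 e1 e2 e3 e4 e5 e6 e7 e8
      (hb 0 (by norm_num)) (hb 1 (by norm_num)) (hb 2 (by norm_num)) (hb 3 (by norm_num)) (hb 4 (by norm_num)) (hb 5 (by norm_num))
      (hb 6 (by norm_num)) (hb 7 (by norm_num)) (hb 8 (by norm_num)) hD hf2 u

end Pool.Agent.Work.MP_88b7aa_gt.Kd
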