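import Pool.Agent.Work.MP_88b7aa_gt.Kd.A3

/-!
# Soundness of the second version: reductions, children, the tests of the nodes
-/

set_option autoImplicit false
set_option exponentiation.threshold 3000

namespace Pool.Agent.Work.MP_88b7aa_gt.Kd

open Pool.Agent.Work.MP_88b7aa_gt.Kc (dgs dgs_succ dgs_lt dgs_and dgs_xor dgs_self dgs_digit dgs_mask dgs_mod xor_abs QF QF_lin QF_err
  QF_conv mul_abs_lt modEq_of_eq)
open Pool.Agent.Work.MP_88b7aa_gt.PQ

seal PP P1 Ph Os

theorem es_eq {α : Type} (n : ℕ) (k : ℕ → α) : es n k = k n := rfl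

theorem Bp_eq (n : ℕ) : Bp n = 2 ^ (1152 * n) := rfl

theorem Of_eq (n : ℕ) : Of n = dgs 128 (fun _ => 2 ^ 127) (9 * n) := by
  unfold Of
  rw [rp_eq]
  rfl

theorem shr_eq (a s : ℕ) : Nat.shiftRight a s = a / 2 ^ s := Nat.shiftRight_eq_div_pow _ _

theorem shl_eq (a s : ℕ) : Nat.shiftLeft a s = a * 2 ^ s := Nat.shiftLeft_eq _ _

theorem dgs_congr {w : ℕ} {d e : ℕ → ℕ} {n : ℕ} (h : ∀ i, i < n → d i = e i) : dgs w d n = dgs w e n := by
  unfold dgs
  exact Finset.sum_congr rfl fun i hi => by rw [h i (Finset.mem_range.mp hi)]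

/-- regrouping of digits -/
theorem dgs_group (a : ℕ → ℕ) (n : ℕ) : dgs 128 a (9 * n) = dgs 1152 (fun i => dgs 128 (fun k => a (9 * i + k)) 9) n := by
  induction n with
  | zero => simp [dgs]
  | succ n ih =>
    rw [dgs_succ, ← ih]
    have e : 9 * (n + 1) = 9 * n + 9 := by ring
    rw [e, dgs_split (w := 128) a (j := 9 * n) (by omega)]
    have e2 : 9 * n + 9 - 9 * n = 9 := by omega
    have e3 : 128 * (9 * n) = 1152 * n := by ring
    rw [e2, e3]
    have e4 : (fun i => a (i + 9 * n)) = fun k => a (9 * n + k) := by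
      funext i
      rw [add_comm]
    rw [e4]

/-- sum of the absolute values over the blocks -/
def bs (c : ℕ → ℤ) (n k : ℕ) : ℕ := ∑ i ∈ Finset.range n, (c (9 * i + k)).natAbs

theorem na_group (c : ℕ → ℤ) (n : ℕ) : na c (9 * n) = ∑ k ∈ Finset.range 9, bs c n k := by
  induction n with
  | zero => simp [na, bs]
  | succ n ih =>
    have e : 9 * (n + 1) = 9 * n + 9 := by ring
    have h1 : na c (9 * (n + 1)) = na c (9 * n) + ∑ k ∈ Finset.range 9, (c (9 * n + k)).natAbs := by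
      unfold na
      rw [e, Finset.sum_range_add]
    rw [h1, ih, ← Finset.sum_add_distrib]
    refine Finset.sum_congr rfl fun k _ => ?_
    unfold bs
    rw [Finset.sum_range_succ]

theorem smA_eq {c : ℕ → ℤ} {n : ℕ} (hc : ∀ i, (c i).natAbs < 2 ^ 127) (hn : na c (9 * n) < 2 ^ 127) {N : ℕ}
    (hN : N = dgs 128 (od c) (9 * n)) : smA n N = dgs 128 (bs c n) 9 := by
  have h1 := absd (fun i => od_lt (hc i)) (9 * n) hN rfl
  have h2 : dgs 128 (fun i => (od c i - 2 ^ 127) + (2 ^ 127 - od c i)) (9 * n) = dgs 128 (fun i => (c i).natAbs) (9 * n) :=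
    dgs_congr fun i _ => od_abs (hc i)
  rw [h2] at h1
  have h3 : smA n N = Nat.mod (dgs 128 (fun i => (c i).natAbs) (9 * n)) (2 ^ 1152 - 1) := by
    rw [← h1]
    unfold smA smB
    rw [Of_eq, rp_eq, shr_eq, Bp_eq]
    rfl
  have h4 : Nat.mod (dgs 128 (fun i => (c i).natAbs) (9 * n)) (2 ^ 1152 - 1) = dgs 128 (fun i => (c i).natAbs) (9 * n) % (2 ^ 1152 - 1) := rfl
  have h5 : dgs 1152 (fun i => dgs 128 (fun k => (c (9 * i + k)).natAbs) 9) n % (2 ^ 1152 - 1) =
      (∑ i ∈ Finset.range n, dgs 128 (fun k => (c (9 * i + k)).natAbs) 9) % (2 ^ 1152 - 1) := dgs_mod 1152 _ n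
  have h6 : ∑ i ∈ Finset.range n, dgs 128 (fun k => (c (9 * i + k)).natAbs) 9 = dgs 128 (bs c n) 9 := by
    unfold dgs bs
    rw [Finset.sum_comm]
    refine Finset.sum_congr rfl fun k _ => ?_
    rw [Finset.sum_mul]
  have h7 : ∀ k, k < 9 → bs c n k < 2 ^ 127 := by
    intro k hk
    refine lt_of_le_of_lt ?_ hn
    rw [na_group]
    exact Finset.single_le_sum (f := fun k => bs c n k) (fun _ _ => Nat.zero_le _) (Finset.mem_range.mpr hk)
  have h8 : dgs 128 (bs c n) 9 < 2 ^ 1152 - 1 := by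
    have h9 : dgs 128 (bs c n) 9 = dgs 128 (fun k => if k < 9 then bs c n k else 0) 9 := dgs_congr fun i hi => by simp [hi]
    have h10 : 2 * dgs 128 (fun k => if k < 9 then bs c n k else 0) 9 = dgs 128 (fun k => 2 * (if k < 9 then bs c n k else 0)) 9 := by
      unfold dgs
      rw [Finset.mul_sum]
      exact Finset.sum_congr rfl fun i _ => by ring
    have h11 := dgs_lt (w := 128) (d := fun k => 2 * (if k < 9 then bs c n k else 0)) (fun k => by
      beta_reduce
      split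
      · rename_i hk
        have := h7 k hk
        have e : (2 : ℕ) ^ 128 = 2 * 2 ^ 127 := by norm_num
        omega
      · positivity) 9
    rw [← h10, ← h9] at h11
    have e : 128 * 9 = 1152 := by norm_num
    rw [e] at h11
    have h12 : 2 * (2 ^ 1151) = 2 ^ 1152 := by rw [← pow_succ']
    have h13 : 2 ≤ 2 ^ 1151 := by
      calc 2 = 2 ^ 1 := by norm_num
        _ ≤ 2 ^ 1151 := Nat.pow_le_pow_right (by norm_num) (by norm_num)
    omega
  rw [h3, h4, dgs_group, h5, h6, Nat.mod_eq_of_lt h8]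

/-! ### Row sums -/

/-- selection -/
def s9 {α : Type} (z a0 a1 a2 a3 a4 a5 a6 a7 a8 : α) (k : ℕ) : α :=
  if k = 0 then a0 else if k = 1 then a1 else if k = 2 then a2 else if k = 3 then a3 else if k = 4 then a4 else if k = 5 then a5
  else if k = 6 then a6 else if k = 7 then a7 else if k = 8 then a8 else z

theorem pk9_eq (W a0 a1 a2 a3 a4 a5 a6 a7 a8 : ℕ) : pk9 W a0 a1 a2 a3 a4 a5 a6 a7 a8 = dgs W (s9 0 a0 a1 a2 a3 a4 a5 a6 a7 a8) 9 := by
  unfold pk9
  simp only [shl_eq]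
  have h : dgs W (s9 0 a0 a1 a2 a3 a4 a5 a6 a7 a8) 9 = a0 + a1 * 2 ^ W + a2 * (2 ^ W) ^ 2 + a3 * (2 ^ W) ^ 3 + a4 * (2 ^ W) ^ 4 +
      a5 * (2 ^ W) ^ 5 + a6 * (2 ^ W) ^ 6 + a7 * (2 ^ W) ^ 7 + a8 * (2 ^ W) ^ 8 := by
    unfold dgs s9
    simp [Finset.sum_range_succ]
  rw [h]
  show a0 + (a1 + (a2 + (a3 + (a4 + (a5 + (a6 + (a7 + a8 * 2 ^ W) * 2 ^ W) * 2 ^ W) * 2 ^ W) * 2 ^ W) * 2 ^ W) * 2 ^ W) * 2 ^ W = _
  ring

/-- the row sums -/
def RRn (ρ : ℕ → ℕ) (k : ℕ) : ℕ :=
  if k = 0 then ρ 0 + (ρ 3 + ρ 4 + (ρ 5 + ρ 6)) else if k = 1 then ρ 1 + (ρ 3 + ρ 4 + (ρ 7 + ρ 8))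
  else if k = 2 then ρ 2 + (ρ 5 + ρ 6 + (ρ 7 + ρ 8)) else 0

theorem land_msk {ρ m : ℕ → ℕ} (hρ : ∀ k, ρ k < 2 ^ 128) (hm : ∀ k, m k = 0 ∨ m k = 2 ^ 128 - 1) :
    Nat.land (dgs 128 ρ 9) (dgs 128 m 9) = dgs 128 (fun k => if m k = 0 then 0 else ρ k) 9 := by
  show dgs 128 ρ 9 &&& dgs 128 m 9 = _
  rw [dgs_and hρ (fun k => by rcases hm k with h | h <;> rw [h] <;> norm_num)]
  refine dgs_congr fun k _ => ?_
  beta_reduce
  rcases hm k with h | h
  · rw [h]
    simp
  · rw [h, Nat.and_two_pow_sub_one_eq_mod, Nat.mod_eq_of_lt (hρ k), if_neg (by norm_num)]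

theorem red_eq {ρ : ℕ → ℕ} (h : ∑ k ∈ Finset.range 9, ρ k < 2 ^ 127) : red (dgs 128 ρ 9) = dgs 128 (RRn ρ) 9 := by
  set σ : ℕ → ℕ := fun k => if k < 9 then ρ k else 0 with hσ
  have h0 : dgs 128 ρ 9 = dgs 128 σ 9 := dgs_congr fun i hi => by rw [hσ]; simp [hi]
  have hs : ∀ k, σ k < 2 ^ 127 := by
    intro k
    by_cases hk : k < 9
    · have h1 : σ k = ρ k := by rw [hσ]; simp [hk]
      rw [h1]
      exact lt_of_le_of_lt (Finset.single_le_sum (f := fun k => ρ k) (fun _ _ => Nat.zero_le _) (Finset.mem_range.mpr hk)) h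
    · have h1 : σ k = 0 := by rw [hσ]; simp [hk]
      rw [h1]
      positivity
  have hs' : ∀ k, σ k < 2 ^ 128 := fun k => (hs k).trans (by norm_num)
  have hsum : ∑ k ∈ Finset.range 9, σ k < 2 ^ 127 := by
    have : ∑ k ∈ Finset.range 9, σ k = ∑ k ∈ Finset.range 9, ρ k := Finset.sum_congr rfl fun k hk => by
      rw [hσ]
      simp [Finset.mem_range.mp hk]
    rw [this]
    exact h
  have key : ∀ m : ℕ → ℕ, (∀ k, m k = 0 ∨ m k = 2 ^ 128 - 1) →
      Nat.mod (Nat.land (dgs 128 σ 9) (dgs 128 m 9)) D1 = ∑ k ∈ Finset.range 9, (if m k = 0 then 0 else σ k) := by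
    intro m hm
    rw [land_msk hs' hm, D1_eq]
    refine dgs_sum (lt_of_le_of_lt (Finset.sum_le_sum fun k _ => ?_) (hsum.trans (by norm_num)))
    split
    · exact Nat.zero_le _
    · exact le_rfl
  have s9c : ∀ (a0 a1 a2 a3 a4 a5 a6 a7 a8 : ℕ), (∀ a ∈ [a0, a1, a2, a3, a4, a5, a6, a7, a8], a = 0 ∨ a = 2 ^ 128 - 1) →
      ∀ k, s9 0 a0 a1 a2 a3 a4 a5 a6 a7 a8 k = 0 ∨ s9 0 a0 a1 a2 a3 a4 a5 a6 a7 a8 k = 2 ^ 128 - 1 := by
    intro a0 a1 a2 a3 a4 a5 a6 a7 a8 ha k
    unfold s9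
    repeat' split
    all_goals first | exact Or.inl rfl | exact ha _ (by simp)
  have z1 : (2 : ℕ) ^ 128 - 1 ≠ 0 := by norm_num
  have k0 := key _ (s9c (2 ^ 128 - 1) 0 0 (2 ^ 128 - 1) (2 ^ 128 - 1) (2 ^ 128 - 1) (2 ^ 128 - 1) 0 0 (by simp))
  have k1 := key _ (s9c 0 (2 ^ 128 - 1) 0 (2 ^ 128 - 1) (2 ^ 128 - 1) 0 0 (2 ^ 128 - 1) (2 ^ 128 - 1) (by simp))
  have k2 := key _ (s9c 0 0 (2 ^ 128 - 1) 0 0 (2 ^ 128 - 1) (2 ^ 128 - 1) (2 ^ 128 - 1) (2 ^ 128 - 1) (by simp))
  rw [← pk9_eq] at k0 k1 k2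
  unfold red mk0 mk1 mk2
  rw [h0, D1_eq]
  rw [D1_eq] at k0 k1 k2
  rw [k0, k1, k2, shl_eq, shl_eq]
  simp only [Finset.sum_range_succ, Finset.sum_range_zero, s9]
  have e0 : ∀ k, k < 9 → σ k = ρ k := fun k hk => by rw [hσ]; simp [hk]
  simp only [e0 0 (by norm_num), e0 1 (by norm_num), e0 2 (by norm_num), e0 3 (by norm_num), e0 4 (by norm_num), e0 5 (by norm_num),
    e0 6 (by norm_num), e0 7 (by norm_num), e0 8 (by norm_num)]
  have h9 : dgs 128 (RRn ρ) 9 = (ρ 0 + (ρ 3 + ρ 4 + (ρ 5 + ρ 6))) + (ρ 1 + (ρ 3 + ρ 4 + (ρ 7 + ρ 8))) * 2 ^ 128 +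
      (ρ 2 + (ρ 5 + ρ 6 + (ρ 7 + ρ 8))) * (2 ^ 128) ^ 2 := by
    unfold dgs RRn
    simp [Finset.sum_range_succ]
  rw [h9]
  norm_num
  ring

/-! ### Nodes -/

/-- `N` = the digits of `n` blocks, with offsets. -/
structure Nd (n : ℕ) (c : ℕ → ℤ) (N : ℕ) : Prop where
  z : ∀ i, 9 * n ≤ i → c i = 0
  nb : na c (9 * n) ≤ 2 ^ 126
  eq : N = dgs 128 (od c) (9 * n)

theorem Nd.le {n : ℕ} {c : ℕ → ℤ} {N : ℕ} (h : Nd n c N) (i : ℕ) : (c i).natAbs ≤ 2 ^ 126 := (le_na h.z i).trans h.nb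

theorem Nd.lt {n : ℕ} {c : ℕ → ℤ} {N : ℕ} (h : Nd n c N) (i : ℕ) : (c i).natAbs < 2 ^ 127 :=
  lt_of_le_of_lt (h.le i) (by norm_num)

theorem low_eq {a n : ℕ} {c : ℕ → ℤ} (hc : ∀ i, (c i).natAbs < 2 ^ 127) (ha : a ≤ n) :
    Nat.land (dgs 128 (od c) (9 * n)) (Nat.sub (Bp a) (nat_lit 1)) = dgs 128 (od c) (9 * a) := by
  have e : Nat.sub (Bp a) (nat_lit 1) = 2 ^ (1152 * a) - 1 := rfl
  rw [e, land_mod]
  have h1 := dgs_low (w := 128) (fun i => od_lt (hc i)) (j := 9 * a) (n := 9 * n) (by omega)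
  have e2 : 128 * (9 * a) = 1152 * a := by ring
  rwa [e2] at h1

theorem up_eq {a n : ℕ} {c : ℕ → ℤ} (hc : ∀ i, (c i).natAbs < 2 ^ 127) (ha : a ≤ n) :
    Nat.shiftRight (dgs 128 (od c) (9 * n)) (Nat.mul (nat_lit 1152) a) = dgs 128 (od fun i => c (i + 9 * a)) (9 * (n - a)) := by
  rw [shr_eq]
  have h1 := dgs_shift (w := 128) (fun i => od_lt (hc i)) (j := 9 * a) (n := 9 * n) (by omega)
  have e2 : 128 * (9 * a) = Nat.mul (nat_lit 1152) a := by
    show _ = 1152 * a
    ring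
  have e3 : 9 * n - 9 * a = 9 * (n - a) := by omega
  rw [e2, e3] at h1
  rw [h1]
  rfl

/-- coefficients of the children -/
def cp (a : ℕ) (c : ℕ → ℤ) (i : ℕ) : ℤ := if i < 9 * a then c i + c (i + 9 * a) else 0
def cm (a : ℕ) (c : ℕ → ℤ) (i : ℕ) : ℤ := if i < 9 * a then c i - c (i + 9 * a) else 0

theorem na_split (c : ℕ → ℤ) (a b : ℕ) : na c (a + b) = na c a + na (fun i => c (i + a)) b := by
  unfold na
  rw [Finset.sum_range_add]
  congr 1
  exact Finset.sum_congr rfl fun i _ => by rw [add_comm]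

theorem na_ext {c : ℕ → ℤ} {a b : ℕ} (h : a ≤ b) (hz : ∀ i, a ≤ i → c i = 0) : na c b = na c a := by
  obtain ⟨m, rfl⟩ : ∃ m, b = a + m := ⟨b - a, by omega⟩
  rw [na_split]
  have : na (fun i => c (i + a)) m = 0 := Finset.sum_eq_zero fun i _ => by beta_reduce; rw [hz (i + a) (by omega)]; rfl
  rw [this, add_zero]

theorem na_cpm {a d : ℕ} (hd : d ≤ a) {c : ℕ → ℤ} (hz : ∀ i, 9 * (a + d) ≤ i → c i = 0) (s : ℤ) (hs : s = 1 ∨ s = -1)
    (e : ℕ → ℤ) (he : ∀ i, i < 9 * a → e i = c i + s * c (i + 9 * a)) : na e (9 * a) ≤ na c (9 * (a + d)) := by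
  have h1 : na e (9 * a) ≤ na c (9 * a) + na (fun i => c (i + 9 * a)) (9 * a) := by
    unfold na
    rw [← Finset.sum_add_distrib]
    refine Finset.sum_le_sum fun i hi => ?_
    rw [he i (Finset.mem_range.mp hi)]
    refine (Int.natAbs_add_le _ _).trans (Nat.add_le_add_left ?_ _)
    rcases hs with h | h <;> rw [h] <;> simp
  have h2 : na c (9 * a + 9 * a) = na c (9 * (a + d)) := na_ext (by omega) hz
  rw [na_split] at h2
  omega

theorem zg_pad {f : ℕ → ℤ} {a b : ℕ} (h : a ≤ b) : zg f a = zg (fun i => if i < a then f i else 0) b := by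
  unfold zg
  obtain ⟨m, rfl⟩ : ∃ m, b = a + m := ⟨b - a, by omega⟩
  rw [Finset.sum_range_add]
  have h1 : ∑ i ∈ Finset.range m, (if a + i < a then f (a + i) else 0) * (2 ^ 128) ^ (a + i) = 0 :=
    Finset.sum_eq_zero fun i _ => by rw [if_neg (by omega), zero_mul]
  rw [h1, add_zero]
  exact Finset.sum_congr rfl fun i hi => by beta_reduce; rw [if_pos (Finset.mem_range.mp hi)]

theorem Nd.chp {a d : ℕ} (hd : d ≤ a) {c : ℕ → ℤ} {N : ℕ} (h : Nd (a + d) c N) : Nd a (cp a c) (Kd.chp a d N) := by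
  have hn : na (cp a c) (9 * a) ≤ 2 ^ 126 :=
    (na_cpm hd h.z 1 (Or.inl rfl) _ fun i hi => by unfold cp; rw [if_pos hi, one_mul]).trans h.nb
  have hz : ∀ i, 9 * a ≤ i → cp a c i = 0 := fun i hi => by unfold cp; rw [if_neg (by omega)]
  have hcp : ∀ i, (cp a c i).natAbs < 2 ^ 127 := fun i => lt_of_le_of_lt ((le_na hz i).trans hn) (by norm_num)
  refine ⟨hz, hn, ?_⟩
  unfold Kd.chp
  rw [h.eq, low_eq h.lt (by omega), up_eq h.lt (by omega), Of_eq]
  have e : a + d - a = d := by omega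
  rw [e]
  have key : dgs 128 (od c) (9 * a) + dgs 128 (od fun i => c (i + 9 * a)) (9 * d) =
      dgs 128 (od (cp a c)) (9 * a) + dgs 128 (fun _ => 2 ^ 127) (9 * d) := by
    have h1 : ((dgs 128 (od c) (9 * a) + dgs 128 (od fun i => c (i + 9 * a)) (9 * d) : ℕ) : ℤ) =
        ((dgs 128 (od (cp a c)) (9 * a) + dgs 128 (fun _ => 2 ^ 127) (9 * d) : ℕ) : ℤ) := by
      rw [Nat.cast_add, Nat.cast_add, dgs_cast, dgs_cast, dgs_cast, dgs_cast, zg_pad (a := 9 * d) (b := 9 * a) (by omega),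
        zg_pad (a := 9 * d) (b := 9 * a) (by omega), ← zg_add, ← zg_add]
      unfold zg
      refine Finset.sum_congr rfl fun i hi => ?_
      rw [Finset.mem_range] at hi
      congr 1
      beta_reduce
      rw [od_cast (h.lt i), od_cast (hcp i)]
      have e1 : cp a c i = c i + c (i + 9 * a) := by unfold cp; rw [if_pos hi]
      rw [e1]
      split
      · rw [od_cast (c := fun i => c (i + 9 * a)) (h.lt _)]
        push_cast
        ring
      · rename_i h2
        rw [h.z (i + 9 * a) (by omega)]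
        ring
    exact_mod_cast h1
  show (dgs 128 (od c) (9 * a) + dgs 128 (od fun i => c (i + 9 * a)) (9 * d)) - dgs 128 (fun _ => 2 ^ 127) (9 * d) = _
  rw [key, Nat.add_sub_cancel]

theorem Nd.chm {a d : ℕ} (hd : d ≤ a) {c : ℕ → ℤ} {N : ℕ} (h : Nd (a + d) c N) : Nd a (cm a c) (Kd.chm a d N) := by
  have hn : na (cm a c) (9 * a) ≤ 2 ^ 126 :=
    (na_cpm hd h.z (-1) (Or.inr rfl) _ fun i hi => by unfold cm; rw [if_pos hi]; ring).trans h.nb
  have hz : ∀ i, 9 * a ≤ i → cm a c i = 0 := fun i hi => by unfold cm; rw [if_neg (by omega)]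
  have hcp : ∀ i, (cm a c i).natAbs < 2 ^ 127 := fun i => lt_of_le_of_lt ((le_na hz i).trans hn) (by norm_num)
  refine ⟨hz, hn, ?_⟩
  unfold Kd.chm
  rw [h.eq, low_eq h.lt (by omega), up_eq h.lt (by omega), Of_eq]
  have e : a + d - a = d := by omega
  rw [e]
  have key : dgs 128 (od c) (9 * a) + dgs 128 (fun _ => 2 ^ 127) (9 * d) =
      dgs 128 (od (cm a c)) (9 * a) + dgs 128 (od fun i => c (i + 9 * a)) (9 * d) := by
    have h1 : ((dgs 128 (od c) (9 * a) + dgs 128 (fun _ => 2 ^ 127) (9 * d) : ℕ) : ℤ) =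
        ((dgs 128 (od (cm a c)) (9 * a) + dgs 128 (od fun i => c (i + 9 * a)) (9 * d) : ℕ) : ℤ) := by
      rw [Nat.cast_add, Nat.cast_add, dgs_cast, dgs_cast, dgs_cast, dgs_cast, zg_pad (a := 9 * d) (b := 9 * a) (by omega),
        zg_pad (f := fun i => ((od (fun i => c (i + 9 * a)) i : ℕ) : ℤ)) (a := 9 * d) (b := 9 * a) (by omega), ← zg_add, ← zg_add]
      unfold zg
      refine Finset.sum_congr rfl fun i hi => ?_
      rw [Finset.mem_range] at hi
      congr 1
      beta_reduce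
      rw [od_cast (h.lt i), od_cast (hcp i)]
      have e1 : cm a c i = c i - c (i + 9 * a) := by unfold cm; rw [if_pos hi]
      rw [e1]
      split
      · rw [od_cast (c := fun i => c (i + 9 * a)) (h.lt _)]
        push_cast
        ring
      · rename_i h2
        rw [h.z (i + 9 * a) (by omega)]
        ring
    exact_mod_cast h1
  show (dgs 128 (od c) (9 * a) + dgs 128 (fun _ => 2 ^ 127) (9 * d)) - dgs 128 (od fun i => c (i + 9 * a)) (9 * d) = _
  rw [key, Nat.add_sub_cancel]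

/-- The norm test of a node. -/
theorem tn_sound {n : ℕ} {c : ℕ → ℤ} {N : ℕ} (h : Nd (n + 1) c N) (ht : tn (n + 1) N = true) (y : ℕ → ℝ) (hy : ∀ i, |y i| ≤ 1)
    (u : Fin 3 → ℂ) : 0 ≤ QF (fun k => (c k : ℝ) + ∑ i ∈ Finset.range n, y i * c (9 * (i + 1) + k)) u := by
  set d : ℕ → ℤ := fun i => c (i + 9) with hd
  have hdlt : ∀ i, (d i).natAbs < 2 ^ 127 := fun i => h.lt _
  have hna : na c (9 * (n + 1)) = na c 9 + na d (9 * n) := by
    have e : 9 * (n + 1) = 9 + 9 * n := by ring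
    rw [e, na_split]
  have hnb := h.nb
  rw [hna] at hnb
  have hdn : na d (9 * n) < 2 ^ 127 := lt_of_le_of_lt (le_trans (Nat.le_add_left _ _) hnb) (by norm_num)
  set ρ : ℕ → ℕ := bs d n with hρ
  have hρs : ∑ k ∈ Finset.range 9, ρ k = na d (9 * n) := (na_group d n).symm
  set w : ℕ → ℤ := fun k => if k < 9 then c k - RRn ρ k else 0 with hw
  have hRR : ∀ k, RRn ρ k ≤ na d (9 * n) := by
    intro k
    rw [← hρs]
    simp only [Finset.sum_range_succ, Finset.sum_range_zero]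
    unfold RRn
    split
    · omega
    split
    · omega
    split
    · omega
    exact Nat.zero_le _
  have hc9 : ∀ k, k < 9 → (c k).natAbs ≤ na c 9 := fun k hk =>
    Finset.single_le_sum (f := fun i => (c i).natAbs) (fun _ _ => Nat.zero_le _) (Finset.mem_range.mpr hk)
  have hwb' : ∀ k, (w k).natAbs ≤ 2 ^ 126 := by
    intro k
    rw [hw]
    beta_reduce
    split
    · rename_i hk
      have h1 := hc9 k hk
      have h2 := hRR k
      have h3 : (c k - (RRn ρ k : ℤ)).natAbs ≤ (c k).natAbs + RRn ρ k := by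
        refine (Int.natAbs_sub_le _ _).trans ?_
        rw [Int.natAbs_natCast]
      omega
    · exact Nat.zero_le _
  have hwb : ∀ k, k < 9 → |w k| ≤ 2 ^ 126 := by
    intro k _
    rw [Int.abs_eq_natAbs]
    exact_mod_cast hwb' k
  have hwl : ∀ k, (w k).natAbs < 2 ^ 127 := fun k => lt_of_le_of_lt (hwb' k) (by norm_num)
  have hN : Nat.sub (bl0 N) (red (smA n (Nat.shiftRight N (nat_lit 1152)))) = dgs 128 (od w) 9 := by
    have h1 : bl0 N = dgs 128 (od c) 9 := by
      unfold bl0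
      rw [h.eq]
      have := low_eq (a := 1) (n := n + 1) h.lt (by omega)
      rwa [mul_one] at this
    have h2 : Nat.shiftRight N (nat_lit 1152) = dgs 128 (od d) (9 * n) := by
      rw [h.eq]
      have := up_eq (a := 1) (n := n + 1) h.lt (by omega)
      have e : n + 1 - 1 = n := by omega
      rw [e, mul_one] at this
      exact this
    have h3 : smA n (dgs 128 (od d) (9 * n)) = dgs 128 ρ 9 := smA_eq hdlt hdn rfl
    have h4 : red (dgs 128 ρ 9) = dgs 128 (RRn ρ) 9 := red_eq (by rw [hρs]; exact hdn)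
    rw [h1, h2, h3, h4]
    have h5 : dgs 128 (od c) 9 = dgs 128 (od w) 9 + dgs 128 (RRn ρ) 9 := by
      unfold dgs
      rw [← Finset.sum_add_distrib]
      refine Finset.sum_congr rfl fun k hk => ?_
      rw [Finset.mem_range] at hk
      rw [← add_mul]
      have e1 := od_cast (h.lt k)
      have e2 := od_cast (hwl k)
      have e3 : w k = c k - RRn ρ k := by rw [hw]; simp [hk]
      have e4 : ((od c k : ℕ) : ℤ) = ((od w k + RRn ρ k : ℕ) : ℤ) := by
        rw [Nat.cast_add, e1, e2, e3]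
        ring
      have e5 : od c k = od w k + RRn ρ k := by exact_mod_cast e4
      rw [e5]
    show dgs 128 (od c) 9 - dgs 128 (RRn ρ) 9 = _
    rw [h5, Nat.add_sub_cancel]
  have hlf : lf (Nat.sub (bl0 N) (red (smA n (Nat.shiftRight N (nat_lit 1152))))) = true := ht
  have h6 := lf_sound hwl hwb hN hlf u
  -- the other part
  set m : Fin 9 → ℝ := fun k => ∑ i ∈ Finset.range n, y i * c (9 * (i + 1) + k) with hm
  have hmr : ∀ k : Fin 9, |m k| ≤ ((ρ k : ℕ) : ℝ) := by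
    intro k
    rw [hm, hρ]
    unfold bs
    push_cast
    refine (Finset.abs_sum_le_sum_abs _ _).trans (Finset.sum_le_sum fun i _ => ?_)
    rw [abs_mul]
    have e1 : c (9 * (i + 1) + k) = d (9 * i + k) := by
      have e0 : 9 * (i + 1) + (k : ℕ) = 9 * i + k + 9 := by ring
      rw [e0]
    rw [e1]
    have e2 : (((d (9 * i + k)).natAbs : ℕ) : ℝ) = |(d (9 * i + k) : ℝ)| := by rw [Nat.cast_natAbs, Int.cast_abs]
    rw [e2]
    exact mul_le_of_le_one_left (abs_nonneg _) (hy i)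
  have h7 := QF_err m (fun k => ((ρ k : ℕ) : ℝ)) hmr (fun k => ((RRn ρ k : ℕ) : ℝ)) (by unfold RRn; push_cast; simp)
    (by unfold RRn; push_cast; simp) (by unfold RRn; push_cast; simp)
    (by
      intro k hk
      have : RRn ρ k = 0 := by
        unfold RRn
        rw [if_neg (by omega), if_neg (by omega), if_neg (by omega)]
      rw [this]
      simp) u
  have h8 := QF_lin (fun k => ((w k : ℤ) : ℝ)) (fun k => m k + ((RRn ρ k : ℕ) : ℝ)) 1 1 u
  have h9 : (fun k : Fin 9 => (1 : ℝ) * ((w k : ℤ) : ℝ) + 1 * (m k + ((RRn ρ k : ℕ) : ℝ))) =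
      fun k : Fin 9 => (c k : ℝ) + ∑ i ∈ Finset.range n, y i * c (9 * (i + 1) + k) := by
    funext k
    have e3 : w k = c k - RRn ρ k := by rw [hw]; simp
    rw [e3]
    push_cast
    ring
  rw [h9] at h8
  rw [h8]
  linarith

theorem lf_node {c : ℕ → ℤ} {N : ℕ} (h : Nd 1 c N) (hf : lf N = true) (u : Fin 3 → ℂ) : 0 ≤ QF (fun k => (c k : ℝ)) u := by
  refine lf_sound h.lt (fun k _ => ?_) (by rw [h.eq, mul_one]) hf u
  rw [Int.abs_eq_natAbs]
  exact_mod_cast h.le k

theorem cp_val {a : ℕ} (c : ℕ → ℤ) {i : ℕ} (h : i < 9 * a) : cp a c i = c i + c (i + 9 * a) := by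
  unfold cp
  rw [if_pos h]

theorem cm_val {a : ℕ} (c : ℕ → ℤ) {i : ℕ} (h : i < 9 * a) : cm a c i = c i - c (i + 9 * a) := by
  unfold cm
  rw [if_pos h]

/-- One variable: `V, A`. -/
theorem nd1_sound {c : ℕ → ℤ} {N : ℕ} (h : Nd 2 c N) (hf : nd1 N = true) {x : ℝ} (hx : |x| ≤ 1) (u : Fin 3 → ℂ) :
    0 ≤ QF (fun k => (c k : ℝ) + x * c (9 + k)) u := by
  unfold nd1 at hf
  cases ht : tn (nat_lit 2) N with
  | true =>
    have h1 := tn_sound (n := 1) h ht (fun _ => x) (fun _ => hx) u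
    have e : (fun k : Fin 9 => (c k : ℝ) + ∑ i ∈ Finset.range 1, x * c (9 * (i + 1) + k)) = fun k : Fin 9 => (c k : ℝ) + x * c (9 + k) := by
      funext k
      simp
    rwa [e] at h1
  | false =>
    rw [ht, cond_false, Bool.and_eq_true] at hf
    have h1 := lf_node (Nd.chp (a := 1) (d := 1) le_rfl h) hf.1 u
    have h2 := lf_node (Nd.chm (a := 1) (d := 1) le_rfl h) hf.2 u
    refine QF_conv hx u h1 h2 fun k => ?_
    have hk := k.isLt
    rw [cp_val c (by omega), cm_val c (by omega)]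
    have e : (k : ℕ) + 9 * 1 = 9 + k := by ring
    rw [e]
    push_cast
    ring

/-- Two variables: `V, A_y, A_x, H_xy`. -/
theorem nd2_sound {c : ℕ → ℤ} {N : ℕ} (h : Nd 4 c N) (hf : nd2 N = true) {x y : ℝ} (hx : |x| ≤ 1) (hy : |y| ≤ 1) (u : Fin 3 → ℂ) :
    0 ≤ QF (fun k => (c k : ℝ) + y * c (9 + k) + x * c (18 + k) + x * y * c (27 + k)) u := by
  unfold nd2 at hf
  cases ht : tn (nat_lit 4) N with
  | true =>
    have h1 := tn_sound (n := 3) h ht (fun i => if i = 0 then y else if i = 1 then x else x * y) (fun i => by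
      beta_reduce
      split
      · exact hy
      split
      · exact hx
      rw [abs_mul]
      exact mul_le_one₀ hx (abs_nonneg _) hy) u
    refine le_of_le_of_eq h1 ?_
    congr 1
    funext k
    simp [Finset.sum_range_succ]
    ring
  | false =>
    rw [ht, cond_false, es_eq, es_eq, Bool.and_eq_true] at hf
    have h1 := nd1_sound (Nd.chp (a := 2) (d := 2) le_rfl h) hf.1 hy u
    have h2 := nd1_sound (Nd.chm (a := 2) (d := 2) le_rfl h) hf.2 hy u
    refine QF_conv hx u h1 h2 fun k => ?_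
    have hk := k.isLt
    rw [cp_val c (by omega), cm_val c (by omega), cp_val c (by omega), cm_val c (by omega)]
    have e1 : (k : ℕ) + 9 * 2 = 18 + k := by ring
    have e2 : 9 + (k : ℕ) + 9 * 2 = 27 + k := by ring
    rw [e1, e2]
    push_cast
    ring

/-- Three variables: `V, A_z, A_y, H_yz, A_x, H_xz, H_xy`. -/
theorem nd3_sound {c : ℕ → ℤ} {N : ℕ} (h : Nd 7 c N) (hf : nd3 N = true) {x y z : ℝ} (hx : |x| ≤ 1) (hy : |y| ≤ 1) (hz : |z| ≤ 1)
    (u : Fin 3 → ℂ) : 0 ≤ QF (fun k => (c k : ℝ) + z * c (9 + k) + y * c (18 + k) + y * z * c (27 + k) + x * c (36 + k) +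
      x * z * c (45 + k) + x * y * c (54 + k)) u := by
  have hm : ∀ {a b : ℝ}, |a| ≤ 1 → |b| ≤ 1 → |a * b| ≤ 1 := fun ha hb => by
    rw [abs_mul]
    exact mul_le_one₀ ha (abs_nonneg _) hb
  unfold nd3 at hf
  cases ht : tn (nat_lit 7) N with
  | true =>
    have h1 := tn_sound (n := 6) h ht (fun i => if i = 0 then z else if i = 1 then y else if i = 2 then y * z else if i = 3 then x
      else if i = 4 then x * z else x * y) (fun i => by
      beta_reduce
      split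
      · exact hz
      split
      · exact hy
      split
      · exact hm hy hz
      split
      · exact hx
      split
      · exact hm hx hz
      exact hm hx hy) u
    refine le_of_le_of_eq h1 ?_
    congr 1
    funext k
    simp [Finset.sum_range_succ]
    ring
  | false =>
    rw [ht, cond_false, es_eq, es_eq, Bool.and_eq_true] at hf
    have h1 := nd2_sound (Nd.chp (a := 4) (d := 3) (by norm_num) h) hf.1 hy hz u
    have h2 := nd2_sound (Nd.chm (a := 4) (d := 3) (by norm_num) h) hf.2 hy hz u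
    refine QF_conv hx u h1 h2 fun k => ?_
    have hk := k.isLt
    have z1 : c (63 + (k : ℕ)) = 0 := h.z _ (by omega)
    rw [cp_val c (by omega), cm_val c (by omega), cp_val c (by omega), cm_val c (by omega), cp_val c (by omega),
      cm_val c (by omega), cp_val c (by omega), cm_val c (by omega)]
    have e1 : (k : ℕ) + 9 * 4 = 36 + k := by ring
    have e2 : 9 + (k : ℕ) + 9 * 4 = 45 + k := by ring
    have e3 : 18 + (k : ℕ) + 9 * 4 = 54 + k := by ring
    have e4 : 27 + (k : ℕ) + 9 * 4 = 63 + k := by ring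
    rw [e1, e2, e3, e4, z1]
    push_cast
    ring

/-- Four variables: `V, A_t, A_z, H_zt, A_y, H_yt, H_yz, A_x, H_xt, H_xz, *, H_xy`. -/
theorem nd4_sound {c : ℕ → ℤ} {N : ℕ} (h : Nd 12 c N) (hf : nd4 N = true) {x y z t : ℝ} (hx : |x| ≤ 1) (hy : |y| ≤ 1) (hz : |z| ≤ 1)
    (ht : |t| ≤ 1) (u : Fin 3 → ℂ) : 0 ≤ QF (fun k => (c k : ℝ) + t * c (9 + k) + z * c (18 + k) + z * t * c (27 + k) + y * c (36 + k) +
      y * t * c (45 + k) + y * z * c (54 + k) + x * c (63 + k) + x * t * c (72 + k) + x * z * c (81 + k) + x * (z * t) * c (90 + k) +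
      x * y * c (99 + k)) u := by
  have hm : ∀ {a b : ℝ}, |a| ≤ 1 → |b| ≤ 1 → |a * b| ≤ 1 := fun ha hb => by
    rw [abs_mul]
    exact mul_le_one₀ ha (abs_nonneg _) hb
  unfold nd4 at hf
  cases hT : tn (nat_lit 12) N with
  | true =>
    have h1 := tn_sound (n := 11) h hT (fun i => if i = 0 then t else if i = 1 then z else if i = 2 then z * t else if i = 3 then y
      else if i = 4 then y * t else if i = 5 then y * z else if i = 6 then x else if i = 7 then x * t else if i = 8 then x * z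
      else if i = 9 then x * (z * t) else x * y) (fun i => by
      beta_reduce
      split
      · exact ht
      split
      · exact hz
      split
      · exact hm hz ht
      split
      · exact hy
      split
      · exact hm hy ht
      split
      · exact hm hy hz
      split
      · exact hx
      split
      · exact hm hx ht
      split
      · exact hm hx hz
      split
      · exact hm hx (hm hz ht)
      exact hm hx hy) u
    refine le_of_le_of_eq h1 ?_
    congr 1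
    funext k
    simp [Finset.sum_range_succ]
    ring
  | false =>
    rw [hT, cond_false, es_eq, es_eq, Bool.and_eq_true] at hf
    have h1 := nd3_sound (Nd.chp (a := 7) (d := 5) (by norm_num) h) hf.1 hy hz ht u
    have h2 := nd3_sound (Nd.chm (a := 7) (d := 5) (by norm_num) h) hf.2 hy hz ht u
    refine QF_conv hx u h1 h2 fun k => ?_
    have hk := k.isLt
    have z1 : c (108 + (k : ℕ)) = 0 := h.z _ (by omega)
    have z2 : c (117 + (k : ℕ)) = 0 := h.z _ (by omega)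
    rw [cp_val c (by omega), cm_val c (by omega), cp_val c (by omega), cm_val c (by omega), cp_val c (by omega),
      cm_val c (by omega), cp_val c (by omega), cm_val c (by omega), cp_val c (by omega), cm_val c (by omega), cp_val c (by omega),
      cm_val c (by omega), cp_val c (by omega), cm_val c (by omega)]
    have e1 : (k : ℕ) + 9 * 7 = 63 + k := by ring
    have e2 : 9 + (k : ℕ) + 9 * 7 = 72 + k := by ring
    have e3 : 18 + (k : ℕ) + 9 * 7 = 81 + k := by ring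
    have e4 : 27 + (k : ℕ) + 9 * 7 = 90 + k := by ring
    have e5 : 36 + (k : ℕ) + 9 * 7 = 99 + k := by ring
    have e6 : 45 + (k : ℕ) + 9 * 7 = 108 + k := by ring
    have e7 : 54 + (k : ℕ) + 9 * 7 = 117 + k := by ring
    rw [e1, e2, e3, e4, e5, e6, e7, z1, z2]
    push_cast
    ring

end Pool.Agent.Work.MP_88b7aa_gt.Kd
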