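import Pool.Agent.Work.MP_88b7aa_gt.Kd.A4

/-!
# Soundness of the second version: packing of matrices
-/

set_option autoImplicit false
set_option exponentiation.threshold 6000

namespace Pool.Agent.Work.MP_88b7aa_gt.Kd

open Pool.Agent.Work.MP_88b7aa_gt.Kc (dgs dgs_succ dgs_lt dgs_and dgs_xor dgs_self dgs_digit dgs_mask dgs_mod xor_abs QF QF_lin QF_err
  QF_conv mul_abs_lt modEq_of_eq)
open Pool.Agent.Work.MP_88b7aa_gt.PQ

seal PP P1 Ph Os

theorem zg_split (c : ℕ → ℤ) (a b : ℕ) : zg c (a + b) = zg c a + zg (fun i => c (i + a)) b * (2 ^ 128) ^ a := by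
  unfold zg
  rw [Finset.sum_range_add, Finset.sum_mul]
  congr 1
  refine Finset.sum_congr rfl fun i _ => ?_
  rw [pow_add, add_comm a i]
  ring

theorem zg_sum {ι : Type} (s : Finset ι) (f : ι → ℕ → ℤ) (n : ℕ) : zg (fun i => ∑ j ∈ s, f j i) n = ∑ j ∈ s, zg (f j) n := by
  unfold zg
  rw [Finset.sum_comm]
  exact Finset.sum_congr rfl fun i _ => by rw [Finset.sum_mul]

theorem zg_congr {c d : ℕ → ℤ} {n : ℕ} (h : ∀ i, i < n → c i = d i) : zg c n = zg d n := by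
  unfold zg
  exact Finset.sum_congr rfl fun i hi => by rw [h i (Finset.mem_range.mp hi)]

/-- the coefficients of an assembled matrix -/
def wf (n k : ℕ) (f d : ℕ → ℤ) (i : ℕ) : ℤ :=
  if i < 9 * n then 2 * f i + (if i < 9 then ∑ j ∈ Finset.range k, d (9 * j + i) else 0) else d (i - 9 * n)

theorem zg_wf {n k : ℕ} (hn : 0 < n) (f d : ℕ → ℤ) : zg (wf n k f d) (9 * (n + k)) =
    2 * zg f (9 * n) + ∑ j ∈ Finset.range k, zg (fun e => d (9 * j + e)) 9 + zg d (9 * k) * 2 ^ (1152 * n) := by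
  have e1 : 9 * (n + k) = 9 * n + 9 * k := by ring
  rw [e1, zg_split]
  have h1 : zg (fun i => wf n k f d (i + 9 * n)) (9 * k) = zg d (9 * k) := zg_congr fun i _ => by
    unfold wf
    rw [if_neg (by omega)]
    congr 1
    omega
  have h2 : zg (wf n k f d) (9 * n) = zg (fun i => 2 * f i + (if i < 9 then ∑ j ∈ Finset.range k, d (9 * j + i) else 0)) (9 * n) :=
    zg_congr fun i hi => by
      unfold wf
      rw [if_pos hi]
  have h3 : zg (fun i => 2 * f i + (if i < 9 then ∑ j ∈ Finset.range k, d (9 * j + i) else 0)) (9 * n) =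
      2 * zg f (9 * n) + zg (fun i => if i < 9 then ∑ j ∈ Finset.range k, d (9 * j + i) else 0) (9 * n) := by
    rw [← zg_smul, ← zg_add]
  have h4 : zg (fun i => if i < 9 then ∑ j ∈ Finset.range k, d (9 * j + i) else 0) (9 * n) =
      ∑ j ∈ Finset.range k, zg (fun e => d (9 * j + e)) 9 := by
    rw [← zg_pad (f := fun i => ∑ j ∈ Finset.range k, d (9 * j + i)) (a := 9) (b := 9 * n) (by omega)]
    exact zg_sum _ (fun j e => d (9 * j + e)) 9
  have h5 : ((2 : ℤ) ^ 128) ^ (9 * n) = 2 ^ (1152 * n) := by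
    rw [← pow_mul]
    congr 1
    ring
  rw [h1, h2, h3, h4, h5]

theorem Of_lt (n : ℕ) : Of n ≤ 2 ^ (1152 * n) := by
  rw [Of_eq]
  have h := dgs_lt (w := 128) (d := fun _ => 2 ^ 127) (fun _ => by norm_num) (9 * n)
  have e : 128 * (9 * n) = 1152 * n := by ring
  rw [e] at h
  exact h.le

theorem zg_od {c : ℕ → ℤ} (hc : ∀ i, (c i).natAbs < 2 ^ 127) (n : ℕ) :
    ((dgs 128 (od c) n : ℕ) : ℤ) = zg c n + ((dgs 128 (fun _ => 2 ^ 127) n : ℕ) : ℤ) := by
  rw [dgs_cast, dgs_cast, ← zg_add]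
  unfold zg
  refine Finset.sum_congr rfl fun i _ => ?_
  beta_reduce
  rw [od_cast (hc i)]
  push_cast
  rfl

/-- The assembled matrix. -/
theorem asm_ok {n k : ℕ} (hn : 0 < n) (hk : k ≤ 4) {f d : ℕ → ℤ} (hf : ∀ i, (f i).natAbs < 2 ^ 127) (hd : ∀ i, (d i).natAbs < 2 ^ 127)
    {F D s : ℕ} (hF : F = dgs 128 (od f) (9 * n)) (hD : D = dgs 128 (od d) (9 * k))
    (hs : s = ∑ j ∈ Finset.range k, dgs 128 (od fun e => d (9 * j + e)) 9) :
    asm n k F D s < 2 ^ (1152 * (n + k)) ∧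
      ((asm n k F D s : ℕ) : ℤ) ≡ zg (wf n k f d) (9 * (n + k)) [ZMOD ((2 ^ (1152 * (n + k)) : ℕ) : ℤ)] := by
  have hA : asm n k F D s = ((F + F + s + D * 2 ^ (1152 * n)) + (2 ^ (1152 * (n + k)) * 8 -
      (Of n + Of n + (k * Of 1 + Of k * 2 ^ (1152 * n))))) % 2 ^ (1152 * (n + k)) := by
    unfold asm
    rw [shl_eq, shl_eq]
    exact land_mod _ _
  rw [hA]
  refine ⟨Nat.mod_lt _ (by positivity), ?_⟩
  refine (modz _ _).trans ?_
  have hp : 2 ^ (1152 * (n + k)) = 2 ^ (1152 * n) * 2 ^ (1152 * k) := by rw [← pow_add]; congr 1; ring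
  have h1 := Of_lt n
  have h2 := Of_lt k
  have h3 := Of_lt 1
  have hBk : 1 ≤ 2 ^ (1152 * k) := Nat.one_le_two_pow
  have hBn : 2 ^ (1152 * 1) ≤ 2 ^ (1152 * n) := Nat.pow_le_pow_right (by norm_num) (by omega)
  have hle : Of n + Of n + (k * Of 1 + Of k * 2 ^ (1152 * n)) ≤ 2 ^ (1152 * (n + k)) * 8 := by
    have g1 : 2 ^ (1152 * n) ≤ 2 ^ (1152 * (n + k)) := Nat.pow_le_pow_right (by norm_num) (by omega)
    have g2 : k * Of 1 ≤ 4 * 2 ^ (1152 * (n + k)) := Nat.mul_le_mul hk (h3.trans (hBn.trans g1))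
    have g3 : Of k * 2 ^ (1152 * n) ≤ 2 ^ (1152 * (n + k)) := by
      rw [hp, mul_comm]
      exact Nat.mul_le_mul_left _ h2
    omega
  rw [Nat.cast_add, Nat.cast_sub hle]
  have z1 : (F : ℤ) = zg f (9 * n) + (Of n : ℤ) := by rw [hF, zg_od hf, Of_eq]
  have z2 : (D : ℤ) = zg d (9 * k) + (Of k : ℤ) := by rw [hD, zg_od hd, Of_eq]
  have z3 : (s : ℤ) = ∑ j ∈ Finset.range k, zg (fun e => d (9 * j + e)) 9 + (k : ℤ) * (Of 1 : ℤ) := by
    rw [hs, Nat.cast_sum]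
    have : ∀ j ∈ Finset.range k, ((dgs 128 (od fun e => d (9 * j + e)) 9 : ℕ) : ℤ) = zg (fun e => d (9 * j + e)) 9 + (Of 1 : ℤ) := by
      intro j _
      rw [zg_od (fun i => hd _), Of_eq]
    rw [Finset.sum_congr rfl this, Finset.sum_add_distrib, Finset.sum_const, Finset.card_range, nsmul_eq_mul]
  rw [zg_wf hn]
  rw [Int.modEq_iff_dvd]
  refine ⟨-8, ?_⟩
  push_cast
  rw [z1, z2, z3]
  ring

end Pool.Agent.Work.MP_88b7aa_gt.Kd
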