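import Pool.Agent.Work.MP_88b7aa_gt.Kd.A5

/-!
# Soundness of the second version: extraction of the blocks, packed matrices
-/

set_option autoImplicit false
set_option exponentiation.threshold 6000

namespace Pool.Agent.Work.MP_88b7aa_gt.Kd

open Pool.Agent.Work.MP_88b7aa_gt.Kc (dgs dgs_succ dgs_lt dgs_and dgs_xor dgs_self dgs_digit dgs_mask dgs_mod xor_abs QF QF_lin QF_err
  QF_conv mul_abs_lt modEq_of_eq)
open Pool.Agent.Work.MP_88b7aa_gt.PQ

seal PP P1 Ph Os

theorem dgs_succ' (w : ℕ) (d : ℕ → ℕ) (n : ℕ) : dgs w d (n + 1) = d 0 + dgs w (fun i => d (i + 1)) n * 2 ^ w := by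
  unfold dgs
  rw [Finset.sum_range_succ', Finset.sum_mul, pow_zero, mul_one, add_comm]
  congr 1
  exact Finset.sum_congr rfl fun i _ => by rw [pow_succ]; ring

theorem dgs_lt' {w : ℕ} {d : ℕ → ℕ} (hd : ∀ i, d i + 1 < 2 ^ w) {n : ℕ} (hn : 0 < n) : dgs w d n + 1 < 2 ^ (w * n) := by
  have h1 := dgs_lt (d := fun i => d i + 1) hd n
  have h2 : dgs w (fun i => d i + 1) n = dgs w d n + dgs w (fun _ => 1) n := by
    unfold dgs
    rw [← Finset.sum_add_distrib]
    exact Finset.sum_congr rfl fun i _ => by ring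
  have h3 : 1 ≤ dgs w (fun _ => 1) n := by
    obtain ⟨m, rfl⟩ : ∃ m, n = m + 1 := ⟨n - 1, by omega⟩
    rw [dgs_succ']
    omega
  omega

theorem dgs_geom (w n : ℕ) : dgs w (fun _ => 1) n * (2 ^ w - 1) = 2 ^ (w * n) - 1 := by
  induction n with
  | zero => simp [dgs]
  | succ n ih =>
    rw [dgs_succ, add_mul, ih]
    have h1 : 0 < 2 ^ (w * n) := by positivity
    have h2 : 2 ^ (w * (n + 1)) = 2 ^ w * 2 ^ (w * n) := by rw [← pow_add]; ring_nf
    rw [h2]
    have h3 : 1 ≤ 2 ^ w := Nat.one_le_two_pow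
    have h4 : 1 ≤ 2 ^ w * 2 ^ (w * n) := Nat.mul_pos h3 h1
    zify [h1, h3, h4]
    ring

theorem msk9_eq {W : ℕ} (hW : 0 < W) : msk9 W = dgs W (fun _ => 1) 9 * (2 ^ 128 - 1) := by
  have h1 := dgs_geom W 9
  have h2 : 0 < 2 ^ W - 1 := by
    have : 2 ≤ 2 ^ W := by
      calc 2 = 2 ^ 1 := by norm_num
        _ ≤ 2 ^ W := Nat.pow_le_pow_right (by norm_num) hW
    omega
  have h3 : (2 ^ (9 * W) - 1) / (2 ^ W - 1) = dgs W (fun _ => 1) 9 := by
    rw [mul_comm 9 W, ← h1]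
    exact Nat.mul_div_cancel _ h2
  unfold msk9
  show D1 * ((2 ^ (9 * W) - 1) / (2 ^ W - 1)) = _
  rw [h3, D1_eq, mul_comm]

/-- the change of the base -/
theorem dgs_base {W : ℕ} (hW : 128 ≤ W) (d : ℕ → ℕ) (n : ℕ) : dgs W d n ≡ dgs 128 d n [MOD 2 ^ (W - 128) - 1] := by
  have h1 : 2 ^ (W - 128) ≡ 1 [MOD 2 ^ (W - 128) - 1] := by
    have h0 : 0 < 2 ^ (W - 128) := by positivity
    have h2 : 2 ^ (W - 128) = 1 + (2 ^ (W - 128) - 1) := by omega
    conv_lhs => rw [h2]
    exact Nat.ModEq.trans (Nat.ModEq.refl 1 |>.add (Nat.modEq_zero_iff_dvd.mpr dvd_rfl)) (by rw [add_zero])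
  have h3 : 2 ^ W ≡ 2 ^ 128 [MOD 2 ^ (W - 128) - 1] := by
    have e0 : W = (W - 128) + 128 := by omega
    have e : 2 ^ W = 2 ^ (W - 128) * 2 ^ 128 := by
      rw [← pow_add, ← e0]
    rw [e]
    have := h1.mul_right (2 ^ 128)
    rwa [one_mul] at this
  induction n with
  | zero => rfl
  | succ n ih =>
    rw [dgs_succ, dgs_succ]
    refine ih.add ?_
    rw [pow_mul, pow_mul]
    exact (h3.pow n).mul_left (d n)

/-- The digit `p` of the nine entries. -/
theorem cpr_eq {W L : ℕ} (hW : 1280 ≤ W) (hL : 128 * L ≤ W) {c : ℕ → ℕ → ℤ} (hc : ∀ e p, (c e p).natAbs ≤ 2 ^ 126) {Y : ℕ}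
    (hY : Y = dgs W (fun e => dgs 128 (od (c e)) L) 9) {p : ℕ} (hp : p < L) : cpr W Y p = dgs 128 (od fun e => c e p) 9 := by
  have hc' : ∀ e p, (c e p).natAbs < 2 ^ 127 := fun e p => lt_of_le_of_lt (hc e p) (by norm_num)
  have hu : ∀ e, (fun e => dgs 128 (od (c e)) L) e < 2 ^ W := fun e =>
    lt_of_lt_of_le (dgs_lt (fun i => od_lt (hc' e i)) L) (Nat.pow_le_pow_right (by norm_num) hL)
  have h1 : Nat.land (Nat.shiftRight Y (Nat.mul (nat_lit 128) p)) (msk9 W) = dgs W (fun e => od (fun e => c e p) e) 9 := by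
    rw [shr_eq, msk9_eq (by omega), hY]
    have h2 := dgs_mask (w := W) (u := fun e => dgs 128 (od (c e)) L) (e := fun _ => 1) hu (fun _ => le_rfl) (j := 128 * p) (t := 128)
      (by omega) 9
    refine Eq.trans h2 (dgs_congr fun e _ => ?_)
    beta_reduce
    rw [one_mul, pow_mul]
    exact dgs_digit (w := 128) (fun i => od_lt (hc' e i)) L p hp
  have h3 : cpr W Y p = dgs W (fun e => od (fun e => c e p) e) 9 % (2 ^ (W - 128) - 1) := by
    unfold cpr
    rw [h1]
    rfl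
  have h4 : dgs W (fun e => od (fun e => c e p) e) 9 % (2 ^ (W - 128) - 1) = dgs 128 (fun e => od (fun e => c e p) e) 9 % (2 ^ (W - 128) - 1) :=
    dgs_base (by omega) _ 9
  have h5 : dgs 128 (fun e => od (fun e => c e p) e) 9 < 2 ^ (W - 128) - 1 := by
    have h6 := dgs_lt' (w := 128) (d := fun e => od (fun e => c e p) e) (n := 9) (fun e => by
      beta_reduce
      have g1 := od_cast (c := fun e => c e p) (hc' e p)
      have g2 := hc e p
      have g3 : |c e p| ≤ 2 ^ 126 := by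
        rw [Int.abs_eq_natAbs]
        exact_mod_cast g2
      have g4 := (abs_le.mp g3).2
      have g5 : ((od (fun e => c e p) e + 1 : ℕ) : ℤ) < 2 ^ 128 := by
        rw [Nat.cast_add, g1]
        push_cast
        linarith
      exact_mod_cast g5) (by norm_num)
    have h7 : 2 ^ (128 * 9) ≤ 2 ^ (W - 128) := Nat.pow_le_pow_right (by norm_num) (by omega)
    omega
  rw [h3, h4, Nat.mod_eq_of_lt h5]

/-! ### Chains of blocks -/

def ch (a : ℕ) : List ℕ → ℕ
  | [] => a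
  | b :: l => hr a (ch b l)

theorem ch_eq (l : List ℕ) : ∀ a, ch a l = dgs 1152 (fun i => (a :: l).getD i 0) (l.length + 1) := by
  induction l with
  | nil =>
    intro a
    simp [ch, dgs]
  | cons b l ih =>
    intro a
    show hr a (ch b l) = dgs 1152 (fun i => (a :: b :: l).getD i 0) (l.length + 1 + 1)
    rw [dgs_succ', ih b]
    unfold hr
    rw [shl_eq]
    rfl

/-- flattening -/
def blk (f : ℕ → ℕ → ℤ) (i : ℕ) : ℤ := f (i / 9) (i % 9)

theorem blk_val (f : ℕ → ℕ → ℤ) (j : ℕ) {e : ℕ} (he : e < 9) : blk f (9 * j + e) = f j e := by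
  unfold blk
  have h1 : (9 * j + e) / 9 = j := by omega
  have h2 : (9 * j + e) % 9 = e := by omega
  rw [h1, h2]

theorem dgs_blk (f : ℕ → ℕ → ℤ) (n : ℕ) : dgs 128 (od (blk f)) (9 * n) = dgs 1152 (fun j => dgs 128 (od (f j)) 9) n := by
  rw [dgs_group]
  refine dgs_congr fun j _ => dgs_congr fun e he => ?_
  unfold od
  rw [blk_val f j he]

theorem ch_blk {c : ℕ → ℕ → ℤ} {C : ℕ → ℕ} (pl : List ℕ) (p0 : ℕ) (rest : List ℕ) (hpl : pl = p0 :: rest)
    (hC : ∀ p ∈ pl, C p = dgs 128 (od fun e => c e p) 9) :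
    ch (C p0) (rest.map C) = dgs 128 (od (blk fun j e => c e (pl.getD j 0))) (9 * pl.length) := by
  subst hpl
  rw [ch_eq, dgs_blk]
  rw [List.length_map, List.length_cons]
  refine dgs_congr fun i hi => ?_
  have h1 : (C p0 :: rest.map C) = (p0 :: rest).map C := rfl
  have h2 : ((p0 :: rest).map C).getD i 0 = C ((p0 :: rest).getD i 0) := by
    have hi' : i < (p0 :: rest).length := by rw [List.length_cons]; exact hi
    rw [List.getD_eq_getElem _ _ (by rw [List.length_map]; exact hi'), List.getD_eq_getElem _ _ hi', List.getElem_map]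
  beta_reduce
  rw [h1, h2]
  refine hC _ ?_
  have hi' : i < (p0 :: rest).length := by rw [List.length_cons]; exact hi
  rw [List.getD_eq_getElem _ _ hi']
  exact List.getElem_mem hi'

/-! ### The four layouts -/

/-- blocks of the layouts -/
def pl1 : List ℕ := [0, 1]
def dl1 : List ℕ := [2]
def pl2 : List ℕ := [0, 4, 3, 7]
def dl2 : List ℕ := [6, 8]
def pl3 : List ℕ := [0, 10, 8, 18, 7, 17, 15]
def dl3 : List ℕ := [14, 16, 20]
def pl4 : List ℕ := [0, 19, 17, 36, 14, 33, 31, 13, 32, 30, 1, 27]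
def dl4 : List ℕ := [26, 28, 34, 38]

/-- the result of the packing -/
def FinR (W L n k : ℕ) (S : Finset ℕ) (pl dl : List ℕ) (fin : ℕ → ℕ) : Prop :=
  ∀ c : ℕ → ℕ → ℤ, (∀ e p, (c e p).natAbs ≤ 2 ^ 126) → (∀ e p, c e p ≠ 0 → p ∈ S) → ∀ Y, Y = dgs W (fun e => dgs 128 (od (c e)) L) 9 →
    ((fin Y : ℕ) : ℤ) ≡ zg (wf n k (blk fun j e => c e (pl.getD j 0)) (blk fun j e => c e (dl.getD j 0))) (9 * (n + k))
      [ZMOD ((2 ^ (1152 * (n + k)) : ℕ) : ℤ)]

theorem asm_lt (n k F D s : ℕ) : asm n k F D s < 2 ^ (1152 * (n + k)) := by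
  unfold asm
  exact lt_of_eq_of_lt (land_mod _ (1152 * (n + k))) (Nat.mod_lt _ (by positivity))

theorem fin_gen {W L n k : ℕ} (hW : 1280 ≤ W) (hL : 128 * L ≤ W) {S : Finset ℕ} {pl dl : List ℕ} (hn : pl.length = n) (hk : dl.length = k)
    (hn0 : 0 < n) (hk4 : k ≤ 4) (hp : ∀ p ∈ pl, p < L) (hd : ∀ p ∈ dl, p < L) {fin : ℕ → ℕ} (p0 : ℕ) (rest : List ℕ)
    (hpl : pl = p0 :: rest) (d0 : ℕ) (rest' : List ℕ) (hdl : dl = d0 :: rest')
    (hfin : ∀ c : ℕ → ℕ → ℤ, (∀ e p, (c e p).natAbs ≤ 2 ^ 126) → (∀ e p, c e p ≠ 0 → p ∈ S) → ∀ Y,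
      Y = dgs W (fun e => dgs 128 (od (c e)) L) 9 →
      fin Y = asm n k (ch (cpr W Y p0) (rest.map (cpr W Y))) (ch (cpr W Y d0) (rest'.map (cpr W Y))) (dl.map (cpr W Y)).sum) :
    FinR W L n k S pl dl fin := by
  intro c hc hs Y hY
  rw [hfin c hc hs Y hY]
  have hC : ∀ p, p < L → cpr W Y p = dgs 128 (od fun e => c e p) 9 := fun p hp => cpr_eq hW hL hc hY hp
  have h1 := ch_blk (c := c) (C := cpr W Y) pl p0 rest hpl fun p h => hC p (hp p h)
  have h2 := ch_blk (c := c) (C := cpr W Y) dl d0 rest' hdl fun p h => hC p (hd p h)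
  rw [hn] at h1
  rw [hk] at h2
  refine (asm_ok hn0 hk4 (f := blk fun j e => c e (pl.getD j 0)) (d := blk fun j e => c e (dl.getD j 0)) (fun i => ?_) (fun i => ?_) h1 h2 ?_).2
  · unfold blk
    exact lt_of_le_of_lt (hc _ _) (by norm_num)
  · unfold blk
    exact lt_of_le_of_lt (hc _ _) (by norm_num)
  · have h3 : ∀ j ∈ Finset.range k, dgs 128 (od fun e => blk (fun j e => c e (dl.getD j 0)) (9 * j + e)) 9 = cpr W Y (dl.getD j 0) := by
      intro j hj
      rw [Finset.mem_range, ← hk] at hj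
      rw [hC _ (by rw [List.getD_eq_getElem _ _ hj]; exact hd _ (List.getElem_mem hj))]
      refine dgs_congr fun e he => ?_
      unfold od
      beta_reduce
      rw [blk_val _ j he]
    rw [Finset.sum_congr rfl h3, ← hk]
    have h4 : ∀ (l : List ℕ), (l.map (cpr W Y)).sum = ∑ j ∈ Finset.range l.length, cpr W Y (l.getD j 0) := by
      intro l
      induction l with
      | nil => rfl
      | cons a l ih =>
        rw [List.map_cons, List.sum_cons, ih, List.length_cons, Finset.sum_range_succ']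
        rw [add_comm]
        rfl
    exact h4 dl

theorem fin1_ok (S : Finset ℕ) : FinR 1280 3 2 1 S pl1 dl1 fin1 := by
  refine fin_gen (W := 1280) (L := 3) (n := 2) (k := 1) (pl := pl1) (dl := dl1) (fin := fin1) le_rfl (by norm_num) rfl rfl (by norm_num) (by norm_num) (by decide) (by decide) 0 [1] rfl 2 [] rfl ?_
  intro c hc hs Y hY
  unfold fin1 dl1
  simp only [ch, List.map_cons, List.map_nil, List.sum_cons, List.sum_nil, add_zero]

theorem fin2_ok (S : Finset ℕ) : FinR 1280 9 4 2 S pl2 dl2 fin2 := by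
  refine fin_gen (W := 1280) (L := 9) (n := 4) (k := 2) (pl := pl2) (dl := dl2) (fin := fin2) le_rfl (by norm_num) rfl rfl (by norm_num) (by norm_num) (by decide) (by decide) 0 [4, 3, 7] rfl 6 [8] rfl ?_
  intro c hc hs Y hY
  unfold fin2 dl2
  simp only [ch, List.map_cons, List.map_nil, List.sum_cons, List.sum_nil, add_zero]
  rfl

theorem fin3_ok (S : Finset ℕ) : FinR 2688 21 7 3 S pl3 dl3 fin3 := by
  refine fin_gen (W := 2688) (L := 21) (n := 7) (k := 3) (pl := pl3) (dl := dl3) (fin := fin3) (by norm_num) (by norm_num) rfl rfl (by norm_num) (by norm_num) (by decide) (by decide) 0 [10, 8, 18, 7, 17, 15] rfl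
    14 [16, 20] rfl ?_
  intro c hc hs Y hY
  unfold fin3 dl3
  simp only [ch, List.map_cons, List.map_nil, List.sum_cons, List.sum_nil, add_zero]
  rfl

theorem fin4_ok (S : Finset ℕ) (h1 : 1 ∉ S) : FinR 4992 39 12 4 S pl4 dl4 fin4 := by
  refine fin_gen (W := 4992) (L := 39) (n := 12) (k := 4) (pl := pl4) (dl := dl4) (fin := fin4) (by norm_num) (by norm_num) rfl rfl (by norm_num) (by norm_num) (by decide) (by decide) 0
    [19, 17, 36, 14, 33, 31, 13, 32, 30, 1, 27] rfl 26 [28, 34, 38] rfl ?_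
  intro c hc hs Y hY
  have h2 : Of (nat_lit 1) = cpr (nat_lit 4992) Y (nat_lit 1) := by
    have h3 := cpr_eq (W := 4992) (L := 39) (by norm_num) (by norm_num) hc hY (p := 1) (by norm_num)
    refine Eq.trans ?_ h3.symm
    rw [Of_eq]
    refine dgs_congr fun e _ => ?_
    have h4 : c e 1 = 0 := by
      by_contra hn
      exact h1 (hs e 1 hn)
    unfold od
    beta_reduce
    rw [h4, zero_add]
    have e5 : ((2 : ℤ) ^ 127) = ((2 ^ 127 : ℕ) : ℤ) := by norm_num
    rw [e5, Int.toNat_natCast]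
  unfold fin4 dl4
  rw [h2]
  simp only [ch, List.map_cons, List.map_nil, List.sum_cons, List.sum_nil, add_zero]
  have h5 : ∀ a b c d : ℕ, Nat.add (Nat.add a b) (Nat.add c d) = a + (b + (c + d)) := fun a b c d => by
    show a + b + (c + d) = _
    ring
  rw [h5]

end Pool.Agent.Work.MP_88b7aa_gt.Kd
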