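import Pool.Agent.Work.MP_88b7aa_gt.Kd.A6

/-!
# Soundness of the second version: the test
-/

set_option autoImplicit false
set_option exponentiation.threshold 6000

namespace Pool.Agent.Work.MP_88b7aa_gt.Kd

open Pool.Agent.Work.MP_88b7aa_gt.Kc (dgs dgs_succ dgs_lt dgs_and dgs_xor dgs_self dgs_digit dgs_mask dgs_mod xor_abs QF QF_lin QF_err
  QF_conv mul_abs_lt modEq_of_eq)
open Pool.Agent.Work.MP_88b7aa_gt.PQ

seal PP P1 Ph Os

/-- The blocks of a layout. -/
structure LP (L n k : ℕ) (S : Finset ℕ) (μ : ℕ → ℝ) (pl dl : List ℕ) : Prop where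
  n0 : 0 < n
  k4 : k ≤ 4
  pl0 : pl.getD 0 0 = 0
  sum : ∀ F : ℕ → ℝ, (∀ p, p ∉ S → F p = 0) →
    ∑ p ∈ Finset.range L, F p = ∑ j ∈ Finset.range n, F (pl.getD j 0) + ∑ i ∈ Finset.range k, F (dl.getD i 0)
  sq : ∀ i, i < k → 0 ≤ μ (dl.getD i 0)

/-- the digits of the packed matrix with the coefficients `c` -/
def Wc (n k : ℕ) (pl dl : List ℕ) (c : ℕ → ℕ → ℤ) : ℕ → ℤ :=
  wf n k (blk fun j e => c e (pl.getD j 0)) (blk fun j e => c e (dl.getD j 0))

/-- A packed matrix. -/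
structure RP (L n k : ℕ) (S : Finset ℕ) (μ : ℕ → ℝ) (pl dl : List ℕ) (c : ℕ → ℕ → ℤ) (r : ℕ → ℕ) (M : Fin 9 → ℝ) (X : HQ) : Prop where
  sup : ∀ e p, c e p ≠ 0 → p ∈ S
  er : ∀ e : Fin 9, |M e * 2 ^ 48 - pv μ (c e) L| ≤ (r e : ℝ)
  R : X.R = dgs 128 r 9
  t : ∑ e ∈ Finset.range 9, (na (c e) L + r e) ≤ X.t
  lt : X.Y < 2 ^ (1152 * (n + k))
  Y : X.t ≤ 2 ^ 126 → (X.Y : ℤ) ≡ zg (Wc n k pl dl c) (9 * (n + k)) [ZMOD ((2 ^ (1152 * (n + k)) : ℕ) : ℤ)]

/-- The node test is sound. -/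
def NodeOK (n : ℕ) (S : Finset ℕ) (μ : ℕ → ℝ) (pl : List ℕ) (f : ℕ → Bool) : Prop :=
  ∀ (c : ℕ → ℤ) (N : ℕ), Nd n c N → (∀ j, j < n → pl.getD j 0 ∉ S → ∀ e, e < 9 → c (9 * j + e) = 0) → f N = true →
    ∀ u, 0 ≤ QF (fun e : Fin 9 => ∑ j ∈ Finset.range n, μ (pl.getD j 0) * (c (9 * j + e) : ℝ)) u

theorem Wc_low {n k : ℕ} {pl dl : List ℕ} (c : ℕ → ℕ → ℤ) {j e : ℕ} (hj : j < n) (he : e < 9) :
    Wc n k pl dl c (9 * j + e) = 2 * c e (pl.getD j 0) + (if j = 0 then ∑ i ∈ Finset.range k, c e (dl.getD i 0) else 0) := by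
  unfold Wc wf
  rw [if_pos (by omega), blk_val _ j he]
  congr 1
  by_cases h : j = 0
  · rw [if_pos h, if_pos (by omega), h]
    refine Finset.sum_congr rfl fun i _ => ?_
    have e1 : 9 * i + (9 * 0 + e) = 9 * i + e := by ring
    rw [e1, blk_val _ i he]
  · rw [if_neg h, if_neg (by omega)]

theorem Wc_up {n k : ℕ} {pl dl : List ℕ} (c : ℕ → ℕ → ℤ) {i e : ℕ} (he : e < 9) :
    Wc n k pl dl c (9 * i + e + 9 * n) = c e (dl.getD i 0) := by
  unfold Wc wf
  rw [if_neg (by omega)]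
  have e1 : 9 * i + e + 9 * n - 9 * n = 9 * i + e := by omega
  rw [e1, blk_val _ i he]

theorem Wc_lin (n k : ℕ) (pl dl : List ℕ) (a b d : ℤ) (f g h : ℕ → ℕ → ℤ) (i : ℕ) :
    Wc n k pl dl (fun e p => a * f e p + b * g e p + d * h e p) i =
      a * Wc n k pl dl f i + b * Wc n k pl dl g i + d * Wc n k pl dl h i := by
  unfold Wc wf blk
  split
  · split
    · simp only [Finset.sum_add_distrib, ← Finset.mul_sum]
      ring
    · ring
  · ring

/-- the sums of the coefficients -/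
theorem LP.nat {L n k : ℕ} {S : Finset ℕ} {μ : ℕ → ℝ} {pl dl : List ℕ} (h : LP L n k S μ pl dl) {c : ℕ → ℤ} (hc : ∀ p, c p ≠ 0 → p ∈ S) :
    na c L = ∑ j ∈ Finset.range n, (c (pl.getD j 0)).natAbs + ∑ i ∈ Finset.range k, (c (dl.getD i 0)).natAbs := by
  have h1 := h.sum (fun p => ((c p).natAbs : ℝ)) fun p hp => by
    have : c p = 0 := by
      by_contra hn
      exact hp (hc p hn)
    beta_reduce
    rw [this]
    simp
  have h2 : ((na c L : ℕ) : ℝ) = ((∑ j ∈ Finset.range n, (c (pl.getD j 0)).natAbs + ∑ i ∈ Finset.range k, (c (dl.getD i 0)).natAbs : ℕ) : ℝ) := by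
    unfold na
    push_cast
    exact h1
  exact_mod_cast h2

section

variable {L n k : ℕ} {S : Finset ℕ} {μ : ℕ → ℝ} {pl dl : List ℕ}

theorem RP.smul {c : ℕ → ℕ → ℤ} {r : ℕ → ℕ} {M : Fin 9 → ℝ} {X : HQ} (h : RP L n k S μ pl dl c r M X) (a : ℕ) (ha : a * X.t ≤ 2 ^ 126) :
    ((a : ℤ) * (X.Y : ℤ)) ≡ (a : ℤ) * zg (Wc n k pl dl c) (9 * (n + k)) [ZMOD ((2 ^ (1152 * (n + k)) : ℕ) : ℤ)] := by
  rcases Nat.eq_zero_or_pos a with h0 | h0
  · rw [h0]
    simp
  · refine Int.ModEq.mul_left _ (h.Y ?_)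
    exact le_trans (Nat.le_mul_of_pos_left _ h0) ha

theorem RP.ssub {c : ℕ → ℕ → ℤ} {r : ℕ → ℕ} {M : Fin 9 → ℝ} {X : HQ} (h : RP L n k S μ pl dl c r M X) (a : ℕ) (ha : a * X.t ≤ 2 ^ 126) :
    ((a * (2 ^ (1152 * (n + k)) - X.Y) : ℕ) : ℤ) ≡ -(a : ℤ) * zg (Wc n k pl dl c) (9 * (n + k)) [ZMOD ((2 ^ (1152 * (n + k)) : ℕ) : ℤ)] := by
  rw [Nat.cast_mul, Nat.cast_sub h.lt.le]
  have h1 : (a : ℤ) * (((2 ^ (1152 * (n + k)) : ℕ) : ℤ) - (X.Y : ℤ)) ≡ -((a : ℤ) * (X.Y : ℤ)) [ZMOD ((2 ^ (1152 * (n + k)) : ℕ) : ℤ)] := by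
    rw [Int.modEq_iff_dvd]
    exact ⟨-a, by ring⟩
  refine h1.trans ?_
  rw [neg_mul]
  exact (h.smul a ha).neg

theorem sum_RRn (ρ : ℕ → ℕ) : ∑ e ∈ Finset.range 9, RRn ρ e ≤ 2 * ∑ e ∈ Finset.range 9, ρ e := by
  simp only [Finset.sum_range_succ, Finset.sum_range_zero, RRn]
  norm_num
  omega

/-- Soundness of the test of a packed matrix. -/
theorem tq_core (hLP : LP L n k S μ pl dl) (hS0 : 0 ∈ S) (hμ0 : μ 0 = 1) (hμ : ∀ p, |μ p| ≤ 1) {f : ℕ → Bool} (hf : NodeOK n S μ pl f)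
    {w : ℕ → ℕ → ℤ} {ρ' : ℕ → ℕ} {M : Fin 9 → ℝ} {E : ℝ} (hE : 0 < E) (hsup : ∀ e p, w e p ≠ 0 → p ∈ S)
    (her : ∀ e : Fin 9, |M e * E - pv μ (w e) L| ≤ (ρ' e : ℝ)) {τ : ℕ} (hτ : ∑ e ∈ Finset.range 9, (na (w e) L + ρ' e) ≤ τ)
    (h8 : 8 * τ ≤ 2 ^ 127) {N R : ℕ} (hN : N = dgs 128 (od (Wc n k pl dl w)) (9 * (n + k))) (hR : R = dgs 128 ρ' 9)
    (ht : tq2 n k f N R = true) (u : Fin 3 → ℂ) : 0 ≤ QF M u := by
  have e127 : (2 : ℕ) ^ 127 = 8 * 2 ^ 124 := by norm_num
  have hτ' : τ ≤ 2 ^ 124 := by omega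
  have h126 : 4 * τ ≤ 2 ^ 126 := by
    have : (2 : ℕ) ^ 126 = 4 * 2 ^ 124 := by norm_num
    omega
  -- sums of one entry
  set A : ℕ → ℕ := fun e => ∑ j ∈ Finset.range n, (w e (pl.getD j 0)).natAbs with hA
  set D : ℕ → ℕ := fun e => ∑ i ∈ Finset.range k, (w e (dl.getD i 0)).natAbs with hD
  have hAD : ∀ e, na (w e) L = A e + D e := fun e => hLP.nat (hsup e)
  have hsum : ∑ e ∈ Finset.range 9, (A e + D e + ρ' e) ≤ τ := by
    refine le_trans (le_of_eq (Finset.sum_congr rfl fun e _ => ?_)) hτ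
    rw [hAD]
  have hone : ∀ e, e < 9 → A e + D e + ρ' e ≤ τ := fun e he =>
    (Finset.single_le_sum (f := fun e => A e + D e + ρ' e) (fun _ _ => Nat.zero_le _) (Finset.mem_range.mpr he)).trans hsum
  have hwp : ∀ e j, j < n → (w e (pl.getD j 0)).natAbs ≤ A e := fun e j hj =>
    Finset.single_le_sum (f := fun j => (w e (pl.getD j 0)).natAbs) (fun _ _ => Nat.zero_le _) (Finset.mem_range.mpr hj)
  have hwd : ∀ e i, i < k → (w e (dl.getD i 0)).natAbs ≤ D e := fun e i hi =>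
    Finset.single_le_sum (f := fun i => (w e (dl.getD i 0)).natAbs) (fun _ _ => Nat.zero_le _) (Finset.mem_range.mpr hi)
  have hDs : ∀ e, (∑ i ∈ Finset.range k, w e (dl.getD i 0)).natAbs ≤ D e := fun e => Int.natAbs_sum_le _ _
  -- the digits are small
  have hWlow : ∀ j e, j < n → e < 9 → (Wc n k pl dl w (9 * j + e)).natAbs ≤ 2 * (w e (pl.getD j 0)).natAbs + (if j = 0 then D e else 0) := by
    intro j e hj he
    rw [Wc_low w hj he]
    refine (Int.natAbs_add_le _ _).trans (Nat.add_le_add ?_ ?_)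
    · rw [Int.natAbs_mul]
      exact le_rfl
    · split
      · exact hDs e
      · exact le_rfl
  have hWb : ∀ i, i < 9 * (n + k) → (Wc n k pl dl w i).natAbs < 2 ^ 127 := by
    intro i hi
    rcases Nat.lt_or_ge i (9 * n) with h | h
    · have e1 : i = 9 * (i / 9) + i % 9 := by omega
      have h1 := hWlow (i / 9) (i % 9) (by omega) (by omega)
      rw [← e1] at h1
      have h2 := hwp (i % 9) (i / 9) (by omega)
      have h3 := hone (i % 9) (by omega)
      have h4 : (if i / 9 = 0 then D (i % 9) else 0) ≤ D (i % 9) := by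
        split
        · exact le_rfl
        · exact Nat.zero_le _
      have : (2 : ℕ) ^ 124 * 8 = 2 ^ 127 := by norm_num
      have hp : 0 < (2 : ℕ) ^ 124 := by positivity
      omega
    · have e1 : i = 9 * ((i - 9 * n) / 9) + (i - 9 * n) % 9 + 9 * n := by omega
      have h1 := Wc_up (n := n) (k := k) (pl := pl) (dl := dl) w (i := (i - 9 * n) / 9) (e := (i - 9 * n) % 9) (by omega)
      rw [← e1] at h1
      rw [h1]
      have h2 := hwd ((i - 9 * n) % 9) ((i - 9 * n) / 9) (by omega)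
      have h3 := hone ((i - 9 * n) % 9) (by omega)
      have : (2 : ℕ) ^ 124 * 8 = 2 ^ 127 := by norm_num
      have hp : 0 < (2 : ℕ) ^ 124 := by positivity
      omega
  -- cut off the digits above
  set W : ℕ → ℤ := fun i => if i < 9 * (n + k) then Wc n k pl dl w i else 0 with hW
  have hWi : ∀ i, i < 9 * (n + k) → W i = Wc n k pl dl w i := fun i hi => by rw [hW]; beta_reduce; rw [if_pos hi]
  have hWl : ∀ i, (W i).natAbs < 2 ^ 127 := by
    intro i
    by_cases hi : i < 9 * (n + k)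
    · rw [hWi i hi]
      exact hWb i hi
    · rw [hW]
      beta_reduce
      rw [if_neg hi]
      positivity
  have hN' : N = dgs 128 (od W) (9 * (n + k)) := by
    rw [hN]
    refine dgs_congr fun i hi => ?_
    unfold od
    rw [hWi i hi]
  -- the blocks `D`
  set d : ℕ → ℤ := fun i => W (i + 9 * n) with hd
  have hdl : ∀ i, (d i).natAbs < 2 ^ 127 := fun i => hWl _
  have hup : Nat.shiftRight N (Nat.mul (nat_lit 1152) n) = dgs 128 (od d) (9 * k) := by
    rw [hN', up_eq hWl (by omega)]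
    have e1 : n + k - n = k := by omega
    rw [e1]
  have hdv : ∀ i e, i < k → e < 9 → d (9 * i + e) = w e (dl.getD i 0) := by
    intro i e hi he
    rw [hd]
    beta_reduce
    rw [hWi _ (by omega), Wc_up w he]
  have hbs : ∀ e, e < 9 → bs d k e = D e := by
    intro e he
    unfold bs
    refine Finset.sum_congr rfl fun i hi => ?_
    rw [hdv i e (Finset.mem_range.mp hi) he]
  have hnad : na d (9 * k) < 2 ^ 127 := by
    rw [na_group]
    have h1 : ∑ e ∈ Finset.range 9, bs d k e ≤ ∑ e ∈ Finset.range 9, (A e + D e + ρ' e) :=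
      Finset.sum_le_sum fun e he => by
        rw [hbs e (Finset.mem_range.mp he)]
        omega
    have hp : (2 : ℕ) ^ 124 < 2 ^ 127 := by norm_num
    omega
  have hsm : smA k (Nat.shiftRight N (Nat.mul (nat_lit 1152) n)) = dgs 128 D 9 := by
    rw [smA_eq hdl hnad hup]
    exact dgs_congr fun e he => hbs e he
  -- the reduction
  set ρ : ℕ → ℕ := fun e => D e + 2 * ρ' e with hρ
  have hρs : ∑ e ∈ Finset.range 9, ρ e ≤ 2 * τ := by
    have h1 : ∑ e ∈ Finset.range 9, ρ e ≤ 2 * ∑ e ∈ Finset.range 9, (A e + D e + ρ' e) := by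
      rw [Finset.mul_sum]
      refine Finset.sum_le_sum fun e _ => ?_
      rw [hρ]
      beta_reduce
      omega
    omega
  have hred : red (Nat.add (smA k (Nat.shiftRight N (Nat.mul (nat_lit 1152) n))) (Nat.add R R)) = dgs 128 (RRn ρ) 9 := by
    have h1 : Nat.add (smA k (Nat.shiftRight N (Nat.mul (nat_lit 1152) n))) (Nat.add R R) = dgs 128 ρ 9 := by
      rw [hsm, hR]
      show dgs 128 D 9 + (dgs 128 ρ' 9 + dgs 128 ρ' 9) = _
      unfold dgs
      rw [← Finset.sum_add_distrib, ← Finset.sum_add_distrib]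
      refine Finset.sum_congr rfl fun e _ => ?_
      rw [hρ]
      beta_reduce
      ring
    rw [h1]
    refine red_eq (lt_of_le_of_lt hρs ?_)
    have : (2 : ℕ) ^ 124 * 8 = 2 ^ 127 := by norm_num
    have hp : 0 < (2 : ℕ) ^ 124 := by positivity
    omega
  have hRR : ∀ e, RRn ρ e ≤ 2 * τ := by
    intro e
    have h1 := sum_RRn ρ
    rcases Nat.lt_or_ge e 9 with h | h
    · have h2 : RRn ρ e ≤ ∑ e ∈ Finset.range 9, ρ e := by
        simp only [Finset.sum_range_succ, Finset.sum_range_zero]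
        unfold RRn
        split
        · omega
        split
        · omega
        split
        · omega
        exact Nat.zero_le _
      exact h2.trans hρs
    · unfold RRn
      rw [if_neg (by omega), if_neg (by omega), if_neg (by omega)]
      exact Nat.zero_le _
  -- the first node
  set V : ℕ → ℤ := fun i => if i < 9 * n then W i - (if i < 9 then (RRn ρ i : ℤ) else 0) else 0 with hV
  have hVv : ∀ j e, j < n → e < 9 → V (9 * j + e) = 2 * w e (pl.getD j 0) +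
      (if j = 0 then (∑ i ∈ Finset.range k, w e (dl.getD i 0)) - (RRn ρ e : ℤ) else 0) := by
    intro j e hj he
    rw [hV]
    beta_reduce
    rw [if_pos (by omega), hWi _ (by omega), Wc_low w hj he]
    by_cases h : j = 0
    · rw [if_pos h, if_pos h, if_pos (by omega), h]
      have e1 : 9 * 0 + e = e := by ring
      rw [e1]
      ring
    · rw [if_neg h, if_neg h, if_neg (by omega)]
      ring
  have hVz : ∀ i, 9 * n ≤ i → V i = 0 := fun i hi => by rw [hV]; beta_reduce; rw [if_neg (by omega)]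
  have hVn : na V (9 * n) ≤ 2 ^ 126 := by
    rw [na_group]
    have h1 : ∀ e, e < 9 → bs V n e ≤ 2 * A e + (D e + RRn ρ e) := by
      intro e he
      unfold bs
      have h2 : ∀ j ∈ Finset.range n, (V (9 * j + e)).natAbs ≤ 2 * (w e (pl.getD j 0)).natAbs + (if j = 0 then D e + RRn ρ e else 0) := by
        intro j hj
        rw [hVv j e (Finset.mem_range.mp hj) he]
        refine (Int.natAbs_add_le _ _).trans (Nat.add_le_add ?_ ?_)
        · rw [Int.natAbs_mul]
          exact le_rfl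
        · split
          · refine (Int.natAbs_sub_le _ _).trans (Nat.add_le_add (hDs e) ?_)
            rw [Int.natAbs_natCast]
          · exact le_rfl
      refine (Finset.sum_le_sum h2).trans ?_
      rw [Finset.sum_add_distrib, ← Finset.mul_sum]
      have h3 : ∑ j ∈ Finset.range n, (if j = 0 then D e + RRn ρ e else 0) = D e + RRn ρ e := by
        rw [Finset.sum_ite_eq' (Finset.range n) 0 (fun _ => D e + RRn ρ e)]
        rw [if_pos (Finset.mem_range.mpr hLP.n0)]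
      rw [h3]
    have h4 : ∑ e ∈ Finset.range 9, bs V n e ≤ ∑ e ∈ Finset.range 9, (2 * A e + (D e + RRn ρ e)) :=
      Finset.sum_le_sum fun e he => h1 e (Finset.mem_range.mp he)
    have h5 : ∑ e ∈ Finset.range 9, (2 * A e + (D e + RRn ρ e)) = ∑ e ∈ Finset.range 9, (2 * A e + D e) + ∑ e ∈ Finset.range 9, RRn ρ e := by
      rw [← Finset.sum_add_distrib]
      exact Finset.sum_congr rfl fun e _ => by ring
    have h6 := sum_RRn ρ
    have h7 : ∑ e ∈ Finset.range 9, (2 * A e + D e) + 2 * ∑ e ∈ Finset.range 9, ρ e ≤ 4 * ∑ e ∈ Finset.range 9, (A e + D e + ρ' e) := by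
      rw [Finset.mul_sum, Finset.mul_sum, ← Finset.sum_add_distrib]
      refine Finset.sum_le_sum fun e _ => ?_
      rw [hρ]
      beta_reduce
      omega
    omega
  have hVl : ∀ i, (V i).natAbs < 2 ^ 127 := fun i => lt_of_le_of_lt ((le_na hVz i).trans hVn) (by norm_num)
  set N1 := Nat.sub (Nat.land N (Nat.sub (Bp n) (nat_lit 1)))
    (red (Nat.add (smA k (Nat.shiftRight N (Nat.mul (nat_lit 1152) n))) (Nat.add R R))) with hN1
  have hNd : Nd n V N1 := by
    refine ⟨hVz, hVn, ?_⟩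
    rw [hN1, hred, hN', low_eq hWl (by omega)]
    have h5 : dgs 128 (od W) (9 * n) = dgs 128 (od V) (9 * n) + dgs 128 (RRn ρ) 9 := by
      have h6 : ((dgs 128 (od W) (9 * n) : ℕ) : ℤ) = ((dgs 128 (od V) (9 * n) + dgs 128 (RRn ρ) 9 : ℕ) : ℤ) := by
        have hn0 := hLP.n0
        rw [Nat.cast_add, dgs_cast, dgs_cast, dgs_cast, zg_pad (f := fun i => ((RRn ρ i : ℕ) : ℤ)) (a := 9) (b := 9 * n) (by omega),
          ← zg_add]
        refine zg_congr fun i hi => ?_
        beta_reduce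
        rw [od_cast (hWl i), od_cast (hVl i)]
        have e1 : V i = W i - (if i < 9 then (RRn ρ i : ℤ) else 0) := by rw [hV]; beta_reduce; rw [if_pos hi]
        rw [e1]
        ring
      exact_mod_cast h6
    show dgs 128 (od W) (9 * n) - dgs 128 (RRn ρ) 9 = _
    rw [h5, Nat.add_sub_cancel]
  have ht' : f N1 = true := ht
  have hgap : ∀ j, j < n → pl.getD j 0 ∉ S → ∀ e, e < 9 → V (9 * j + e) = 0 := by
    intro j hj hn e he
    rw [hVv j e hj he]
    have h1 : w e (pl.getD j 0) = 0 := by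
      by_contra h2
      exact hn (hsup e _ h2)
    have h2 : j ≠ 0 := by
      intro h3
      rw [h3, hLP.pl0] at hn
      exact hn hS0
    rw [h1, if_neg h2]
    ring
  have h9 := hf V N1 hNd hgap ht' u
  -- the values
  set P : Fin 9 → ℝ := fun e => ∑ j ∈ Finset.range n, μ (pl.getD j 0) * (V (9 * j + e) : ℝ) with hP
  have hPv : ∀ e : Fin 9, P e = 2 * ∑ j ∈ Finset.range n, (w e (pl.getD j 0) : ℝ) * μ (pl.getD j 0) +
      (∑ i ∈ Finset.range k, (w e (dl.getD i 0) : ℝ) - ((RRn ρ e : ℕ) : ℝ)) := by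
    intro e
    rw [hP]
    beta_reduce
    have h1 : ∀ j ∈ Finset.range n, μ (pl.getD j 0) * (V (9 * j + e) : ℝ) = 2 * ((w e (pl.getD j 0) : ℝ) * μ (pl.getD j 0)) +
        (if j = 0 then (∑ i ∈ Finset.range k, (w e (dl.getD i 0) : ℝ) - ((RRn ρ e : ℕ) : ℝ)) else 0) := by
      intro j hj
      rw [hVv j e (Finset.mem_range.mp hj) e.isLt]
      by_cases h : j = 0
      · rw [if_pos h, if_pos h, h, hLP.pl0, hμ0]
        push_cast
        ring
      · rw [if_neg h, if_neg h]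
        push_cast
        ring
    rw [Finset.sum_congr rfl h1, Finset.sum_add_distrib, ← Finset.mul_sum]
    rw [Finset.sum_ite_eq' (Finset.range n) 0 (fun _ => (∑ i ∈ Finset.range k, (w e (dl.getD i 0) : ℝ) - ((RRn ρ e : ℕ) : ℝ)))]
    rw [if_pos (Finset.mem_range.mpr hLP.n0)]
  have hpv : ∀ e : ℕ, pv μ (w e) L = ∑ j ∈ Finset.range n, (w e (pl.getD j 0) : ℝ) * μ (pl.getD j 0) +
      ∑ i ∈ Finset.range k, (w e (dl.getD i 0) : ℝ) * μ (dl.getD i 0) := by
    intro e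
    unfold pv
    refine hLP.sum (fun p => (w e p : ℝ) * μ p) fun p hp => ?_
    have : w e p = 0 := by
      by_contra hn
      exact hp (hsup e p hn)
    beta_reduce
    rw [this]
    simp
  set Er : Fin 9 → ℝ := fun e => 2 * (M e * E - pv μ (w e) L) + ∑ i ∈ Finset.range k, (w e (dl.getD i 0) : ℝ) * (2 * μ (dl.getD i 0) - 1) with hEr
  have hErb : ∀ e : Fin 9, |Er e| ≤ ((ρ e : ℕ) : ℝ) := by
    intro e
    have h1 : ((ρ e : ℕ) : ℝ) = 2 * (ρ' e : ℝ) + ∑ i ∈ Finset.range k, (((w e (dl.getD i 0)).natAbs : ℕ) : ℝ) := by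
      rw [hρ, hD]
      push_cast
      ring
    rw [h1, hEr]
    beta_reduce
    refine (abs_add_le _ _).trans (add_le_add ?_ ?_)
    · rw [abs_mul, abs_of_pos (by norm_num : (0 : ℝ) < 2)]
      exact mul_le_mul_of_nonneg_left (her e) (by norm_num)
    · refine (Finset.abs_sum_le_sum_abs _ _).trans (Finset.sum_le_sum fun i hi => ?_)
      rw [abs_mul]
      have e5 : (((w e (dl.getD i 0)).natAbs : ℕ) : ℝ) = |(w e (dl.getD i 0) : ℝ)| := by rw [Nat.cast_natAbs, Int.cast_abs]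
      rw [e5]
      refine mul_le_of_le_one_right (abs_nonneg _) ?_
      have g1 := hLP.sq i (Finset.mem_range.mp hi)
      have g2 := (abs_le.mp (hμ (dl.getD i 0))).2
      rw [abs_le]
      constructor <;> linarith
  have h10 := QF_err Er (fun k => ((ρ k : ℕ) : ℝ)) hErb (fun k => ((RRn ρ k : ℕ) : ℝ)) (by unfold RRn; push_cast; simp)
    (by unfold RRn; push_cast; simp) (by unfold RRn; push_cast; simp)
    (by
      intro k hk
      have : RRn ρ k = 0 := by
        unfold RRn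
        rw [if_neg (by omega), if_neg (by omega), if_neg (by omega)]
      rw [this]
      simp) u
  have h11 := QF_lin P (fun k => Er k + ((RRn ρ k : ℕ) : ℝ)) 1 1 u
  have h12 := QF_lin M M (2 * E) 0 u
  have h13 : (fun e : Fin 9 => 2 * E * M e + 0 * M e) = fun e => 1 * P e + 1 * (Er e + ((RRn ρ e : ℕ) : ℝ)) := by
    funext e
    rw [hPv e, hEr]
    beta_reduce
    rw [hpv e]
    have h14 : ∑ i ∈ Finset.range k, (w e (dl.getD i 0) : ℝ) * (2 * μ (dl.getD i 0) - 1) =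
        2 * ∑ i ∈ Finset.range k, (w e (dl.getD i 0) : ℝ) * μ (dl.getD i 0) - ∑ i ∈ Finset.range k, (w e (dl.getD i 0) : ℝ) := by
      rw [Finset.mul_sum, ← Finset.sum_sub_distrib]
      exact Finset.sum_congr rfl fun i _ => by ring
    rw [h14]
    ring
  rw [h13, h11] at h12
  have h15 : 0 ≤ 2 * E * QF M u := by linarith
  exact nonneg_of_mul_nonneg_right h15 (by positivity)

end

end Pool.Agent.Work.MP_88b7aa_gt.Kd
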