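import Pool.Agent.Work.MP_88b7aa_gt.Kd.A7
import Pool.Agent.Work.MP_88b7aa_gt.Kc.S6

/-!
# Soundness of the second version: the test for packed matrices, the packing
-/

set_option autoImplicit false
set_option exponentiation.threshold 6000

namespace Pool.Agent.Work.MP_88b7aa_gt.Kd

open Pool.Agent.Work.MP_88b7aa_gt.Kc (dgs dgs_succ dgs_lt dgs_and dgs_xor dgs_self dgs_digit dgs_mask dgs_mod xor_abs QF QF_lin QF_err
  QF_conv mul_abs_lt modEq_of_eq v9 QF_v9)
open Pool.Agent.Work.MP_88b7aa_gt.PQ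

seal PP P1 Ph Os

theorem pv_lin (μ : ℕ → ℝ) (a b d : ℤ) (f g h : ℕ → ℤ) (L : ℕ) :
    pv μ (fun p => a * f p + b * g p + d * h p) L = a * pv μ f L + b * pv μ g L + d * pv μ h L := by
  unfold pv
  rw [Finset.mul_sum, Finset.mul_sum, Finset.mul_sum, ← Finset.sum_add_distrib, ← Finset.sum_add_distrib]
  exact Finset.sum_congr rfl fun i _ => by push_cast; ring

theorem na_lin (a b d : ℤ) (f g h : ℕ → ℤ) (L : ℕ) :
    na (fun p => a * f p + b * g p + d * h p) L ≤ a.natAbs * na f L + b.natAbs * na g L + d.natAbs * na h L := by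
  unfold na
  rw [Finset.mul_sum, Finset.mul_sum, Finset.mul_sum, ← Finset.sum_add_distrib, ← Finset.sum_add_distrib]
  refine Finset.sum_le_sum fun i _ => ?_
  refine (Int.natAbs_add_le _ _).trans (Nat.add_le_add ((Int.natAbs_add_le _ _).trans (Nat.add_le_add ?_ ?_)) ?_)
  · rw [Int.natAbs_mul]
  · rw [Int.natAbs_mul]
  · rw [Int.natAbs_mul]

section

variable {L n k : ℕ} {S : Finset ℕ} {μ : ℕ → ℝ} {pl dl : List ℕ}

theorem Wc_bd (hLP : LP L n k S μ pl dl) {w : ℕ → ℕ → ℤ} (hsup : ∀ e p, w e p ≠ 0 → p ∈ S) {τ : ℕ}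
    (hτ : ∑ e ∈ Finset.range 9, na (w e) L ≤ τ) (h8 : 8 * τ ≤ 2 ^ 127) :
    ∀ i, i < 9 * (n + k) → (Wc n k pl dl w i).natAbs < 2 ^ 127 := by
  have hone : ∀ e, e < 9 → na (w e) L ≤ τ := fun e he =>
    (Finset.single_le_sum (f := fun e => na (w e) L) (fun _ _ => Nat.zero_le _) (Finset.mem_range.mpr he)).trans hτ
  have hnat := fun e => hLP.nat (hsup e)
  have e127 : (2 : ℕ) ^ 127 = 8 * 2 ^ 124 := by norm_num
  have hp : 0 < (2 : ℕ) ^ 124 := by positivity
  intro i hi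
  rcases Nat.lt_or_ge i (9 * n) with h | h
  · have e1 : i = 9 * (i / 9) + i % 9 := by omega
    have h0 : (Wc n k pl dl w (9 * (i / 9) + i % 9)).natAbs ≤ 2 * na (w (i % 9)) L := by
      rw [Wc_low w (by omega : i / 9 < n) (by omega)]
      have h1 : (w (i % 9) (pl.getD (i / 9) 0)).natAbs ≤ ∑ j ∈ Finset.range n, (w (i % 9) (pl.getD j 0)).natAbs :=
        Finset.single_le_sum (f := fun j => (w (i % 9) (pl.getD j 0)).natAbs) (fun _ _ => Nat.zero_le _)
          (Finset.mem_range.mpr (by omega))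
      have h2 : (if i / 9 = 0 then ∑ j ∈ Finset.range k, w (i % 9) (dl.getD j 0) else 0).natAbs ≤
          ∑ j ∈ Finset.range k, (w (i % 9) (dl.getD j 0)).natAbs := by
        split
        · exact Int.natAbs_sum_le _ _
        · exact Nat.zero_le _
      have h3 := Int.natAbs_add_le (2 * w (i % 9) (pl.getD (i / 9) 0)) (if i / 9 = 0 then ∑ j ∈ Finset.range k, w (i % 9) (dl.getD j 0) else 0)
      rw [Int.natAbs_mul] at h3
      have h4 : (2 : ℤ).natAbs = 2 := rfl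
      rw [h4] at h3
      have h5 := hnat (i % 9)
      omega
    rw [← e1] at h0
    have h3 := hone (i % 9) (by omega)
    omega
  · have e1 : i = 9 * ((i - 9 * n) / 9) + (i - 9 * n) % 9 + 9 * n := by omega
    have h1 := Wc_up (n := n) (k := k) (pl := pl) (dl := dl) w (i := (i - 9 * n) / 9) (e := (i - 9 * n) % 9) (by omega)
    rw [← e1] at h1
    rw [h1]
    have h2 : (w ((i - 9 * n) % 9) (dl.getD ((i - 9 * n) / 9) 0)).natAbs ≤ ∑ j ∈ Finset.range k, (w ((i - 9 * n) % 9) (dl.getD j 0)).natAbs :=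
      Finset.single_le_sum (f := fun j => (w ((i - 9 * n) % 9) (dl.getD j 0)).natAbs) (fun _ _ => Nat.zero_le _)
        (Finset.mem_range.mpr (by omega))
    have h5 := hnat ((i - 9 * n) % 9)
    have h3 := hone ((i - 9 * n) % 9) (by omega)
    omega

/-- Soundness of the test. -/
theorem tq1_sound (hLP : LP L n k S μ pl dl) (hS0 : 0 ∈ S) (hμ0 : μ 0 = 1) (hμ : ∀ p, |μ p| ≤ 1) {f : ℕ → Bool}
    (hf : NodeOK n S μ pl f) {ct cx cg : ℕ → ℕ → ℤ} {rt rx rg : ℕ → ℕ} {T X G : Fin 9 → ℝ} {t x g : HQ}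
    (hT : RP L n k S μ pl dl ct rt T t) (hX : RP L n k S μ pl dl cx rx X x) (hG : RP L n k S μ pl dl cg rg G g) (l m : ℕ)
    (ht : tq1 n k f t x g l m = true) (u : Fin 3 → ℂ) :
    0 ≤ QF (fun e => T e - (l : ℝ) / 2 ^ 48 * X e + (m : ℝ) / 2 ^ 48 * G e) u := by
  unfold tq1 at ht
  rw [Bool.and_eq_true, es_eq, es_eq, Nat.ble_eq] at ht
  obtain ⟨h8, ht⟩ := ht
  rw [shl_eq] at h8
  have h8' : 8 * (t.t * 2 ^ 48 + (l * x.t + m * g.t)) ≤ 2 ^ 127 := by
    have h9 : 8 * (t.t * 2 ^ 48 + (l * x.t + m * g.t)) ≤ 2 ^ 127 - 1 := h8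
    omega
  set τ : ℕ := t.t * 2 ^ 48 + (l * x.t + m * g.t) with hτd
  set w : ℕ → ℕ → ℤ := fun e p => (2 ^ 48 : ℤ) * ct e p + (-(l : ℤ)) * cx e p + (m : ℤ) * cg e p with hw
  set ρ' : ℕ → ℕ := fun e => rt e * 2 ^ 48 + (l * rx e + m * rg e) with hρ'
  have hsup : ∀ e p, w e p ≠ 0 → p ∈ S := by
    intro e p h
    by_contra hn
    have h1 : ct e p = 0 := by by_contra h2; exact hn (hT.sup e p h2)
    have h2 : cx e p = 0 := by by_contra h2; exact hn (hX.sup e p h2)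
    have h3 : cg e p = 0 := by by_contra h2; exact hn (hG.sup e p h2)
    apply h
    rw [hw]
    beta_reduce
    rw [h1, h2, h3]
    ring
  have hτ : ∑ e ∈ Finset.range 9, (na (w e) L + ρ' e) ≤ τ := by
    have h1 : ∀ e, na (w e) L + ρ' e ≤ (na (ct e) L + rt e) * 2 ^ 48 + (l * (na (cx e) L + rx e) + m * (na (cg e) L + rg e)) := by
      intro e
      have h2 := na_lin (2 ^ 48 : ℤ) (-(l : ℤ)) (m : ℤ) (ct e) (cx e) (cg e) L
      rw [Int.natAbs_neg, Int.natAbs_natCast, Int.natAbs_natCast] at h2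
      have h3 : ((2 : ℤ) ^ 48).natAbs = 2 ^ 48 := rfl
      rw [h3] at h2
      have h4 : na (w e) L = na (fun p => (2 ^ 48 : ℤ) * ct e p + (-(l : ℤ)) * cx e p + (m : ℤ) * cg e p) L := rfl
      have h5 : ρ' e = rt e * 2 ^ 48 + (l * rx e + m * rg e) := rfl
      rw [h4, h5]
      calc _ ≤ 2 ^ 48 * na (ct e) L + l * na (cx e) L + m * na (cg e) L + (rt e * 2 ^ 48 + (l * rx e + m * rg e)) := Nat.add_le_add_right h2 _
        _ = _ := by ring
    refine (Finset.sum_le_sum fun e _ => h1 e).trans ?_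
    rw [Finset.sum_add_distrib, Finset.sum_add_distrib, ← Finset.sum_mul, ← Finset.mul_sum, ← Finset.mul_sum]
    exact Nat.add_le_add (Nat.mul_le_mul_right _ hT.t) (Nat.add_le_add (Nat.mul_le_mul_left _ hX.t) (Nat.mul_le_mul_left _ hG.t))
  have hb := Wc_bd hLP hsup (τ := τ) ((Finset.sum_le_sum fun e _ => Nat.le_add_right _ _).trans hτ) h8'
  have e127 : (2 : ℕ) ^ 127 = 8 * 2 ^ 124 := by norm_num
  have e126 : (2 : ℕ) ^ 126 = 4 * 2 ^ 124 := by norm_num
  have hτ' : τ ≤ 2 ^ 124 := by omega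
  -- the number
  have hBp : Bp (Nat.add n k) = 2 ^ (1152 * (n + k)) := rfl
  set N := Nat.land (Nat.add (Nat.add (Nat.shiftLeft t.Y (nat_lit 48)) (Nat.mul l (Nat.sub (Bp (Nat.add n k)) x.Y))) (Nat.add (Nat.mul m g.Y)
    (Of (Nat.add n k)))) (Nat.sub (Bp (Nat.add n k)) (nat_lit 1)) with hNd
  have hN : N = dgs 128 (od (Wc n k pl dl w)) (9 * (n + k)) := by
    set W : ℕ → ℤ := fun i => if i < 9 * (n + k) then Wc n k pl dl w i else 0 with hW
    have hWl : ∀ i, (W i).natAbs < 2 ^ 127 := by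
      intro i
      rw [hW]
      beta_reduce
      split
      · rename_i hi
        exact hb i hi
      · positivity
    have h1 : N = ((t.Y * 2 ^ 48 + l * (2 ^ (1152 * (n + k)) - x.Y) + m * g.Y) + dgs 128 (fun _ => 2 ^ 127) (9 * (n + k))) %
        2 ^ (128 * (9 * (n + k))) := by
      have e1 : 128 * (9 * (n + k)) = 1152 * (n + k) := by ring
      rw [hNd, shl_eq, Of_eq, e1]
      refine (land_mod _ (1152 * (n + k))).trans ?_
      have h5 : Nat.add (Nat.add (t.Y * 2 ^ 48) (Nat.mul l (Nat.sub (Bp (Nat.add n k)) x.Y))) (Nat.add (Nat.mul m g.Y)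
          (dgs 128 (fun _ => 2 ^ 127) (9 * Nat.add n k))) =
          t.Y * 2 ^ 48 + l * (2 ^ (1152 * (n + k)) - x.Y) + m * g.Y + dgs 128 (fun _ => 2 ^ 127) (9 * (n + k)) := by
        show t.Y * 2 ^ 48 + l * (2 ^ (1152 * (n + k)) - x.Y) + (m * g.Y + dgs 128 (fun _ => 2 ^ 127) (9 * (n + k))) = _
        rw [← add_assoc]
      exact congrArg (fun a => a % 2 ^ (1152 * (n + k))) h5
    rw [h1, recov (c := W) hWl]
    · refine dgs_congr fun i hi => ?_
      unfold od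
      rw [hW]
      beta_reduce
      rw [if_pos hi]
    · have e1 : 128 * (9 * (n + k)) = 1152 * (n + k) := by ring
      rw [e1]
      have z1 : zg W (9 * (n + k)) = 2 ^ 48 * zg (Wc n k pl dl ct) (9 * (n + k)) + (-(l : ℤ)) * zg (Wc n k pl dl cx) (9 * (n + k)) +
          (m : ℤ) * zg (Wc n k pl dl cg) (9 * (n + k)) := by
        rw [← zg_smul, ← zg_smul, ← zg_smul, ← zg_add, ← zg_add]
        refine zg_congr fun i hi => ?_
        rw [hW]
        beta_reduce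
        rw [if_pos hi, hw]
        exact Wc_lin n k pl dl _ _ _ ct cx cg i
      rw [z1, Nat.cast_add, Nat.cast_add]
      have h24 : τ ≤ 2 ^ 126 := hτ'.trans (by rw [e126]; exact Nat.le_mul_of_pos_left _ (by norm_num))
      have a1 : 2 ^ 48 * t.t ≤ 2 ^ 126 := by
        have h1 : t.t * 2 ^ 48 ≤ τ := Nat.le_add_right _ _
        exact (le_of_eq (Nat.mul_comm _ _)).trans (h1.trans h24)
      have a2 : l * x.t ≤ 2 ^ 126 := ((Nat.le_add_right _ _).trans (Nat.le_add_left (l * x.t + m * g.t) (t.t * 2 ^ 48))).trans h24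
      have a3 : m * g.t ≤ 2 ^ 126 := ((Nat.le_add_left _ _).trans (Nat.le_add_left (l * x.t + m * g.t) (t.t * 2 ^ 48))).trans h24
      have b1 := hT.smul (2 ^ 48) a1
      have b2 := hX.ssub l a2
      have b3 := hG.smul m a3
      refine Int.ModEq.add (Int.ModEq.add ?_ b2) ?_
      · have e3 : ((2 ^ 48 : ℕ) : ℤ) = 2 ^ 48 := by norm_num
        rw [e3] at b1
        rw [Nat.cast_mul, e3, mul_comm (t.Y : ℤ)]
        exact b1
      · rw [Nat.cast_mul]
        exact b3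
  have hR : Nat.add (Nat.shiftLeft t.R (nat_lit 48)) (Nat.add (Nat.mul l x.R) (Nat.mul m g.R)) = dgs 128 ρ' 9 := by
    rw [shl_eq, hT.R, hX.R, hG.R]
    show dgs 128 rt 9 * 2 ^ 48 + (l * dgs 128 rx 9 + m * dgs 128 rg 9) = _
    unfold dgs
    rw [Finset.sum_mul, Finset.mul_sum, Finset.mul_sum, ← Finset.sum_add_distrib, ← Finset.sum_add_distrib]
    refine Finset.sum_congr rfl fun e _ => ?_
    rw [hρ']
    beta_reduce
    ring
  refine tq_core hLP hS0 hμ0 hμ hf (E := 2 ^ 96) (by positivity) hsup (fun e => ?_) hτ h8' hN hR ht u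
  -- the errors
  have e1 : pv μ (w e) L = 2 ^ 48 * pv μ (ct e) L - l * pv μ (cx e) L + m * pv μ (cg e) L := by
    have h1 := pv_lin μ (2 ^ 48 : ℤ) (-(l : ℤ)) (m : ℤ) (ct e) (cx e) (cg e) L
    have h2 : pv μ (w e) L = pv μ (fun p => (2 ^ 48 : ℤ) * ct e p + (-(l : ℤ)) * cx e p + (m : ℤ) * cg e p) L := rfl
    have h3 : (((2 : ℤ) ^ 48 : ℤ) : ℝ) = 2 ^ 48 := by norm_num
    have h4 : ((-(l : ℤ) : ℤ) : ℝ) = -(l : ℝ) := by push_cast; rfl
    have h5 : (((m : ℕ) : ℤ) : ℝ) = (m : ℝ) := Int.cast_natCast m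
    rw [h2, h1, h3, h4, h5]
    ring
  have e2 : (T e - (l : ℝ) / 2 ^ 48 * X e + (m : ℝ) / 2 ^ 48 * G e) * 2 ^ 96 - pv μ (w e) L =
      2 ^ 48 * (T e * 2 ^ 48 - pv μ (ct e) L) - l * (X e * 2 ^ 48 - pv μ (cx e) L) + m * (G e * 2 ^ 48 - pv μ (cg e) L) := by
    rw [e1]
    have e3 : (2 : ℝ) ^ 96 = 2 ^ 48 * 2 ^ 48 := by norm_num
    rw [e3]
    field_simp
    ring
  rw [e2]
  have e4 : ((ρ' e : ℕ) : ℝ) = 2 ^ 48 * (rt e : ℝ) + l * (rx e : ℝ) + m * (rg e : ℝ) := by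
    rw [hρ']
    push_cast
    ring
  rw [e4]
  have hl : (0 : ℝ) ≤ l := Nat.cast_nonneg _
  have hm : (0 : ℝ) ≤ m := Nat.cast_nonneg _
  refine (abs_add_le _ _).trans (add_le_add ((abs_sub _ _).trans (add_le_add ?_ ?_)) ?_)
  · rw [abs_mul, abs_of_pos (by positivity : (0 : ℝ) < 2 ^ 48)]
    exact mul_le_mul_of_nonneg_left (hT.er e) (by positivity)
  · rw [abs_mul, abs_of_nonneg hl]
    exact mul_le_mul_of_nonneg_left (hX.er e) hl
  · rw [abs_mul, abs_of_nonneg hm]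
    exact mul_le_mul_of_nonneg_left (hG.er e) hm

end

/-! ### Constants -/

section

variable {l : Lay} {L t : ℕ} (hl : LOK l L t) {S : Finset ℕ} {μ : ℕ → ℝ} (hS : Sem L t S μ)

include hl hS

theorem isc_val {y : ℝ} {Y : Q2} (h : RepQ L S μ y Y) (hc : isc Y = true) : y = (Y.X : ℝ) / 2 ^ 48 := by
  obtain ⟨c, h⟩ := h
  unfold isc at hc
  rw [Bool.and_eq_true, Bool.and_eq_true, Nat.ble_eq, Nat.ble_eq, Nat.beq_eq] at hc
  obtain ⟨⟨h1, h2⟩, h3⟩ := hc
  have hcb := na_le_b hS h h1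
  have h4 := h.offs hl hcb
  have hL : 0 < L := by have := hS.tL; have := hS.pos; omega
  have h2' : Y.X < 2 ^ 127 := by
    rw [H1_eq] at h2
    have : (2 : ℕ) ^ 127 = (2 ^ 127 - 1) + 1 := by norm_num
    omega
  set g : ℕ → ℕ := fun i => 2 ^ 127 + (if i = 0 then Y.X else 0) with hg
  have hgl : ∀ i, g i < 2 ^ 128 := by
    intro i
    rw [hg]
    beta_reduce
    have e : (2 : ℕ) ^ 128 = 2 * 2 ^ 127 := by norm_num
    split <;> omega
  have h5 : Y.X + dgs 128 (fun _ => 2 ^ 127) L = dgs 128 g L := by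
    obtain ⟨m, rfl⟩ : ∃ m, L = m + 1 := ⟨L - 1, by omega⟩
    rw [dgs_succ', dgs_succ']
    have e1 : g 0 = 2 ^ 127 + Y.X := by rw [hg]; simp
    have e2 : dgs 128 (fun i => g (i + 1)) m = dgs 128 (fun _ => 2 ^ 127) m := dgs_congr fun i _ => by rw [hg]; simp
    rw [e1, e2]
    ring
  have h6 : dgs 128 (od c) L = dgs 128 g L := by
    rw [← h4, land_M1 hl, hl.O]
    show (Y.X + dgs 128 (fun _ => 2 ^ 127) L) % 2 ^ (128 * L) = _
    rw [h5]
    exact Nat.mod_eq_of_lt (dgs_lt hgl L)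
  have h7 : ∀ i, i < L → od c i = g i := by
    intro i hi
    have a1 := dgs_digit (w := 128) (d := od c) (fun i => od_lt (hcb i)) L i hi
    have a2 := dgs_digit (w := 128) (d := g) hgl L i hi
    rw [← a1, ← a2, h6]
  have h8 : ∀ i, i < L → c i = if i = 0 then (Y.X : ℤ) else 0 := by
    intro i hi
    have a1 := od_cast (hcb i)
    rw [h7 i hi, hg] at a1
    beta_reduce at a1
    split
    · rename_i h0
      rw [if_pos h0] at a1
      push_cast at a1
      linarith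
    · rename_i h0
      rw [if_neg h0] at a1
      push_cast at a1
      linarith
  have h9 : pv μ c L = (Y.X : ℝ) := by
    unfold pv
    rw [Finset.sum_eq_single 0]
    · rw [h8 0 hL, hS.zero]
      simp
    · intro i hi h0
      rw [h8 i (Finset.mem_range.mp hi), if_neg h0]
      simp
    · intro hn
      exact absurd (Finset.mem_range.mpr hL) hn
  have h10 := h.er
  have h3' : Y.r = 0 := h3
  rw [h9, h3'] at h10
  have h11 : y * 2 ^ 48 - (Y.X : ℝ) = 0 := abs_nonpos_iff.mp (by simpa using h10)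
  rw [eq_div_iff (by positivity)]
  linarith

end

end Pool.Agent.Work.MP_88b7aa_gt.Kd
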