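import Pool.Agent.Work.MP_88b7aa_gt.Kd.A8

/-!
# Soundness of the second version: the instances of the engine
-/

set_option autoImplicit false
set_option exponentiation.threshold 6000

namespace Pool.Agent.Work.MP_88b7aa_gt.Kd

open Pool.Agent.Work.MP_88b7aa_gt.Kc (dgs dgs_succ dgs_lt dgs_and dgs_xor dgs_self dgs_digit dgs_mask dgs_mod xor_abs QF QF_lin QF_err
  QF_conv mul_abs_lt modEq_of_eq v9 QF_v9)
open Pool.Agent.Work.MP_88b7aa_gt.PQ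

seal PP P1 Ph Os

/-- related packed matrices -/
def RelQ (L n k : ℕ) (S : Finset ℕ) (μ : ℕ → ℝ) (pl dl : List ℕ) (Q : H9 ℝ) (X : HQ) : Prop :=
  ∃ (c : ℕ → ℕ → ℤ) (r : ℕ → ℕ), RP L n k S μ pl dl c r (v9 Q) X

section

variable {l : Lay} {L t : ℕ} (hl : LOK l L t) {S : Finset ℕ} {μ : ℕ → ℝ} (hS : Sem L t S μ)

include hl hS

theorem rq_zero : RQ L S μ (fun _ => 0) 0 Q2.zero := by
  refine ⟨fun i hi => absurd rfl hi, ?_, ?_, ?_, ?_⟩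
  · show 0 < 2 ^ (128 * L)
    positivity
  · show ((0 : ℕ) : ℤ) ≡ _ [ZMOD _]
    have : zg (fun _ => 0) L = 0 := by unfold zg; simp
    rw [this]
    rfl
  · show na (fun _ => 0) L ≤ 0
    unfold na
    simp
  · have e0 : pv μ (fun _ => 0) L = 0 := by unfold pv; simp
    rw [e0]
    show |(0 : ℝ) * 2 ^ 48 - 0| ≤ ((0 : ℕ) : ℝ)
    simp

theorem RelQ_pk {n k : ℕ} {pl dl : List ℕ} {W : ℕ} {fin : ℕ → ℕ} (hfin : FinR W L n k S pl dl fin)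
    (hlt : ∀ Y, fin Y < 2 ^ (1152 * (n + k))) {Q : H9 ℝ} {M : H9 Q2} (h : RH (RepQ L S μ) Q M) :
    RelQ L n k S μ pl dl Q (pkQ l W fin M) := by
  obtain ⟨c0, h0⟩ := h.d0
  obtain ⟨c1, h1⟩ := h.d1
  obtain ⟨c2, h2⟩ := h.d2
  obtain ⟨c3, h3⟩ := h.e01.re
  obtain ⟨c4, h4⟩ := h.e01.im
  obtain ⟨c5, h5⟩ := h.e02.re
  obtain ⟨c6, h6⟩ := h.e02.im
  obtain ⟨c7, h7⟩ := h.e12.re
  obtain ⟨c8, h8⟩ := h.e12.im
  set c : ℕ → ℕ → ℤ := fun e => s9 (fun _ => 0) c0 c1 c2 c3 c4 c5 c6 c7 c8 e with hc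
  set q : ℕ → Q2 := fun e => s9 Q2.zero M.d0 M.d1 M.d2 M.e01.re M.e01.im M.e02.re M.e02.im M.e12.re M.e12.im e with hq
  set m : ℕ → ℝ := fun e => s9 0 Q.d0 Q.d1 Q.d2 Q.e01.re Q.e01.im Q.e02.re Q.e02.im Q.e12.re Q.e12.im e with hm
  have key : ∀ e, RQ L S μ (c e) (m e) (q e) := by
    intro e
    rw [hc, hq, hm]
    unfold s9
    beta_reduce
    split_ifs
    · exact h0
    · exact h1
    · exact h2
    · exact h3
    · exact h4
    · exact h5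
    · exact h6
    · exact h7
    · exact h8
    · exact rq_zero hl hS
  have ht : (pkQ l W fin M).t = ∑ e ∈ Finset.range 9, ((q e).b + (q e).r) := by
    rw [hq]
    simp only [Finset.sum_range_succ, Finset.sum_range_zero, s9]
    simp only [if_true, if_false, OfNat.ofNat_ne_zero, OfNat.ofNat_ne_one, one_ne_zero, Nat.reduceEqDiff]
    show M.d0.b + M.d1.b + (M.d2.b + M.e01.re.b) + (M.e01.im.b + M.e02.re.b + (M.e02.im.b + M.e12.re.b)) +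
      (M.d0.r + M.d1.r + (M.d2.r + M.e01.re.r) + (M.e01.im.r + M.e02.re.r + (M.e02.im.r + M.e12.re.r)) + (M.e12.im.b + M.e12.im.r)) = _
    ring
  have hv : ∀ e : Fin 9, v9 Q e = m e := by
    intro e
    fin_cases e <;> rfl
  refine ⟨c, fun e => (q e).r, ⟨fun e p h => (key e).sup p h, fun e => ?_, ?_, ?_, hlt _, fun hX => ?_⟩⟩
  · rw [hv e]
    exact (key e).er
  · have e1 : (pkQ l W fin M).R = pk9 (nat_lit 128) M.d0.r M.d1.r M.d2.r M.e01.re.r M.e01.im.r M.e02.re.r M.e02.im.r M.e12.re.r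
      M.e12.im.r := by dsimp only [pkQ]
    rw [e1, pk9_eq]
    refine dgs_congr fun e he => ?_
    rw [hq]
    unfold s9
    beta_reduce
    split_ifs <;> rfl
  · rw [ht]
    exact Finset.sum_le_sum fun e _ => Nat.add_le_add_right (key e).nb _
  · rw [ht] at hX
    have hqb : ∀ e, e < 9 → (q e).b ≤ 2 ^ 126 := fun e he => by
      refine le_trans ?_ hX
      exact (Nat.le_add_right _ _).trans (Finset.single_le_sum (f := fun e => (q e).b + (q e).r) (fun _ _ => Nat.zero_le _)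
        (Finset.mem_range.mpr he))
    have hcb : ∀ e p, (c e p).natAbs ≤ 2 ^ 126 := by
      intro e p
      rcases Nat.lt_or_ge e 9 with he | he
      · exact (le_na ((key e).ez hS) p).trans ((key e).nb.trans (hqb e he))
      · have : c e p = 0 := by
          rw [hc]
          unfold s9
          beta_reduce
          rw [if_neg (by omega), if_neg (by omega), if_neg (by omega), if_neg (by omega), if_neg (by omega), if_neg (by omega),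
            if_neg (by omega), if_neg (by omega), if_neg (by omega)]
        rw [this]
        exact Nat.zero_le _
    have hcl : ∀ e p, (c e p).natAbs < 2 ^ 127 := fun e p => lt_of_le_of_lt (hcb e p) (by norm_num)
    refine hfin c hcb (fun e p h => (key e).sup p h) _ ?_
    rw [pk9_eq]
    refine dgs_congr fun e he => ?_
    have h9 : s9 0 (ofs l M.d0.X) (ofs l M.d1.X) (ofs l M.d2.X) (ofs l M.e01.re.X) (ofs l M.e01.im.X) (ofs l M.e02.re.X)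
        (ofs l M.e02.im.X) (ofs l M.e12.re.X) (ofs l M.e12.im.X) e = ofs l (q e).X := by
      rw [hq]
      unfold s9
      beta_reduce
      split_ifs <;> first | rfl | omega
    rw [h9]
    exact (key e).offs hl (hcl e)

end

/-! ### The monomials -/

/-- the monomial with the exponents `e` -/
noncomputable def mo (x : Fin 4 → ℝ) (e : ℕ × ℕ × ℕ × ℕ) : ℝ := x 0 ^ e.1 * x 1 ^ e.2.1 * x 2 ^ e.2.2.1 * x 3 ^ e.2.2.2

theorem mo_le {x : Fin 4 → ℝ} (hx : ∀ i, |x i| ≤ 1) (e : ℕ × ℕ × ℕ × ℕ) : |mo x e| ≤ 1 := by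
  unfold mo
  have h : ∀ i (n : ℕ), |x i ^ n| ≤ 1 := fun i n => by
    rw [abs_pow]
    exact pow_le_one₀ (abs_nonneg _) (hx i)
  rw [abs_mul, abs_mul, abs_mul]
  exact mul_le_one₀ (mul_le_one₀ (mul_le_one₀ (h 0 _) (abs_nonneg _) (h 1 _)) (abs_nonneg _) (h 2 _)) (abs_nonneg _) (h 3 _)

theorem mo_add (x : Fin 4 → ℝ) (e f : ℕ × ℕ × ℕ × ℕ) :
    mo x (e.1 + f.1, e.2.1 + f.2.1, e.2.2.1 + f.2.2.1, e.2.2.2 + f.2.2.2) = mo x e * mo x f := by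
  unfold mo
  simp only [pow_add]
  ring

/-- exponents -/
def exl (l : List (ℕ × ℕ × ℕ × ℕ × ℕ)) (i : ℕ) : ℕ × ℕ × ℕ × ℕ := match l with
  | [] => (0, 0, 0, 0)
  | a :: l => if i = a.1 then a.2 else exl l i

def E1 : List (ℕ × ℕ × ℕ × ℕ × ℕ) := [(1, 1, 0, 0, 0), (2, 2, 0, 0, 0)]
def E2 : List (ℕ × ℕ × ℕ × ℕ × ℕ) := [(3, 1, 0, 0, 0), (4, 0, 1, 0, 0), (6, 2, 0, 0, 0), (7, 1, 1, 0, 0), (8, 0, 2, 0, 0)]
def E3 : List (ℕ × ℕ × ℕ × ℕ × ℕ) := [(7, 1, 0, 0, 0), (8, 0, 1, 0, 0), (10, 0, 0, 1, 0), (14, 2, 0, 0, 0), (15, 1, 1, 0, 0),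
  (16, 0, 2, 0, 0), (17, 1, 0, 1, 0), (18, 0, 1, 1, 0), (20, 0, 0, 2, 0)]
def E4 : List (ℕ × ℕ × ℕ × ℕ × ℕ) := [(13, 1, 0, 0, 0), (14, 0, 1, 0, 0), (17, 0, 0, 1, 0), (19, 0, 0, 0, 1), (26, 2, 0, 0, 0),
  (27, 1, 1, 0, 0), (28, 0, 2, 0, 0), (30, 1, 0, 1, 0), (31, 0, 1, 1, 0), (34, 0, 0, 2, 0), (32, 1, 0, 0, 1), (33, 0, 1, 0, 1),
  (36, 0, 0, 1, 1), (38, 0, 0, 0, 2)]

def S1 : Finset ℕ := {0, 1, 2}
def S2 : Finset ℕ := {0, 3, 4, 6, 7, 8}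
def S3 : Finset ℕ := {0, 7, 8, 10, 14, 15, 16, 17, 18, 20}
def S4 : Finset ℕ := {0, 13, 14, 17, 19, 26, 27, 28, 30, 31, 34, 32, 33, 36, 38}

/-- the table is multiplicative -/
def mulT (L t : ℕ) (E : List (ℕ × ℕ × ℕ × ℕ × ℕ)) (S : Finset ℕ) : Prop :=
  0 ∈ S ∧ exl E 0 = (0, 0, 0, 0) ∧ (∀ i ∈ S, i < L) ∧ (∀ i ∈ S, i = 0 ∨ t ≤ i) ∧
  (∀ i ∈ S, ∀ j ∈ S, i + j < L → i + j ∈ S ∧ exl E (i + j) =
    ((exl E i).1 + (exl E j).1, (exl E i).2.1 + (exl E j).2.1, (exl E i).2.2.1 + (exl E j).2.2.1, (exl E i).2.2.2 + (exl E j).2.2.2)) ∧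
  (∀ i ∈ S, ∀ j ∈ S, L ≤ i + j → t ≤ i ∧ t ≤ j ∧ (2 * t ≤ i ∨ 2 * t ≤ j)) ∧ S.card ≤ 15 ∧ 0 < t ∧ 2 * t ≤ L

instance (L t : ℕ) (E : List (ℕ × ℕ × ℕ × ℕ × ℕ)) (S : Finset ℕ) : Decidable (mulT L t E S) := by
  unfold mulT
  infer_instance

theorem mulT1 : mulT 3 1 E1 S1 := by decide +kernel
theorem mulT2 : mulT 9 3 E2 S2 := by decide +kernel
theorem mulT3 : mulT 21 7 E3 S3 := by decide +kernel
theorem mulT4 : mulT 39 13 E4 S4 := by decide +kernel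

theorem Sem_of {L t : ℕ} {E : List (ℕ × ℕ × ℕ × ℕ × ℕ)} {S : Finset ℕ} (h : mulT L t E S) {x : Fin 4 → ℝ} (hx : ∀ i, |x i| ≤ 1) :
    Sem L t S (fun i => mo x (exl E i)) := by
  obtain ⟨h1, h2, h3, h4, h5, h6, h7, h8, h9⟩ := h
  refine ⟨?_, h1, fun i => mo_le hx _, h3, h4, fun i hi j hj hij => ?_, h6, h7, h8, h9⟩
  · beta_reduce
    rw [h2]
    unfold mo
    simp
  · obtain ⟨g1, g2⟩ := h5 i hi j hj hij
    refine ⟨g1, ?_⟩
    beta_reduce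
    rw [g2]
    exact mo_add x _ _

end Pool.Agent.Work.MP_88b7aa_gt.Kd
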