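import Pool.Agent.Work.MP_88b7aa_gt.PQ.Prog
import Pool.Agent.Work.MP_88b7aa_gt.PQ.Lin
import Pool.Agent.Work.MP_88b7aa_gt.Kc.Env

/-!
# Second version of the kernel arithmetic (definitions)

A quadratic Taylor model in `k` variables is one packed number: `v + ∑ a_i b^(t + w_i) + ∑ h_ij b^(2 t + w_i + w_j)`, `b = 2^128`,
modulo `b^L`, scale `2^-48`; `b` = bound for the sum of the absolute values of the coefficients, `r` = remainder.
-/

set_option autoImplicit false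

namespace Pool.Agent.Work.MP_88b7aa_gt.Kd

open Pool.Agent.Work.MP_88b7aa_gt.PQ

/-- forces the evaluation; the continuation gets a literal -/
@[reducible] noncomputable def es {α : Type} (n : Nat) (k : Nat → α) : α :=
  Nat.rec (motive := fun _ => α) (k (nat_lit 0)) (fun m _ => k m) (Nat.succ n)

/-- `2 ^ (128 n)` -/
def bp (n : Nat) : Nat := Nat.pow (nat_lit 2) (Nat.mul (nat_lit 128) n)

/-- `∑_{i<n} x 2^(128 i)` -/
def rp (x n : Nat) : Nat := Nat.div (Nat.mul x (Nat.sub (bp n) (nat_lit 1))) (Nat.sub (bp (nat_lit 1)) (nat_lit 1))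

/-- `2^128 - 1` -/
def D1 : Nat := Nat.sub (bp (nat_lit 1)) (nat_lit 1)
/-- `2^127` -/
def Dh : Nat := Nat.pow (nat_lit 2) (nat_lit 127)
/-- `2^127 - 1` -/
def H1 : Nat := Nat.sub Dh (nat_lit 1)

/-- A layout: modulus `M`, `M - 1`, offsets `O`, `O - I`, ones `I`, mask `K`, `M - O / 2^48`, bit positions of the levels. -/
structure Lay where
  M : Nat
  M1 : Nat
  O : Nat
  OI : Nat
  I : Nat
  K : Nat
  MO : Nat
  s1 : Nat
  s2 : Nat

/-- layout with `L` digits, level `t` -/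
def mkL (L t : Nat) : Lay :=
  ⟨bp L, Nat.sub (bp L) (nat_lit 1), rp Dh L, Nat.sub (rp Dh L) (rp (nat_lit 1) L), rp (nat_lit 1) L,
    rp (Nat.sub (Nat.pow (nat_lit 2) (nat_lit 80)) (nat_lit 1)) L, Nat.sub (bp L) (rp (Nat.pow (nat_lit 2) (nat_lit 79)) L),
    Nat.mul (nat_lit 128) t, Nat.mul (nat_lit 256) t⟩

def lay1 : Lay := mkL (nat_lit 3) (nat_lit 1)
def lay2 : Lay := mkL (nat_lit 9) (nat_lit 3)
def lay3 : Lay := mkL (nat_lit 21) (nat_lit 7)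
def lay4 : Lay := mkL (nat_lit 39) (nat_lit 13)

structure Q2 where
  X : Nat
  b : Nat
  r : Nat

namespace Q2

def zero : Q2 := ⟨nat_lit 0, nat_lit 0, nat_lit 0⟩

def add (l : Lay) (x y : Q2) : Q2 := ⟨Nat.land (Nat.add x.X y.X) l.M1, Nat.add x.b y.b, Nat.add x.r y.r⟩
def sub (l : Lay) (x y : Q2) : Q2 := ⟨Nat.land (Nat.add x.X (Nat.sub l.M y.X)) l.M1, Nat.add x.b y.b, Nat.add x.r y.r⟩
def neg (l : Lay) (x : Q2) : Q2 := ⟨Nat.land (Nat.sub l.M x.X) l.M1, x.b, x.r⟩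

def absB (l : Lay) (N S : Nat) : Nat := Nat.add (Nat.xor N (Nat.add l.OI S)) (Nat.sub l.I S)
def absA (l : Lay) (N : Nat) : Nat := absB l N (Nat.land (Nat.shiftRight N (nat_lit 127)) l.I)
def abs (l : Lay) (X : Nat) : Nat := absA l (Nat.land (Nat.add X l.O) l.M1)

def bad (x y : Q2) : Q2 := ⟨nat_lit 0, nat_lit 0, Nat.succ (Nat.shiftRight (Nat.mul (Nat.add x.b x.r) (Nat.add y.b y.r)) (nat_lit 48))⟩

/-- remainder of the product -/
def rem (n m q r n' m' q' r' : Nat) : Nat :=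
  Nat.add (Nat.shiftRight (Nat.add (Nat.add (Nat.mul m q') (Nat.mul q m')) (Nat.add (Nat.mul n r') (Nat.mul (Nat.add n' r') r))) (nat_lit 48)) (nat_lit 16)

def mulX (l : Lay) (X Y : Nat) : Nat :=
  Nat.land (Nat.add (Nat.land (Nat.shiftRight (Nat.land (Nat.add (Nat.mul X Y) l.O) l.M1) (nat_lit 48)) l.K) l.MO) l.M1

/-- second part: `A`, `B` = digits of the absolute values, `n`, `n'` their sums -/
def mul3 (l : Lay) (x y : Q2) (A B n n' : Nat) : Q2 :=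
  cond (Nat.ble (Nat.mul n n') H1)
    ⟨mulX l x.X y.X, Nat.add (Nat.shiftRight (Nat.mul n n') (nat_lit 48)) (nat_lit 16),
     rem n (Nat.mod (Nat.shiftRight A l.s1) D1) (Nat.mod (Nat.shiftRight A l.s2) D1) x.r
      n' (Nat.mod (Nat.shiftRight B l.s1) D1) (Nat.mod (Nat.shiftRight B l.s2) D1) y.r⟩ (bad x y)

def mul2 (l : Lay) (x y : Q2) (A B : Nat) : Q2 := mul3 l x y A B (Nat.mod A D1) (Nat.mod B D1)

def mul1 (l : Lay) (x y : Q2) : Q2 :=
  cond (and (Nat.ble x.b H1) (Nat.ble y.b H1)) (mul2 l x y (abs l x.X) (abs l y.X)) (bad x y)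

def mul (l : Lay) (x y : Q2) : Q2 :=
  cond (Nat.beq (Nat.add x.b x.r) (nat_lit 0)) zero (cond (Nat.beq (Nat.add y.b y.r) (nat_lit 0)) zero (mul1 l x y))

/-- the constant `z / 2^30` -/
noncomputable def cst (l : Lay) (z : Int) : Q2 :=
  Int.rec (motive := fun _ => Q2) (fun n => ⟨Nat.land (Nat.mul n (nat_lit 262144)) l.M1, Nat.mul n (nat_lit 262144), nat_lit 0⟩)
    (fun n => ⟨Nat.land (Nat.sub l.M (Nat.land (Nat.mul (Nat.succ n) (nat_lit 262144)) l.M1)) l.M1, Nat.mul (Nat.succ n) (nat_lit 262144), nat_lit 0⟩) z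

noncomputable def ek {α : Type} (x : Q2) (k : Q2 → α) : α := es x.X fun X => es x.b fun b => es x.r fun r => k ⟨X, b, r⟩

/-- the test `0 < x`: `N` = digits with offsets -/
def pos1 (l : Lay) (x : Q2) (N : Nat) : Bool :=
  Nat.ble (Nat.add (Nat.add Dh (Nat.mod (Nat.shiftRight (absA l N) l.s1) D1)) (Nat.succ x.r)) (Nat.land N D1)
def pos (l : Lay) (x : Q2) : Bool := cond (Nat.ble x.b H1) (pos1 l x (Nat.land (Nat.add x.X l.O) l.M1)) false

end Q2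

noncomputable def OQ (l : Lay) : Ops Q2 := ⟨Q2.add l, Q2.sub l, Q2.neg l, Q2.mul l, Q2.cst l, fun x => x⟩

/-! ### Packed Hermitian matrices: blocks of nine digits -/

structure HQ where
  Y : Nat
  R : Nat
  t : Nat

/-- pack with the stride `W` -/
def pk9 (W a0 a1 a2 a3 a4 a5 a6 a7 a8 : Nat) : Nat :=
  Nat.add a0 (Nat.shiftLeft (Nat.add a1 (Nat.shiftLeft (Nat.add a2 (Nat.shiftLeft (Nat.add a3 (Nat.shiftLeft (Nat.add a4
    (Nat.shiftLeft (Nat.add a5 (Nat.shiftLeft (Nat.add a6 (Nat.shiftLeft (Nat.add a7 (Nat.shiftLeft a8 W)) W)) W)) W)) W)) W)) W)) W)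

/-- digits with offset -/
def ofs (l : Lay) (X : Nat) : Nat := Nat.land (Nat.add X l.O) l.M1

/-- `∑_{k<9} D1 2^(W k)` -/
def msk9 (W : Nat) : Nat := Nat.mul D1 (Nat.div (Nat.sub (Nat.pow (nat_lit 2) (Nat.mul (nat_lit 9) W)) (nat_lit 1)) (Nat.sub (Nat.pow (nat_lit 2) W) (nat_lit 1)))
def mdW (W : Nat) : Nat := Nat.sub (Nat.pow (nat_lit 2) (Nat.sub W (nat_lit 128))) (nat_lit 1)

/-- the digits number `p` of the nine entries -/
def cpr (W Y p : Nat) : Nat := Nat.mod (Nat.land (Nat.shiftRight Y (Nat.mul (nat_lit 128) p)) (msk9 W)) (mdW W)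

/-- one more block below -/
def hr (u X : Nat) : Nat := Nat.add u (Nat.shiftLeft X (nat_lit 1152))

/-- `2^(1152 n)` -/
def Bp (n : Nat) : Nat := Nat.pow (nat_lit 2) (Nat.mul (nat_lit 1152) n)
/-- `∑_{i<n} O9 B^i` -/
def Of (n : Nat) : Nat := rp Dh (Nat.mul (nat_lit 9) n)

/-- blocks `F` (doubled), `D`; `n` = number of blocks `F`, `k` = number of blocks `D`, `s` = sum of the blocks `D` -/
def asm (n k F D s : Nat) : Nat :=
  Nat.land (Nat.add (Nat.add (Nat.add (Nat.add F F) s) (Nat.shiftLeft D (Nat.mul (nat_lit 1152) n)))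
    (Nat.sub (Nat.mul (Bp (Nat.add n k)) (nat_lit 8)) (Nat.add (Nat.add (Of n) (Of n)) (Nat.add (Nat.mul k (Of (nat_lit 1))) (Nat.shiftLeft (Of k) (Nat.mul (nat_lit 1152) n))))))
    (Nat.sub (Bp (Nat.add n k)) (nat_lit 1))

def fin1 (Y : Nat) : Nat :=
  asm (nat_lit 2) (nat_lit 1)
    (hr (cpr (nat_lit 1280) Y (nat_lit 0)) (cpr (nat_lit 1280) Y (nat_lit 1)))
    (cpr (nat_lit 1280) Y (nat_lit 2)) (cpr (nat_lit 1280) Y (nat_lit 2))

def fin2 (Y : Nat) : Nat :=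
  asm (nat_lit 4) (nat_lit 2)
    (hr (cpr (nat_lit 1280) Y (nat_lit 0)) (hr (cpr (nat_lit 1280) Y (nat_lit 4)) (hr (cpr (nat_lit 1280) Y (nat_lit 3)) (cpr (nat_lit 1280) Y (nat_lit 7)))))
    (hr (cpr (nat_lit 1280) Y (nat_lit 6)) (cpr (nat_lit 1280) Y (nat_lit 8)))
    (Nat.add (cpr (nat_lit 1280) Y (nat_lit 6)) (cpr (nat_lit 1280) Y (nat_lit 8)))

def fin3 (Y : Nat) : Nat :=
  asm (nat_lit 7) (nat_lit 3)
    (hr (cpr (nat_lit 2688) Y (nat_lit 0)) (hr (cpr (nat_lit 2688) Y (nat_lit 10)) (hr (cpr (nat_lit 2688) Y (nat_lit 8)) (hr (cpr (nat_lit 2688) Y (nat_lit 18))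
      (hr (cpr (nat_lit 2688) Y (nat_lit 7)) (hr (cpr (nat_lit 2688) Y (nat_lit 17)) (cpr (nat_lit 2688) Y (nat_lit 15))))))))
    (hr (cpr (nat_lit 2688) Y (nat_lit 14)) (hr (cpr (nat_lit 2688) Y (nat_lit 16)) (cpr (nat_lit 2688) Y (nat_lit 20))))
    (Nat.add (cpr (nat_lit 2688) Y (nat_lit 14)) (Nat.add (cpr (nat_lit 2688) Y (nat_lit 16)) (cpr (nat_lit 2688) Y (nat_lit 20))))

def fin4 (Y : Nat) : Nat :=
  asm (nat_lit 12) (nat_lit 4)
    (hr (cpr (nat_lit 4992) Y (nat_lit 0)) (hr (cpr (nat_lit 4992) Y (nat_lit 19)) (hr (cpr (nat_lit 4992) Y (nat_lit 17)) (hr (cpr (nat_lit 4992) Y (nat_lit 36))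
      (hr (cpr (nat_lit 4992) Y (nat_lit 14)) (hr (cpr (nat_lit 4992) Y (nat_lit 33)) (hr (cpr (nat_lit 4992) Y (nat_lit 31))
      (hr (cpr (nat_lit 4992) Y (nat_lit 13)) (hr (cpr (nat_lit 4992) Y (nat_lit 32)) (hr (cpr (nat_lit 4992) Y (nat_lit 30)) (hr (Of (nat_lit 1)) (cpr (nat_lit 4992) Y (nat_lit 27)))))))))))))
    (hr (cpr (nat_lit 4992) Y (nat_lit 26)) (hr (cpr (nat_lit 4992) Y (nat_lit 28)) (hr (cpr (nat_lit 4992) Y (nat_lit 34)) (cpr (nat_lit 4992) Y (nat_lit 38)))))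
    (Nat.add (Nat.add (cpr (nat_lit 4992) Y (nat_lit 26)) (cpr (nat_lit 4992) Y (nat_lit 28))) (Nat.add (cpr (nat_lit 4992) Y (nat_lit 34)) (cpr (nat_lit 4992) Y (nat_lit 38))))

/-- packing of a Hermitian matrix -/
noncomputable def pkQ (l : Lay) (W : Nat) (f : Nat → Nat) (M : H9 Q2) : HQ :=
  ⟨es (pk9 W (ofs l M.d0.X) (ofs l M.d1.X) (ofs l M.d2.X) (ofs l M.e01.re.X) (ofs l M.e01.im.X) (ofs l M.e02.re.X) (ofs l M.e02.im.X) (ofs l M.e12.re.X) (ofs l M.e12.im.X)) f,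
   pk9 (nat_lit 128) M.d0.r M.d1.r M.d2.r M.e01.re.r M.e01.im.r M.e02.re.r M.e02.im.r M.e12.re.r M.e12.im.r,
   Nat.add (Nat.add (Nat.add (Nat.add M.d0.b M.d1.b) (Nat.add M.d2.b M.e01.re.b)) (Nat.add (Nat.add M.e01.im.b M.e02.re.b) (Nat.add M.e02.im.b M.e12.re.b)))
     (Nat.add (Nat.add (Nat.add (Nat.add M.d0.r M.d1.r) (Nat.add M.d2.r M.e01.re.r)) (Nat.add (Nat.add M.e01.im.r M.e02.re.r) (Nat.add M.e02.im.r M.e12.re.r))) (Nat.add M.e12.im.b M.e12.im.r))⟩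

noncomputable def HQ.ek {α : Type} (x : HQ) (k : HQ → α) : α := es x.Y fun Y => es x.R fun R => es x.t fun t => k ⟨Y, R, t⟩

/-! ### The test -/

/-- `2 ^ 512` etc. -/
def PP : Nat := Nat.pow (nat_lit 2) (nat_lit 512)
def P1 : Nat := Nat.sub PP (nat_lit 1)
def Ph : Nat := Nat.sub (Nat.pow (nat_lit 2) (nat_lit 511)) (nat_lit 1)

def psd2 (A C b1 b2 : Nat) : Bool :=
  and (and (Nat.ble (nat_lit 1) A) (Nat.ble A Ph))
    (Nat.ble (Nat.land (Nat.add (Nat.mul A C) (Nat.mul P1 (Nat.add (Nat.mul b1 b1) (Nat.mul b2 b2)))) P1) Ph)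

def psd (d0 d1 d2 p q r s t w : Nat) : Bool :=
  psd2
    (Nat.land (Nat.add (Nat.mul d0 d1) (Nat.mul P1 (Nat.add (Nat.mul p p) (Nat.mul q q)))) P1)
    (Nat.add (Nat.mul d0 d2) (Nat.mul P1 (Nat.add (Nat.mul r r) (Nat.mul s s))))
    (Nat.add (Nat.mul d0 t) (Nat.mul P1 (Nat.add (Nat.mul p r) (Nat.mul q s))))
    (Nat.add (Nat.add (Nat.mul d0 w) (Nat.mul q r)) (Nat.mul P1 (Nat.mul p s)))

/-- `PP - D/2` -/
def Os : Nat := Nat.sub PP Dh

/-- signed digit modulo `PP` -/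
def sd (N s : Nat) : Nat := Nat.add (Nat.land (Nat.shiftRight N s) D1) Os

/-- the matrix with the nine digits of `N` (offset `Dh`) is semidefinite -/
def lf (N : Nat) : Bool :=
  cond (Nat.ble (Nat.land N D1) Dh) false
  (psd (sd N (nat_lit 0)) (sd N (nat_lit 128)) (sd N (nat_lit 256)) (sd N (nat_lit 384)) (sd N (nat_lit 512))
    (sd N (nat_lit 640)) (sd N (nat_lit 768)) (sd N (nat_lit 896)) (sd N (nat_lit 1024)))

/-- masks of the rows -/
def mk0 : Nat := pk9 (nat_lit 128) D1 (nat_lit 0) (nat_lit 0) D1 D1 D1 D1 (nat_lit 0) (nat_lit 0)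
def mk1 : Nat := pk9 (nat_lit 128) (nat_lit 0) D1 (nat_lit 0) D1 D1 (nat_lit 0) (nat_lit 0) D1 D1
def mk2 : Nat := pk9 (nat_lit 128) (nat_lit 0) (nat_lit 0) D1 (nat_lit 0) (nat_lit 0) D1 D1 D1 D1

/-- row sums, packed in the digits 0, 1, 2 -/
def red (E : Nat) : Nat :=
  Nat.add (Nat.mod (Nat.land E mk0) D1) (Nat.shiftLeft (Nat.add (Nat.mod (Nat.land E mk1) D1) (Nat.shiftLeft (Nat.mod (Nat.land E mk2) D1) (nat_lit 128))) (nat_lit 128))

/-- sum of the blocks of the absolute values of the digits of `n` blocks (offset form) -/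
def smB (n N S : Nat) : Nat :=
  Nat.mod (Nat.add (Nat.xor N (Nat.add (Nat.sub (Of n) (rp (nat_lit 1) (Nat.mul (nat_lit 9) n))) S)) (Nat.sub (rp (nat_lit 1) (Nat.mul (nat_lit 9) n)) S))
    (Nat.sub (Bp (nat_lit 1)) (nat_lit 1))
def smA (n N : Nat) : Nat := smB n N (Nat.land (Nat.shiftRight N (nat_lit 127)) (rp (nat_lit 1) (Nat.mul (nat_lit 9) n)))

/-- block 0 -/
def bl0 (N : Nat) : Nat := Nat.land N (Nat.sub (Bp (nat_lit 1)) (nat_lit 1))

/-- children: `a` = number of blocks of the lower part, `c` = number of blocks of the upper part -/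
def chp (a c N : Nat) : Nat := Nat.sub (Nat.add (Nat.land N (Nat.sub (Bp a) (nat_lit 1))) (Nat.shiftRight N (Nat.mul (nat_lit 1152) a))) (Of c)
def chm (a c N : Nat) : Nat := Nat.sub (Nat.add (Nat.land N (Nat.sub (Bp a) (nat_lit 1))) (Of c)) (Nat.shiftRight N (Nat.mul (nat_lit 1152) a))

/-- test of a node with `n` blocks -/
def tn (n N : Nat) : Bool := lf (Nat.sub (bl0 N) (red (smA (Nat.sub n (nat_lit 1)) (Nat.shiftRight N (nat_lit 1152)))))

noncomputable def nd1 (N : Nat) : Bool :=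
  cond (tn (nat_lit 2) N) true (and (lf (chp (nat_lit 1) (nat_lit 1) N)) (lf (chm (nat_lit 1) (nat_lit 1) N)))
noncomputable def nd2 (N : Nat) : Bool :=
  cond (tn (nat_lit 4) N) true (and (es (chp (nat_lit 2) (nat_lit 2) N) nd1) (es (chm (nat_lit 2) (nat_lit 2) N) nd1))
noncomputable def nd3 (N : Nat) : Bool :=
  cond (tn (nat_lit 7) N) true (and (es (chp (nat_lit 4) (nat_lit 3) N) nd2) (es (chm (nat_lit 4) (nat_lit 3) N) nd2))
noncomputable def nd4 (N : Nat) : Bool :=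
  cond (tn (nat_lit 12) N) true (and (es (chp (nat_lit 7) (nat_lit 5) N) nd3) (es (chm (nat_lit 7) (nat_lit 5) N) nd3))

/-- `n` blocks `F`, `k` blocks `D` -/
noncomputable def tq2 (n k : Nat) (f : Nat → Bool) (N R : Nat) : Bool :=
  es (Nat.sub (Nat.land N (Nat.sub (Bp n) (nat_lit 1))) (red (Nat.add (smA k (Nat.shiftRight N (Nat.mul (nat_lit 1152) n))) (Nat.add R R)))) f

noncomputable def tq1 (n k : Nat) (f : Nat → Bool) (t x g : HQ) (l m : Nat) : Bool :=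
  and (Nat.ble (Nat.mul (nat_lit 8) (Nat.add (Nat.shiftLeft t.t (nat_lit 48)) (Nat.add (Nat.mul l x.t) (Nat.mul m g.t)))) H1)
  (es (Nat.land (Nat.add (Nat.add (Nat.shiftLeft t.Y (nat_lit 48)) (Nat.mul l (Nat.sub (Bp (Nat.add n k)) x.Y))) (Nat.add (Nat.mul m g.Y) (Of (Nat.add n k))))
    (Nat.sub (Bp (Nat.add n k)) (nat_lit 1))) fun N =>
   es (Nat.add (Nat.shiftLeft t.R (nat_lit 48)) (Nat.add (Nat.mul l x.R) (Nat.mul m g.R))) fun R => tq2 n k f N R)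

/-- constant model -/
def isc (l : Q2) : Bool := and (and (Nat.ble l.b H1) (Nat.ble l.X H1)) (Nat.beq l.r (nat_lit 0))

noncomputable def tstQ (n k : Nat) (f : Nat → Bool) (t x g : HQ) (l m : Q2) : Bool :=
  and (and (isc l) (isc m)) (es l.X fun l => es m.X fun m => tq1 n k f t x g l m)

noncomputable def cxK {α : Type} (z : Cx Q2) (k : Cx Q2 → α) : α := Q2.ek z.re fun x => Q2.ek z.im fun y => k ⟨x, y⟩

/-- forcing of a Hermitian matrix -/
noncomputable def fHQ (M : H9 Q2) (k : H9 Q2 → Bool) : Bool :=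
  Q2.ek M.d0 fun d0 => Q2.ek M.d1 fun d1 => Q2.ek M.d2 fun d2 => cxK M.e01 fun a => cxK M.e02 fun b => cxK M.e12 fun c =>
    k ⟨d0, d1, d2, a, b, c⟩

noncomputable def AQ1 : Arp Q2 HQ := ⟨OQ lay1, Q2.pos lay1, pkQ lay1 (nat_lit 1280) fin1, tstQ (nat_lit 2) (nat_lit 1) nd1, fHQ, HQ.ek⟩
noncomputable def AQ2 : Arp Q2 HQ := ⟨OQ lay2, Q2.pos lay2, pkQ lay2 (nat_lit 1280) fin2, tstQ (nat_lit 4) (nat_lit 2) nd2, fHQ, HQ.ek⟩
noncomputable def AQ3 : Arp Q2 HQ := ⟨OQ lay3, Q2.pos lay3, pkQ lay3 (nat_lit 2688) fin3, tstQ (nat_lit 7) (nat_lit 3) nd3, fHQ, HQ.ek⟩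
noncomputable def AQ4 : Arp Q2 HQ := ⟨OQ lay4, Q2.pos lay4, pkQ lay4 (nat_lit 4992) fin4, tstQ (nat_lit 12) (nat_lit 4) nd4, fHQ, HQ.ek⟩

/-! ### The environment -/

/-- residue of an integer -/
noncomputable def rsQ (l : Lay) (z : Int) : Nat :=
  Int.rec (motive := fun _ => Nat) (fun n => Nat.land n l.M1) (fun n => Nat.land (Nat.sub l.M (Nat.land (Nat.succ n) l.M1)) l.M1) z

/-- bit positions of the variables -/
structure Pos where
  p1 : Nat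
  p2 : Nat
  p3 : Nat
  p4 : Nat

/-- the linear model -/
noncomputable def linQ (l : Lay) (p : Pos) (L : Lin) : Q2 :=
  ⟨Nat.land (Nat.add (rsQ l L.v) (Nat.add (Nat.add (Nat.shiftLeft (rsQ l L.a1) p.p1) (Nat.shiftLeft (rsQ l L.a2) p.p2))
      (Nat.add (Nat.shiftLeft (rsQ l L.a3) p.p3) (Nat.shiftLeft (rsQ l L.a4) p.p4)))) l.M1,
    Nat.add (Kc.abI L.v) (Nat.add (Nat.add (Kc.abI L.a1) (Kc.abI L.a2)) (Nat.add (Kc.abI L.a3) (Kc.abI L.a4))), L.r⟩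

end Pool.Agent.Work.MP_88b7aa_gt.Kd
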