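import Mathlib
import Pool.Agent.Work.MP_88b7aa_gt.Kc.Bt
import Pool.Agent.Work.MP_88b7aa_gt.Kd.Def

/-!
# Packed digits in base `2^128`: signed digits, absolute values, floors
-/

set_option autoImplicit false
set_option exponentiation.threshold 3000

namespace Pool.Agent.Work.MP_88b7aa_gt.Kd

open Pool.Agent.Work.MP_88b7aa_gt.Kc (dgs dgs_succ dgs_lt dgs_and dgs_xor dgs_self dgs_digit dgs_mask dgs_mod xor_abs)

/-- packed integers -/
def zg (c : ℕ → ℤ) (n : ℕ) : ℤ := ∑ i ∈ Finset.range n, c i * (2 ^ 128) ^ i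

/-- sum of the absolute values -/
def na (c : ℕ → ℤ) (n : ℕ) : ℕ := ∑ i ∈ Finset.range n, (c i).natAbs

/-- the digit with offset -/
def od (c : ℕ → ℤ) (i : ℕ) : ℕ := (c i + 2 ^ 127).toNat

theorem zg_add (c d : ℕ → ℤ) (n : ℕ) : zg (fun i => c i + d i) n = zg c n + zg d n := by
  unfold zg
  rw [← Finset.sum_add_distrib]
  exact Finset.sum_congr rfl fun i _ => by ring

theorem zg_sub (c d : ℕ → ℤ) (n : ℕ) : zg (fun i => c i - d i) n = zg c n - zg d n := by
  unfold zg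
  rw [← Finset.sum_sub_distrib]
  exact Finset.sum_congr rfl fun i _ => by ring

theorem zg_neg (c : ℕ → ℤ) (n : ℕ) : zg (fun i => -c i) n = -zg c n := by
  unfold zg
  rw [← Finset.sum_neg_distrib]
  exact Finset.sum_congr rfl fun i _ => by ring

theorem zg_smul (a : ℤ) (c : ℕ → ℤ) (n : ℕ) : zg (fun i => a * c i) n = a * zg c n := by
  unfold zg
  rw [Finset.mul_sum]
  exact Finset.sum_congr rfl fun i _ => by ring

theorem dgs_cast (d : ℕ → ℕ) (n : ℕ) : ((dgs 128 d n : ℕ) : ℤ) = zg (fun i => (d i : ℤ)) n := by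
  unfold dgs zg
  push_cast
  rfl

theorem od_cast {c : ℕ → ℤ} {i : ℕ} (h : (c i).natAbs < 2 ^ 127) : (od c i : ℤ) = c i + 2 ^ 127 := by
  unfold od
  have h1 : |c i| < 2 ^ 127 := by
    rw [Int.abs_eq_natAbs]
    exact_mod_cast h
  have := abs_lt.mp h1
  exact Int.toNat_of_nonneg (by linarith)

theorem od_lt {c : ℕ → ℤ} {i : ℕ} (h : (c i).natAbs < 2 ^ 127) : od c i < 2 ^ 128 := by
  have h1 : |c i| < 2 ^ 127 := by
    rw [Int.abs_eq_natAbs]
    exact_mod_cast h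
  have h2 := od_cast h
  have h3 := abs_lt.mp h1
  have : (od c i : ℤ) < 2 ^ 128 := by rw [h2]; linarith [h3.2]
  exact_mod_cast this

theorem le_na {c : ℕ → ℤ} {n : ℕ} (hs : ∀ i, n ≤ i → c i = 0) (i : ℕ) : (c i).natAbs ≤ na c n := by
  rcases Nat.lt_or_ge i n with h | h
  · exact Finset.single_le_sum (f := fun i => (c i).natAbs) (fun _ _ => Nat.zero_le _) (Finset.mem_range.mpr h)
  · rw [hs i h]
    exact Nat.zero_le _

theorem na_add (c d : ℕ → ℤ) (n : ℕ) : na (fun i => c i + d i) n ≤ na c n + na d n := by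
  unfold na
  rw [← Finset.sum_add_distrib]
  exact Finset.sum_le_sum fun i _ => Int.natAbs_add_le _ _

theorem na_sub (c d : ℕ → ℤ) (n : ℕ) : na (fun i => c i - d i) n ≤ na c n + na d n := by
  unfold na
  rw [← Finset.sum_add_distrib]
  exact Finset.sum_le_sum fun i _ => Int.natAbs_sub_le _ _

theorem na_neg (c : ℕ → ℤ) (n : ℕ) : na (fun i => -c i) n = na c n := by
  unfold na
  exact Finset.sum_congr rfl fun i _ => Int.natAbs_neg _

theorem na_smul (a : ℤ) (c : ℕ → ℤ) (n : ℕ) : na (fun i => a * c i) n = a.natAbs * na c n := by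
  unfold na
  rw [Finset.mul_sum]
  exact Finset.sum_congr rfl fun i _ => Int.natAbs_mul _ _

theorem land_mod (a k : ℕ) : Nat.land a (2 ^ k - 1) = a % 2 ^ k := Nat.and_two_pow_sub_one_eq_mod a k

theorem modz (a k : ℕ) : ((a % 2 ^ k : ℕ) : ℤ) ≡ a [ZMOD ((2 ^ k : ℕ) : ℤ)] := by
  rw [Int.natCast_mod]
  exact Int.mod_modEq _ _

/-- The digits with the offsets. -/
theorem recov {c : ℕ → ℤ} {n X : ℕ} (hb : ∀ i, (c i).natAbs < 2 ^ 127) (hX : (X : ℤ) ≡ zg c n [ZMOD ((2 ^ (128 * n) : ℕ) : ℤ)]) :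
    (X + dgs 128 (fun _ => 2 ^ 127) n) % 2 ^ (128 * n) = dgs 128 (od c) n := by
  have h1 : (((X + dgs 128 (fun _ => 2 ^ 127) n) % 2 ^ (128 * n) : ℕ) : ℤ) ≡ ((dgs 128 (od c) n : ℕ) : ℤ)
      [ZMOD ((2 ^ (128 * n) : ℕ) : ℤ)] := by
    refine (modz _ _).trans ?_
    rw [Nat.cast_add, dgs_cast, dgs_cast]
    have e : zg (fun i => (od c i : ℤ)) n = zg c n + zg (fun _ => ((2 ^ 127 : ℕ) : ℤ)) n := by
      rw [← zg_add]
      unfold zg
      refine Finset.sum_congr rfl fun i _ => ?_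
      beta_reduce
      rw [od_cast (hb i)]
      push_cast
      ring
    rw [e]
    exact hX.add rfl
  have h2 : dgs 128 (od c) n < 2 ^ (128 * n) := dgs_lt (fun i => od_lt (hb i)) n
  exact Nat.ModEq.eq_of_lt_of_lt (Int.natCast_modEq_iff.mp h1) (Nat.mod_lt _ (by positivity)) h2

theorem dgs_one_mul (a n : ℕ) : dgs 128 (fun _ => a) n = a * dgs 128 (fun _ => 1) n := by
  unfold dgs
  rw [Finset.mul_sum]
  exact Finset.sum_congr rfl fun i _ => by ring

/-- The absolute values of the digits. -/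
theorem absd {u : ℕ → ℕ} (hu : ∀ i, u i < 2 ^ 128) (n : ℕ) {N S : ℕ} (hN : N = dgs 128 u n)
    (hS : S = Nat.land (N / 2 ^ 127) (dgs 128 (fun _ => 1) n)) :
    Nat.xor N ((dgs 128 (fun _ => 2 ^ 127) n - dgs 128 (fun _ => 1) n) + S) + (dgs 128 (fun _ => 1) n - S) =
      dgs 128 (fun i => (u i - 2 ^ 127) + (2 ^ 127 - u i)) n := by
  have hs1 : ∀ i, u i / 2 ^ 127 ≤ 1 := by
    intro i
    rw [Nat.div_le_iff_le_mul_add_pred (by positivity)]
    have := hu i
    have e : (2 : ℕ) ^ 128 = 2 * 2 ^ 127 := by norm_num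
    omega
  have eS : S = dgs 128 (fun i => u i / 2 ^ 127) n := by
    have h3 := dgs_mask (w := 128) (u := u) (e := fun _ => 1) hu (fun _ => le_rfl) (j := 127) (t := 1) (by norm_num) n
    have h4 : dgs 128 (fun _ => 1) n * (2 ^ 1 - 1) = dgs 128 (fun _ => 1) n := by norm_num
    rw [h4] at h3
    rw [hS, hN]
    refine Eq.trans h3 ?_
    unfold dgs
    refine Finset.sum_congr rfl fun i _ => ?_
    beta_reduce
    rw [one_mul]
    congr 1
    refine Nat.mod_eq_of_lt ?_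
    have := hs1 i
    omega
  have e1 : (dgs 128 (fun _ => 2 ^ 127) n - dgs 128 (fun _ => 1) n) + S = dgs 128 (fun i => 2 ^ 127 - 1 + u i / 2 ^ 127) n := by
    have h5 : dgs 128 (fun _ => 2 ^ 127) n = dgs 128 (fun _ => 2 ^ 127 - 1) n + dgs 128 (fun _ => 1) n := by
      unfold dgs
      rw [← Finset.sum_add_distrib]
      exact Finset.sum_congr rfl fun i _ => by
        have : (2 : ℕ) ^ 127 = (2 ^ 127 - 1) + 1 := by norm_num
        rw [← add_mul, ← this]
    rw [h5, Nat.add_sub_cancel, eS]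
    unfold dgs
    rw [← Finset.sum_add_distrib]
    exact Finset.sum_congr rfl fun i _ => by ring
  have b2 : ∀ i, 2 ^ 127 - 1 + u i / 2 ^ 127 < 2 ^ 128 := by
    intro i
    have := hs1 i
    have e : (2 : ℕ) ^ 128 = 2 * 2 ^ 127 := by norm_num
    omega
  have e2 : dgs 128 (fun _ => 1) n - S = dgs 128 (fun i => 1 - u i / 2 ^ 127) n := by
    have h3 : dgs 128 (fun _ => 1) n = dgs 128 (fun i => u i / 2 ^ 127) n + dgs 128 (fun i => 1 - u i / 2 ^ 127) n := by
      unfold dgs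
      rw [← Finset.sum_add_distrib]
      refine Finset.sum_congr rfl fun i _ => ?_
      have h4 : u i / 2 ^ 127 + (1 - u i / 2 ^ 127) = 1 := by
        have := hs1 i
        omega
      calc 1 * (2 ^ 128) ^ i = (u i / 2 ^ 127 + (1 - u i / 2 ^ 127)) * (2 ^ 128) ^ i := by rw [h4]
        _ = _ := by ring
    rw [eS]
    omega
  rw [e1, e2, hN]
  show (dgs 128 u n ^^^ dgs 128 (fun i => 2 ^ 127 - 1 + u i / 2 ^ 127) n) + _ = _
  rw [dgs_xor hu b2]
  unfold dgs
  rw [← Finset.sum_add_distrib]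
  refine Finset.sum_congr rfl fun i _ => ?_
  beta_reduce
  rw [← xor_abs (m := 127) (hu i)]
  ring

theorem od_abs {c : ℕ → ℤ} {i : ℕ} (h : (c i).natAbs < 2 ^ 127) : (od c i - 2 ^ 127) + (2 ^ 127 - od c i) = (c i).natAbs := by
  have h2 := od_cast h
  rcases le_total 0 (c i) with h0 | h0
  · have h3 : (2 : ℤ) ^ 127 ≤ (od c i : ℤ) := by linarith
    have h4 : 2 ^ 127 ≤ od c i := by exact_mod_cast h3
    omega
  · have h3 : (od c i : ℤ) ≤ 2 ^ 127 := by linarith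
    have h4 : od c i ≤ 2 ^ 127 := by exact_mod_cast h3
    omega

/-- The sum of the digits modulo `2^128 - 1`. -/
theorem dgs_sum {d : ℕ → ℕ} {n : ℕ} (h : ∑ i ∈ Finset.range n, d i < 2 ^ 128 - 1) :
    dgs 128 d n % (2 ^ 128 - 1) = ∑ i ∈ Finset.range n, d i := by
  have h1 : dgs 128 d n % (2 ^ 128 - 1) = (∑ i ∈ Finset.range n, d i) % (2 ^ 128 - 1) := dgs_mod 128 d n
  rw [h1, Nat.mod_eq_of_lt h]

theorem dgs_split {w : ℕ} (d : ℕ → ℕ) {j n : ℕ} (h : j ≤ n) :
    dgs w d n = dgs w d j + dgs w (fun i => d (i + j)) (n - j) * 2 ^ (w * j) := by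
  obtain ⟨m, rfl⟩ : ∃ m, n = j + m := ⟨n - j, by omega⟩
  have e : j + m - j = m := by omega
  rw [e]
  unfold dgs
  rw [Finset.sum_range_add, Finset.sum_mul]
  congr 1
  refine Finset.sum_congr rfl fun i _ => ?_
  rw [pow_add, pow_mul, add_comm j i]
  ring

/-- Shift by whole digits. -/
theorem dgs_shift {w : ℕ} {d : ℕ → ℕ} (hd : ∀ i, d i < 2 ^ w) {j n : ℕ} (h : j ≤ n) :
    dgs w d n / 2 ^ (w * j) = dgs w (fun i => d (i + j)) (n - j) := by
  rw [dgs_split d h, Nat.add_mul_div_right _ _ (by positivity), Nat.div_eq_of_lt (dgs_lt hd j), zero_add]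

/-- The low digits. -/
theorem dgs_low {w : ℕ} {d : ℕ → ℕ} (hd : ∀ i, d i < 2 ^ w) {j n : ℕ} (h : j ≤ n) :
    dgs w d n % 2 ^ (w * j) = dgs w d j := by
  rw [dgs_split d h, Nat.add_mul_mod_self_right, Nat.mod_eq_of_lt (dgs_lt hd j)]

theorem rp_eq (x n : ℕ) : rp x n = dgs 128 (fun _ => x) n := by
  have h : ∀ n, dgs 128 (fun _ => x) n * (2 ^ 128 - 1) = x * (2 ^ (128 * n) - 1) := by
    intro n
    induction n with
    | zero => simp [dgs]
    | succ n ih =>
      rw [dgs_succ, add_mul, ih]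
      have h1 : 0 < 2 ^ (128 * n) := by positivity
      have h2 : 2 ^ (128 * (n + 1)) = 2 ^ 128 * 2 ^ (128 * n) := by rw [← pow_add]; ring_nf
      rw [h2]
      have h3 : 1 ≤ 2 ^ 128 := Nat.one_le_two_pow
      zify [h1, h3, Nat.mul_pos (by norm_num : 0 < 2 ^ 128) h1]
      ring
  unfold rp bp
  show x * (2 ^ (128 * n) - 1) / (2 ^ (128 * 1) - 1) = _
  rw [mul_one, ← h n]
  exact Nat.mul_div_cancel _ (by norm_num)

end Pool.Agent.Work.MP_88b7aa_gt.Kd
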