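import Pool.Agent.Work.MP_88b7aa_gt.Kd.Def

/-!
# The environment of a cell in the second version of the kernel arithmetic (definitions)
-/

set_option autoImplicit false

namespace Pool.Agent.Work.MP_88b7aa_gt.Kd

open Pool.Agent.Work.MP_88b7aa_gt.PQ

/-- bit positions of the variables -/
def pos1 : Pos := ⟨nat_lit 128, nat_lit 384, nat_lit 384, nat_lit 384⟩
def pos2 : Pos := ⟨nat_lit 384, nat_lit 512, nat_lit 1152, nat_lit 1152⟩
def pos3 : Pos := ⟨nat_lit 896, nat_lit 1024, nat_lit 1280, nat_lit 2688⟩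
def pos4 : Pos := ⟨nat_lit 1664, nat_lit 1792, nat_lit 2176, nat_lit 2432⟩

/-- `2 ^ 48` -/
def T48 : Nat := nat_lit 281474976710656

/-- `cos (x / 2^48)` and `sin (x / 2^48)` times `2^48`, with an error at most 2, for `x ≤ 2^48` -/
noncomputable def cs48 (x : Nat) : Nat := Kc.horA x (nat_lit 20) (nat_lit 0) fun X _ => Nat.div X (nat_lit 256)
noncomputable def sn48 (x : Nat) : Nat := Kc.horA x (nat_lit 20) (nat_lit 0) fun _ Y => Nat.div Y (nat_lit 256)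

/-- model of a number of absolute value at most 1 -/
def triv : Q2 := ⟨nat_lit 0, nat_lit 0, T48⟩

/-- the linear part -/
noncomputable def dlt (l : Lay) (p : Pos) (L : Lin) : Q2 := linQ l p ⟨Int.ofNat (nat_lit 0), L.a1, L.a2, L.a3, L.a4, L.r⟩

/-- enlarge the remainder -/
def adr (r : Nat) (x : Q2) : Q2 := ⟨x.X, x.b, Nat.add x.r r⟩

/-- `cos` of the linear part `d`: `1 - d²/2`, error `5/96 D⁴` -/
noncomputable def csD (l : Lay) (d : Q2) (D : Nat) : Q2 :=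
  adr (Nat.succ (Nat.div (Nat.mul (nat_lit 5) (Nat.pow D (nat_lit 4))) (Nat.mul (nat_lit 96) (Nat.pow (nat_lit 2) (nat_lit 144)))))
    (Q2.sub l (Q2.cst l (Int.ofNat (nat_lit 1073741824))) (Q2.mul l (Q2.cst l (Int.ofNat (nat_lit 536870912))) (Q2.mul l d d)))

/-- `sin` of the linear part `d`: `d`, error `D³/6 + 5/96 D⁴` -/
noncomputable def snD (d : Q2) (D : Nat) : Q2 :=
  adr (Nat.add (Nat.add (Nat.div (Nat.pow D (nat_lit 3)) (Nat.mul (nat_lit 6) (Nat.pow (nat_lit 2) (nat_lit 96))))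
    (Nat.div (Nat.mul (nat_lit 5) (Nat.pow D (nat_lit 4))) (Nat.mul (nat_lit 96) (Nat.pow (nat_lit 2) (nat_lit 144))))) (nat_lit 2)) d

/-- `cos t0`, `sin t0` -/
noncomputable def cs0 (v : Int) : Q2 := es (cs48 (Kc.abI v)) fun c => ⟨c, c, nat_lit 2⟩
noncomputable def sn0 (l : Lay) (v : Int) : Q2 :=
  es (sn48 (Kc.abI v)) fun s => ⟨Int.rec (motive := fun _ => Nat) (fun _ => s) (fun _ => Nat.land (Nat.sub l.M s) l.M1) v, s, nat_lit 2⟩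

/-- the model of `e^{i t}` -/
noncomputable def hQ (l : Lay) (p : Pos) (L : Lin) : Cx Q2 :=
  cond (and (Nat.ble (Kc.abI L.v) T48) (Nat.ble (Kc.dbd L) T48))
    ⟨Q2.sub l (Q2.mul l (cs0 L.v) (csD l (dlt l p L) (Kc.dbd L))) (Q2.mul l (sn0 l L.v) (snD (dlt l p L) (Kc.dbd L))),
     Q2.add l (Q2.mul l (cs0 L.v) (snD (dlt l p L) (Kc.dbd L))) (Q2.mul l (sn0 l L.v) (csD l (dlt l p L) (Kc.dbd L)))⟩
    ⟨triv, triv⟩

/-- the variable at the bit position `s` -/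
def vrQ (l : Lay) (s : Nat) : Q2 := ⟨Nat.land (Nat.shiftLeft T48 s) l.M1, T48, nat_lit 0⟩

/-- The environment of a cell, forced. -/
noncomputable def envC (l : Lay) (p : Pos) (La Lb Lc Lt : Lin) (k : Ev Q2 → Bool) : Bool :=
  Q2.ek (linQ l p La) fun a => Q2.ek (linQ l p Lb) fun b => Q2.ek (linQ l p Lc) fun c =>
  cxK (hQ l p Lt) fun h => cxK ((h.cj (OQ l)).mul (OQ l) (h.cj (OQ l))) fun w =>
  cxK ((w.smul (OQ l) b).neg (OQ l)) fun g01 => cxK (((w.cj (OQ l)).smul (OQ l) c).neg (OQ l)) fun g02 =>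
  cxK ((w.smul (OQ l) a).neg (OQ l)) fun g12 =>
  cxK (Kc.ctr (OQ l) ⟨g01, g02, g12⟩).a fun o0 => cxK (Kc.ctr (OQ l) ⟨g01, g02, g12⟩).b fun o1 =>
  cxK (Kc.ctr (OQ l) ⟨g01, g02, g12⟩).c fun o2 =>
  Q2.ek (vrQ l p.p1) fun x0 => Q2.ek (vrQ l p.p2) fun x1 => Q2.ek (vrQ l p.p3) fun x2 => Q2.ek (vrQ l p.p4) fun x3 =>
  k ⟨⟨g01, g02, g12⟩, [⟨a, Q2.zero⟩, ⟨b, Q2.zero⟩, ⟨c, Q2.zero⟩, h, w, ⟨x0, Q2.zero⟩, ⟨x1, Q2.zero⟩, ⟨x2, Q2.zero⟩, ⟨x3, Q2.zero⟩, o0, o1, o2]⟩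

end Pool.Agent.Work.MP_88b7aa_gt.Kd
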