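import Pool.Agent.Work.MP_88b7aa_gt.Kd.A10
import Pool.Agent.Work.MP_88b7aa_gt.Kd.Env
import Pool.Agent.Work.MP_88b7aa_gt.Kc.EnvS

/-!
# Soundness of the environment of a cell in the second version of the kernel arithmetic
-/

set_option autoImplicit false
set_option exponentiation.threshold 6000

namespace Pool.Agent.Work.MP_88b7aa_gt.Kd

open Pool.Agent.Work.MP_88b7aa_gt.Kc (dgs dgs_lt abI abI_eq abI_abs hor20 horA_eq hXY W56 W56_cast W48 W48_cast floor_succ dbd dbd_ok exR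
  modEq_of_eq)
open Pool.Agent.Work.MP_88b7aa_gt.PQ
open ComplexConjugate Complex Matrix

seal PP P1 Ph Os

/-! ### Linear models -/

/-- one coefficient -/
def cf (L j : ℕ) (a : ℤ) (i : ℕ) : ℤ := if i = j ∧ i < L then a else 0

theorem cf_zg (L j : ℕ) (a : ℤ) : a * (2 ^ 128) ^ j ≡ zg (cf L j a) L [ZMOD ((2 ^ (128 * L) : ℕ) : ℤ)] := by
  unfold zg cf
  rcases Nat.lt_or_ge j L with h | h
  · have e : ∑ i ∈ Finset.range L, (if i = j ∧ i < L then a else 0) * (2 ^ 128) ^ i = a * (2 ^ 128) ^ j := by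
      rw [Finset.sum_eq_single j]
      · rw [if_pos ⟨rfl, h⟩]
      · intro i _ hi
        rw [if_neg (fun h => hi h.1), zero_mul]
      · intro hn
        exact absurd (Finset.mem_range.mpr h) hn
    rw [e]
  · have e : ∑ i ∈ Finset.range L, (if i = j ∧ i < L then a else 0) * (2 ^ 128) ^ i = 0 := by
      refine Finset.sum_eq_zero fun i hi => ?_
      rw [Finset.mem_range] at hi
      rw [if_neg (by omega), zero_mul]
    rw [e, Int.modEq_zero_iff_dvd]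
    refine ⟨a * (2 ^ 128) ^ (j - L), ?_⟩
    have e2 : ((2 : ℤ) ^ 128) ^ j = 2 ^ (128 * L) * (2 ^ 128) ^ (j - L) := by
      rw [pow_mul, ← pow_add]
      congr 1
      omega
    rw [e2]
    push_cast
    ring

theorem cf_na (L j : ℕ) (a : ℤ) : na (cf L j a) L ≤ a.natAbs := by
  unfold na cf
  have e : ∀ i ∈ Finset.range L, (if i = j ∧ i < L then a else 0).natAbs ≤ if i = j then a.natAbs else 0 := by
    intro i _
    split_ifs with h1 h2 h2
    · exact le_rfl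
    · exact absurd h1.1 h2
    · exact Nat.zero_le _
    · exact le_rfl
  refine (Finset.sum_le_sum e).trans ?_
  rw [Finset.sum_ite_eq' (Finset.range L) j (fun _ => a.natAbs)]
  split
  · exact le_rfl
  · exact Nat.zero_le _

theorem cf_pv {L j : ℕ} (a : ℤ) {μ : ℕ → ℝ} {x : ℝ} (h : (j < L ∧ μ j = x) ∨ (L ≤ j ∧ x = 0)) : pv μ (cf L j a) L = a * x := by
  unfold pv cf
  rcases h with ⟨h1, h2⟩ | ⟨h1, h2⟩
  · rw [Finset.sum_eq_single j]
    · rw [if_pos ⟨rfl, h1⟩, h2]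
    · intro i _ hi
      rw [if_neg (fun h => hi h.1)]
      simp
    · intro hn
      exact absurd (Finset.mem_range.mpr h1) hn
  · rw [h2, mul_zero]
    refine Finset.sum_eq_zero fun i hi => ?_
    rw [Finset.mem_range] at hi
    rw [if_neg (by omega)]
    simp

/-- The position of a variable. -/
def PK (L : ℕ) (S : Finset ℕ) (μ : ℕ → ℝ) (s : ℕ) (x : ℝ) : Prop :=
  ∃ j, s = 128 * j ∧ ((j < L ∧ j ∈ S ∧ μ j = x) ∨ (L ≤ j ∧ x = 0))

theorem cf_sup {L j : ℕ} {S : Finset ℕ} (a : ℤ) (h : j < L → j ∈ S) {i : ℕ} (hi : cf L j a i ≠ 0) : i ∈ S := by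
  unfold cf at hi
  by_cases h1 : i = j ∧ i < L
  · rw [h1.1]
    exact h (h1.1 ▸ h1.2)
  · rw [if_neg h1] at hi
    exact absurd rfl hi

/-- The positions of the variables of a layout. -/
structure POK (L : ℕ) (S : Finset ℕ) (μ : ℕ → ℝ) (p : Pos) (x : Fin 4 → ℝ) : Prop where
  h1 : PK L S μ p.p1 (x 0)
  h2 : PK L S μ p.p2 (x 1)
  h3 : PK L S μ p.p3 (x 2)
  h4 : PK L S μ p.p4 (x 3)

section

variable {l : Lay} {L t : ℕ} (hl : LOK l L t) {S : Finset ℕ} {μ : ℕ → ℝ} (hS : Sem L t S μ)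

include hl

theorem rsQ_mod (z : ℤ) : (rsQ l z : ℤ) ≡ z [ZMOD ((2 ^ (128 * L) : ℕ) : ℤ)] := by
  cases z with
  | ofNat n =>
    show ((Nat.land n l.M1 : ℕ) : ℤ) ≡ _ [ZMOD _]
    rw [land_M1 hl]
    exact modz _ _
  | negSucc n =>
    show ((Nat.land (l.M - Nat.land (n + 1) l.M1) l.M1 : ℕ) : ℤ) ≡ _ [ZMOD _]
    rw [land_M1 hl, land_M1 hl, hl.M]
    refine (modz _ _).trans ?_
    have h1 : (n + 1) % 2 ^ (128 * L) ≤ 2 ^ (128 * L) := (Nat.mod_lt _ (by positivity)).le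
    rw [Nat.cast_sub h1]
    have h2 := modz (n + 1) (128 * L)
    have h3 : (((2 ^ (128 * L) : ℕ) : ℤ) - ((((n + 1) % 2 ^ (128 * L) : ℕ) : ℤ))) ≡
        0 - ((n + 1 : ℕ) : ℤ) [ZMOD ((2 ^ (128 * L) : ℕ) : ℤ)] :=
      Int.ModEq.sub (by rw [Int.modEq_iff_dvd]; exact ⟨-1, by ring⟩) h2
    refine h3.trans ?_
    have e : (0 : ℤ) - ((n + 1 : ℕ) : ℤ) = Int.negSucc n := by
      rw [Int.negSucc_eq]
      push_cast
      ring
    rw [e]

theorem shl_mod {a : ℕ} {A : ℤ} (h : (a : ℤ) ≡ A [ZMOD ((2 ^ (128 * L) : ℕ) : ℤ)]) {s j : ℕ} (hs : s = 128 * j) :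
    ((Nat.shiftLeft a s : ℕ) : ℤ) ≡ zg (cf L j A) L [ZMOD ((2 ^ (128 * L) : ℕ) : ℤ)] := by
  have e0 : Nat.shiftLeft a s = a * (2 ^ 128) ^ j := by rw [shl_eq, hs, pow_mul]
  rw [e0]
  refine Int.ModEq.trans ?_ (cf_zg L j A)
  rw [Nat.cast_mul]
  have e : (((2 ^ 128) ^ j : ℕ) : ℤ) = (2 ^ 128) ^ j := by push_cast; rfl
  rw [e]
  exact h.mul_right _

include hS

theorem linQ_gen {x : Fin 4 → ℝ} {p : Pos} (hp : POK L S μ p x) {La : Lin} {y : ℝ} (h : La.Holds x y) : RepQ L S μ y (linQ l p La) := by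
  obtain ⟨j1, e1, g1⟩ := hp.h1
  obtain ⟨j2, e2, g2⟩ := hp.h2
  obtain ⟨j3, e3, g3⟩ := hp.h3
  obtain ⟨j4, e4, g4⟩ := hp.h4
  have hL : 0 < L := by have := hS.tL; have := hS.pos; omega
  set c : ℕ → ℤ := fun i => cf L 0 La.v i + ((cf L j1 La.a1 i + cf L j2 La.a2 i) + (cf L j3 La.a3 i + cf L j4 La.a4 i)) with hc
  refine ⟨c, ⟨?_, ?_, ?_, ?_, ?_⟩⟩
  · intro i hi
    by_contra hn
    apply hi
    have z : ∀ (j : ℕ) (a : ℤ), (j < L → j ∈ S) → cf L j a i = 0 := fun j a hj => by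
      by_contra h2
      exact hn (cf_sup a hj h2)
    have k1 : j1 < L → j1 ∈ S := fun h => by rcases g1 with g | g; exacts [g.2.1, absurd h (by omega)]
    have k2 : j2 < L → j2 ∈ S := fun h => by rcases g2 with g | g; exacts [g.2.1, absurd h (by omega)]
    have k3 : j3 < L → j3 ∈ S := fun h => by rcases g3 with g | g; exacts [g.2.1, absurd h (by omega)]
    have k4 : j4 < L → j4 ∈ S := fun h => by rcases g4 with g | g; exacts [g.2.1, absurd h (by omega)]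
    rw [hc]
    beta_reduce
    rw [z 0 _ (fun _ => hS.S0), z j1 _ k1, z j2 _ k2, z j3 _ k3, z j4 _ k4]
    rfl
  · show Nat.land _ l.M1 < _
    rw [land_M1 hl]
    exact Nat.mod_lt _ (by positivity)
  · show ((Nat.land _ l.M1 : ℕ) : ℤ) ≡ _ [ZMOD _]
    rw [land_M1 hl]
    refine (modz _ _).trans ?_
    have m0 : (rsQ l La.v : ℤ) ≡ zg (cf L 0 La.v) L [ZMOD ((2 ^ (128 * L) : ℕ) : ℤ)] := by
      have h1 := cf_zg L 0 La.v
      rw [pow_zero, mul_one] at h1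
      exact (rsQ_mod hl La.v).trans h1
    have m1 := shl_mod hl (rsQ_mod hl La.a1) e1
    have m2 := shl_mod hl (rsQ_mod hl La.a2) e2
    have m3 := shl_mod hl (rsQ_mod hl La.a3) e3
    have m4 := shl_mod hl (rsQ_mod hl La.a4) e4
    have e : zg c L = zg (cf L 0 La.v) L + ((zg (cf L j1 La.a1) L + zg (cf L j2 La.a2) L) + (zg (cf L j3 La.a3) L + zg (cf L j4 La.a4) L)) := by
      rw [← zg_add, ← zg_add, ← zg_add, ← zg_add]
    rw [e]
    have h5 := m0.add ((m1.add m2).add (m3.add m4))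
    refine Int.ModEq.trans (modEq_of_eq ?_) h5
    show (((rsQ l La.v) + ((Nat.shiftLeft (rsQ l La.a1) p.p1 + Nat.shiftLeft (rsQ l La.a2) p.p2) +
      (Nat.shiftLeft (rsQ l La.a3) p.p3 + Nat.shiftLeft (rsQ l La.a4) p.p4)) : ℕ) : ℤ) = _
    rw [Nat.cast_add, Nat.cast_add, Nat.cast_add, Nat.cast_add]
  · show na c L ≤ abI La.v + ((abI La.a1 + abI La.a2) + (abI La.a3 + abI La.a4))
    rw [abI_eq, abI_eq, abI_eq, abI_eq, abI_eq]
    have n0 := cf_na L 0 La.v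
    have n1 := cf_na L j1 La.a1
    have n2 := cf_na L j2 La.a2
    have n3 := cf_na L j3 La.a3
    have n4 := cf_na L j4 La.a4
    have t1 := na_add (cf L 0 La.v) (fun i => (cf L j1 La.a1 i + cf L j2 La.a2 i) + (cf L j3 La.a3 i + cf L j4 La.a4 i)) L
    have t2 := na_add (fun i => cf L j1 La.a1 i + cf L j2 La.a2 i) (fun i => cf L j3 La.a3 i + cf L j4 La.a4 i) L
    have t3 := na_add (cf L j1 La.a1) (cf L j2 La.a2) L
    have t4 := na_add (cf L j3 La.a3) (cf L j4 La.a4) L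
    have t0 : na c L = na (fun i => cf L 0 La.v i + ((cf L j1 La.a1 i + cf L j2 La.a2 i) + (cf L j3 La.a3 i + cf L j4 La.a4 i))) L := rfl
    omega
  · have q0 : pv μ (cf L 0 La.v) L = La.v * 1 := cf_pv La.v (Or.inl ⟨hL, hS.zero⟩)
    have q1 : pv μ (cf L j1 La.a1) L = La.a1 * x 0 := cf_pv La.a1 (by rcases g1 with g | g; exacts [Or.inl ⟨g.1, g.2.2⟩, Or.inr g])
    have q2 : pv μ (cf L j2 La.a2) L = La.a2 * x 1 := cf_pv La.a2 (by rcases g2 with g | g; exacts [Or.inl ⟨g.1, g.2.2⟩, Or.inr g])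
    have q3 : pv μ (cf L j3 La.a3) L = La.a3 * x 2 := cf_pv La.a3 (by rcases g3 with g | g; exacts [Or.inl ⟨g.1, g.2.2⟩, Or.inr g])
    have q4 : pv μ (cf L j4 La.a4) L = La.a4 * x 3 := cf_pv La.a4 (by rcases g4 with g | g; exacts [Or.inl ⟨g.1, g.2.2⟩, Or.inr g])
    have q : pv μ c L = La.v + La.a1 * x 0 + La.a2 * x 1 + La.a3 * x 2 + La.a4 * x 3 := by
      rw [hc, pv_add, pv_add, pv_add, pv_add, q0, q1, q2, q3, q4]
      ring
    rw [q]
    have e48 : (2 : ℝ) ^ 48 = 281474976710656 := by norm_num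
    rw [e48]
    exact h

theorem RepQ.adr {y y' : ℝ} {X : Q2} (h : RepQ L S μ y X) (k : ℕ) (hk : |y' - y| * 2 ^ 48 ≤ k) : RepQ L S μ y' (adr k X) := by
  obtain ⟨c, h⟩ := h
  refine ⟨c, ⟨h.sup, h.lt, h.eq, h.nb, ?_⟩⟩
  show |y' * 2 ^ 48 - pv μ c L| ≤ ((X.r + k : ℕ) : ℝ)
  have e : y' * 2 ^ 48 - pv μ c L = (y * 2 ^ 48 - pv μ c L) + (y' - y) * 2 ^ 48 := by ring
  rw [e, Nat.cast_add]
  refine (abs_add_le _ _).trans (add_le_add h.er ?_)
  rw [abs_mul, abs_of_pos (by positivity : (0 : ℝ) < 2 ^ 48)]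
  exact hk

theorem RepQ.triv {y : ℝ} (hy : |y| ≤ 1) : RepQ L S μ y triv := by
  refine rep_con hl hS 0 _ _ _ (by positivity) rfl (by simp) ?_
  rw [Int.cast_zero, sub_zero, abs_mul, abs_of_pos (by positivity : (0 : ℝ) < 2 ^ 48)]
  have e : ((T48 : ℕ) : ℝ) = 2 ^ 48 := by
    unfold T48
    norm_num
  rw [e]
  exact mul_le_of_le_one_left (by positivity) hy

omit hl hS in
theorem shift8 {X : ℕ} {y : ℝ} (h : |(W56 : ℝ) * y - X| ≤ 22) : |y * 2 ^ 48 - ((X / 256 : ℕ) : ℝ)| ≤ 2 := by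
  have h1 : 256 * (X / 256) ≤ X := Nat.mul_div_le _ _
  have h2 : X < 256 * (X / 256 + 1) := by omega
  have h1' : (256 : ℝ) * ((X / 256 : ℕ) : ℝ) ≤ X := by exact_mod_cast h1
  have h2' : (X : ℝ) < 256 * (((X / 256 : ℕ) : ℝ) + 1) := by exact_mod_cast h2
  rw [W56_cast] at h
  have h3 := abs_le.mp h
  rw [abs_le]
  constructor <;> linarith [h3.1, h3.2]

omit hl hS in
theorem cs48_ok {v : ℕ} (hv : v ≤ W48) : |Real.cos ((v : ℝ) / 281474976710656) * 2 ^ 48 - (cs48 v : ℝ)| ≤ 2 := by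
  have e : cs48 v = (hXY v 20 0).1 / 256 := by
    unfold cs48
    rw [horA_eq]
    rfl
  rw [e]
  exact shift8 (hor20 hv).1

omit hl hS in
theorem sn48_ok {v : ℕ} (hv : v ≤ W48) : |Real.sin ((v : ℝ) / 281474976710656) * 2 ^ 48 - (sn48 v : ℝ)| ≤ 2 := by
  have e : sn48 v = (hXY v 20 0).2 / 256 := by
    unfold sn48
    rw [horA_eq]
    rfl
  rw [e]
  exact shift8 (hor20 hv).2

omit hl hS in
theorem le_50 {n : ℕ} {y : ℝ} (hy : |y| ≤ 1) (h : |y * 2 ^ 48 - (n : ℝ)| ≤ 2) : n < 2 ^ 50 := by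
  have h1 := (abs_le.mp hy).2
  have h2 := (abs_le.mp h).1
  have e48 : (2 : ℝ) ^ 48 = 281474976710656 := by norm_num
  rw [e48] at h2
  have h3 : (n : ℝ) < 1125899906842624 := by linarith
  have h4 : n < 1125899906842624 := by exact_mod_cast h3
  exact h4

omit hl in
theorem pow50 : (2 : ℕ) ^ 50 ≤ 2 ^ (128 * L) := by
  have hL : 0 < L := by have := hS.tL; have := hS.pos; omega
  exact Nat.pow_le_pow_right (by norm_num) (by omega)

theorem cs0_ok {v : ℤ} (hv : abI v ≤ T48) : RepQ L S μ (Real.cos ((v : ℝ) / 281474976710656)) (cs0 v) := by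
  unfold cs0
  rw [es_eq]
  have h1 : ((v.natAbs : ℕ) : ℝ) = |(v : ℝ)| := by rw [Nat.cast_natAbs, Int.cast_abs]
  have e : Real.cos ((v : ℝ) / 281474976710656) = Real.cos (((abI v : ℕ) : ℝ) / 281474976710656) := by
    rw [abI_eq, h1, ← Real.cos_abs ((v : ℝ) / 281474976710656), abs_div, abs_of_pos (by norm_num : (0 : ℝ) < 281474976710656)]
  rw [e]
  have h2 := cs48_ok (v := abI v) hv
  have h3 := le_50 (Real.abs_cos_le_one _) h2
  refine rep_con hl hS ((cs48 (abI v) : ℕ) : ℤ) _ _ _ (h3.trans_le (pow50 hS)) rfl (by rw [Int.natAbs_natCast]) ?_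
  rw [Int.cast_natCast]
  exact h2

theorem sn0_ok {v : ℤ} (hv : abI v ≤ T48) : RepQ L S μ (Real.sin ((v : ℝ) / 281474976710656)) (sn0 l v) := by
  unfold sn0
  rw [es_eq]
  cases v with
  | ofNat n =>
    have h2 := sn48_ok (v := n) hv
    have h3 := le_50 (Real.abs_sin_le_one _) h2
    refine rep_con hl hS ((sn48 n : ℕ) : ℤ) _ _ _ (h3.trans_le (pow50 hS)) rfl ?_ ?_
    · rw [Int.natAbs_natCast]
      rfl
    · rw [Int.cast_natCast]
      exact h2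
  | negSucc n =>
    have h2 := sn48_ok (v := n + 1) hv
    have h3 := (le_50 (Real.abs_sin_le_one _) h2).trans_le (pow50 hS)
    have e : Real.sin (((Int.negSucc n : ℤ) : ℝ) / 281474976710656) = -Real.sin (((n + 1 : ℕ) : ℝ) / 281474976710656) := by
      rw [Int.cast_negSucc, neg_div, Real.sin_neg]
    rw [e]
    have hX : (Int.rec (motive := fun _ => Nat) (fun _ => sn48 (abI (Int.negSucc n)))
        (fun _ => Nat.land (Nat.sub l.M (sn48 (abI (Int.negSucc n)))) l.M1) (Int.negSucc n)) =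
        (2 ^ (128 * L) - sn48 (n + 1)) % 2 ^ (128 * L) := by
      show Nat.land (l.M - sn48 (n + 1)) l.M1 = _
      rw [land_M1 hl, hl.M]
    rw [hX]
    refine rep_con hl hS (-((sn48 (n + 1) : ℕ) : ℤ)) _ _ _ (Nat.mod_lt _ (by positivity)) ?_ ?_ ?_
    · refine (modz _ _).trans ?_
      rw [Nat.cast_sub h3.le, Int.modEq_iff_dvd]
      exact ⟨-1, by ring⟩
    · rw [Int.natAbs_neg, Int.natAbs_natCast]
      exact le_rfl
    · rw [Int.cast_neg, Int.cast_natCast]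
      have e3 : -Real.sin (((n + 1 : ℕ) : ℝ) / 281474976710656) * 2 ^ 48 - -((sn48 (n + 1) : ℕ) : ℝ) =
          -(Real.sin (((n + 1 : ℕ) : ℝ) / 281474976710656) * 2 ^ 48 - ((sn48 (n + 1) : ℕ) : ℝ)) := by ring
      show |-Real.sin (((n + 1 : ℕ) : ℝ) / 281474976710656) * 2 ^ 48 - -((sn48 (n + 1) : ℕ) : ℝ)| ≤ ((2 : ℕ) : ℝ)
      rw [e3, abs_neg]
      exact h2

/-! ### The linear part -/

theorem dlt_ok {x : Fin 4 → ℝ} {p : Pos} (hp : POK L S μ p x) {La : Lin} {t : ℝ} (h : La.Holds x t) :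
    RepQ L S μ (t - (La.v : ℝ) / 281474976710656) (dlt l p La) := by
  refine linQ_gen hl hS hp ?_
  show |(t - (La.v : ℝ) / 281474976710656) * 281474976710656 - (((0 : ℤ) : ℝ) + La.a1 * x 0 + La.a2 * x 1 + La.a3 * x 2 +
    La.a4 * x 3)| ≤ La.r
  have e : (t - (La.v : ℝ) / 281474976710656) * 281474976710656 - (((0 : ℤ) : ℝ) + La.a1 * x 0 + La.a2 * x 1 + La.a3 * x 2 +
      La.a4 * x 3) = t * 281474976710656 - (La.v + La.a1 * x 0 + La.a2 * x 1 + La.a3 * x 2 + La.a4 * x 3) := by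
    push_cast
    ring
  rw [e]
  exact h

theorem csD_ok {y : ℝ} {d : Q2} (h : RepQ L S μ y d) {D : ℕ} (hD : D ≤ T48)
    (hy : |y| * 281474976710656 ≤ D) : RepQ L S μ (Real.cos y) (csD l d D) := by
  have hD' : (D : ℝ) ≤ 281474976710656 := by
    have h1 : (D : ℝ) ≤ T48 := by exact_mod_cast hD
    exact h1
  have hy1 : |y| ≤ 1 := by
    have : |y| * 281474976710656 ≤ 281474976710656 := hy.trans hD'
    linarith
  unfold csD
  have hO := OQ_rel hl hS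
  have h1 := hO.sub (hO.cst 1073741824) (hO.mul (hO.cst 536870912) (hO.mul h h))
  have e1 : ((1073741824 : ℤ) : ℝ) / 1073741824 - ((536870912 : ℤ) : ℝ) / 1073741824 * (y * y) = 1 - y ^ 2 / 2 := by
    push_cast
    ring
  rw [e1] at h1
  refine RepQ.adr hl hS (y := 1 - y ^ 2 / 2) h1 _ ?_
  have h2 := Real.cos_bound hy1
  have h3 : |Real.cos y - (1 - y ^ 2 / 2)| * 2 ^ 48 ≤ |y| ^ 4 * (5 / 96) * 2 ^ 48 := mul_le_mul_of_nonneg_right h2 (by positivity)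
  refine h3.trans ?_
  have h4 : |y| ≤ (D : ℝ) / 281474976710656 := by
    rw [le_div_iff₀ (by norm_num)]
    exact hy
  have h5 : |y| ^ 4 ≤ ((D : ℝ) / 281474976710656) ^ 4 := pow_le_pow_left₀ (abs_nonneg _) h4 4
  have h6 : |y| ^ 4 * (5 / 96) * 2 ^ 48 ≤ ((D : ℝ) / 281474976710656) ^ 4 * (5 / 96) * 2 ^ 48 := by gcongr
  refine h6.trans ?_
  have h7 : ((D : ℝ) / 281474976710656) ^ 4 * (5 / 96) * 2 ^ 48 = ((5 * D ^ 4 : ℕ) : ℝ) / ((96 * 2 ^ 144 : ℕ) : ℝ) := by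
    push_cast
    rw [div_pow]
    have e5 : (281474976710656 : ℝ) ^ 4 = 2 ^ 192 := by norm_num
    rw [e5]
    field_simp
    ring
  rw [h7]
  exact floor_succ (5 * D ^ 4) (96 * 2 ^ 144) (by positivity)

theorem snD_ok {y : ℝ} {d : Q2} (h : RepQ L S μ y d) {D : ℕ} (hy : |y| * 281474976710656 ≤ D) : RepQ L S μ (Real.sin y) (snD d D) := by
  unfold snD
  refine h.adr hl hS _ ?_
  have h1 := Real.abs_sub_sin_le y
  rw [abs_sub_comm] at h1
  have h4 : |y| ≤ (D : ℝ) / 281474976710656 := by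
    rw [le_div_iff₀ (by norm_num)]
    exact hy
  have h5 : |y| ^ 3 ≤ ((D : ℝ) / 281474976710656) ^ 3 := pow_le_pow_left₀ (abs_nonneg _) h4 3
  have h6 : |Real.sin y - y| * 2 ^ 48 ≤ ((D : ℝ) / 281474976710656) ^ 3 / 6 * 2 ^ 48 := by
    refine mul_le_mul_of_nonneg_right (h1.trans ?_) (by positivity)
    linarith
  refine h6.trans ?_
  have h7 : ((D : ℝ) / 281474976710656) ^ 3 / 6 * 2 ^ 48 = ((D ^ 3 : ℕ) : ℝ) / ((6 * 2 ^ 96 : ℕ) : ℝ) := by
    push_cast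
    rw [div_pow]
    have e5 : (281474976710656 : ℝ) ^ 3 = 2 ^ 144 := by norm_num
    rw [e5]
    field_simp
    ring
  rw [h7]
  refine (floor_succ (D ^ 3) (6 * 2 ^ 96) (by positivity)).trans ?_
  have h8 : D ^ 3 / (6 * 2 ^ 96) + 1 ≤ D ^ 3 / (6 * 2 ^ 96) + 5 * D ^ 4 / (96 * 2 ^ 144) + 2 := by omega
  exact_mod_cast h8

/-- The model of `e^{it}`. -/
theorem hQ_ok {x : Fin 4 → ℝ} (hx : ∀ i, |x i| ≤ 1) {p : Pos} (hp : POK L S μ p x) {La : Lin} {t : ℝ} (h : La.Holds x t) :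
    RC (RepQ L S μ) ⟨Real.cos t, Real.sin t⟩ (hQ l p La) := by
  unfold hQ
  cases hb : and (Nat.ble (abI La.v) T48) (Nat.ble (dbd La) T48) with
  | false =>
    rw [cond_false]
    exact ⟨RepQ.triv hl hS (Real.abs_cos_le_one t), RepQ.triv hl hS (Real.abs_sin_le_one t)⟩
  | true =>
    rw [cond_true]
    rw [Bool.and_eq_true, Nat.ble_eq, Nat.ble_eq] at hb
    obtain ⟨hb1, hb2⟩ := hb
    set t0 : ℝ := (La.v : ℝ) / 281474976710656 with ht0
    set d : ℝ := t - t0 with hd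
    have hO := OQ_rel hl hS
    have c0 := cs0_ok hl hS hb1
    have s0 := sn0_ok hl hS hb1
    have hd1 := dlt_ok hl hS hp h
    have hd2 := dbd_ok hx h
    have c1 := csD_ok hl hS hd1 hb2 hd2
    have s1 := snD_ok hl hS hd1 hd2
    rw [← ht0] at c0 s0 c1 s1
    have e : t = t0 + d := by rw [hd]; ring
    constructor
    · show RepQ L S μ (Real.cos t) _
      rw [e, Real.cos_add]
      exact hO.sub (hO.mul c0 c1) (hO.mul s0 s1)
    · show RepQ L S μ (Real.sin t) _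
      rw [e, Real.sin_add, add_comm]
      exact hO.add (hO.mul c0 s1) (hO.mul s0 c1)

/-- The variables. -/
theorem vrQ_ok {s : ℕ} {x : ℝ} (h : PK L S μ s x) : RepQ L S μ x (vrQ l s) := by
  obtain ⟨j, e, g⟩ := h
  have hT : ((T48 : ℕ) : ℤ) = 2 ^ 48 := by
    unfold T48
    norm_num
  refine ⟨cf L j (2 ^ 48), ⟨fun i hi => cf_sup _ (fun h => by rcases g with g | g; exacts [g.2.1, absurd h (by omega)]) hi, ?_, ?_, ?_, ?_⟩⟩
  · show Nat.land _ l.M1 < _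
    rw [land_M1 hl]
    exact Nat.mod_lt _ (by positivity)
  · show ((Nat.land _ l.M1 : ℕ) : ℤ) ≡ _ [ZMOD _]
    rw [land_M1 hl]
    refine (modz _ _).trans ?_
    exact shl_mod hl (A := 2 ^ 48) (by rw [hT]) e
  · refine (cf_na L j _).trans ?_
    show ((2 : ℤ) ^ 48).natAbs ≤ T48
    unfold T48
    norm_num
  · rw [cf_pv (x := x) _ (by rcases g with g | g; exacts [Or.inl ⟨g.1, g.2.2⟩, Or.inr g])]
    show |x * 2 ^ 48 - ((2 ^ 48 : ℤ) : ℝ) * x| ≤ ((0 : ℕ) : ℝ)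
    have : x * 2 ^ 48 - ((2 ^ 48 : ℤ) : ℝ) * x = 0 := by
      push_cast
      ring
    rw [this]
    simp

/-! ### The environment -/

omit hl hS in
theorem cxK_eq {α : Type} (z : Cx Q2) (k : Cx Q2 → α) : cxK z k = k z := rfl

/-- The environment of a cell, without forcing. -/
noncomputable def envE (l : Lay) (p : Pos) (La Lb Lc Lt : Lin) : Ev Q2 :=
  let a := linQ l p La
  let b := linQ l p Lb
  let c := linQ l p Lc
  let h := hQ l p Lt
  let w := (h.cj (OQ l)).mul (OQ l) (h.cj (OQ l))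
  let g01 := (w.smul (OQ l) b).neg (OQ l)
  let g02 := ((w.cj (OQ l)).smul (OQ l) c).neg (OQ l)
  let g12 := (w.smul (OQ l) a).neg (OQ l)
  ⟨⟨g01, g02, g12⟩, [⟨a, Q2.zero⟩, ⟨b, Q2.zero⟩, ⟨c, Q2.zero⟩, h, w, ⟨vrQ l p.p1, Q2.zero⟩, ⟨vrQ l p.p2, Q2.zero⟩,
    ⟨vrQ l p.p3, Q2.zero⟩, ⟨vrQ l p.p4, Q2.zero⟩, (Kc.ctr (OQ l) ⟨g01, g02, g12⟩).a,
    (Kc.ctr (OQ l) ⟨g01, g02, g12⟩).b, (Kc.ctr (OQ l) ⟨g01, g02, g12⟩).c]⟩

omit hl hS in
theorem envC_eq (l : Lay) (p : Pos) (La Lb Lc Lt : Lin) (k : Ev Q2 → Bool) : envC l p La Lb Lc Lt k = k (envE l p La Lb Lc Lt) := by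
  unfold envC envE
  simp only [Q2.ek_eq, cxK_eq]

theorem rep_z : RepQ L S μ (OR.cst 0) Q2.zero := by
  rw [OR_zero]
  exact rep_zero hS

/-- Soundness of the environment. -/
theorem envE_ok {x : Fin 4 → ℝ} (hx : ∀ i, |x i| ≤ 1) {p : Pos} (hp : POK L S μ p x) {La Lb Lc Lt : Lin} {a b c t : ℝ}
    (ha : La.Holds x a) (hb : Lb.Holds x b) (hc : Lc.Holds x c) (ht : Lt.Holds x t) :
    REv (RepQ L S μ) (mkEv OR a b c ⟨Real.cos t, Real.sin t⟩
      (exR (mkEv OR a b c ⟨Real.cos t, Real.sin t⟩ []).g x)) (envE l p La Lb Lc Lt) := by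
  have hO := OQ_rel hl hS
  have ra := linQ_gen hl hS hp ha
  have rb := linQ_gen hl hS hp hb
  have rc := linQ_gen hl hS hp hc
  have rh := hQ_ok hl hS hx hp ht
  have rw' := RC.mul hO (RC.cj hO rh) (RC.cj hO rh)
  have r01 := RC.neg hO (RC.smul hO rb rw')
  have r02 := RC.neg hO (RC.smul hO rc (RC.cj hO rw'))
  have r12 := RC.neg hO (RC.smul hO ra rw')
  have rg : RG (RepQ L S μ) (mkEv OR a b c ⟨Real.cos t, Real.sin t⟩ []).g (envE l p La Lb Lc Lt).g := ⟨r01, r02, r12⟩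
  have rt := Kc.RRw.ctr hO rg
  have v0 := vrQ_ok hl hS hp.h1
  have v1 := vrQ_ok hl hS hp.h2
  have v2 := vrQ_ok hl hS hp.h3
  have v3 := vrQ_ok hl hS hp.h4
  have z := rep_z hl hS
  refine ⟨⟨r01, r02, r12⟩, ?_⟩
  exact .cons ⟨ra, z⟩ (.cons ⟨rb, z⟩ (.cons ⟨rc, z⟩ (.cons rh (.cons rw' (.cons ⟨v0, z⟩ (.cons ⟨v1, z⟩ (.cons ⟨v2, z⟩
    (.cons ⟨v3, z⟩ (.cons rt.a (.cons rt.b (.cons rt.c .nil)))))))))))

end

end Pool.Agent.Work.MP_88b7aa_gt.Kd
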