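import Pool.Agent.Work.MP_88b7aa_gt.Kd.EnvS
import Pool.Agent.Work.MP_88b7aa_gt.Kc.Inst
import Pool.Agent.Work.MP_88b7aa_gt.PQ.EnvX

/-!
# The second version of the kernel arithmetic in the cover theorem
-/

set_option autoImplicit false
set_option exponentiation.threshold 6000

namespace Pool.Agent.Work.MP_88b7aa_gt.Kd

open Pool.Agent.Work.MP_88b7aa_gt.Kc (exR exK)
open Pool.Agent.Work.MP_88b7aa_gt.PQ
open ComplexConjugate Complex Matrix

seal PP P1 Ph Os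

/-- The additional interface. -/
noncomputable def XQ (l : Lay) : Xt Q2 := ⟨OQ l, Q2.pos l, fun z k => cxK z k, fun z k => cxK z k, fun z => z, fun _ => true,
  fun r t => adr (Nat.mul r (nat_lit 4194304)) t⟩

theorem XQ_ok {l : Lay} {L t : ℕ} (hl : LOK l L t) {S : Finset ℕ} {μ : ℕ → ℝ} (hS : Sem L t S μ) : XtOK (XQ l) (RepQ L S μ) where
  rel := OQ_rel hl hS
  pos := fun h hp => h.pos hl hS hp
  fr := fun _ _ => rfl
  fe := fun _ _ => rfl
  rd := fun h => h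
  adr := by
    intro y y' t r h _ h2
    refine h.adr hl hS _ ?_
    have e : ((Nat.mul r (nat_lit 4194304) : ℕ) : ℝ) = (r : ℝ) * 4194304 := by
      show ((r * 4194304 : ℕ) : ℝ) = _
      push_cast
      ring
    rw [e]
    have e2 : |y' - y| * 2 ^ 48 = (|y' - y| * 67108864) * 4194304 := by norm_num; ring
    rw [e2]
    exact mul_le_mul_of_nonneg_right h2 (by norm_num)

/-! ### The positions of the variables -/

theorem POK1 {k : ℕ} (hk : k ≤ 1) {x : Fin 4 → ℝ} (hx : Cub k x) : POK 3 S1 (μE E1 x) pos1 x where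
  h1 := ⟨1, rfl, Or.inl ⟨by norm_num, by decide, by unfold μE mo; simp [exl, E1]⟩⟩
  h2 := ⟨3, rfl, Or.inr ⟨le_rfl, hx.zr 1 (hk.trans (by decide))⟩⟩
  h3 := ⟨3, rfl, Or.inr ⟨le_rfl, hx.zr 2 (hk.trans (by decide))⟩⟩
  h4 := ⟨3, rfl, Or.inr ⟨le_rfl, hx.zr 3 (hk.trans (by decide))⟩⟩

theorem POK2 {x : Fin 4 → ℝ} (hx : Cub 2 x) : POK 9 S2 (μE E2 x) pos2 x where
  h1 := ⟨3, rfl, Or.inl ⟨by norm_num, by decide, by unfold μE mo; simp [exl, E2]⟩⟩
  h2 := ⟨4, rfl, Or.inl ⟨by norm_num, by decide, by unfold μE mo; simp [exl, E2]⟩⟩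
  h3 := ⟨9, rfl, Or.inr ⟨le_rfl, hx.zr 2 (by decide)⟩⟩
  h4 := ⟨9, rfl, Or.inr ⟨le_rfl, hx.zr 3 (by decide)⟩⟩

theorem POK3 {x : Fin 4 → ℝ} (hx : Cub 3 x) : POK 21 S3 (μE E3 x) pos3 x where
  h1 := ⟨7, rfl, Or.inl ⟨by norm_num, by decide, by unfold μE mo; simp [exl, E3]⟩⟩
  h2 := ⟨8, rfl, Or.inl ⟨by norm_num, by decide, by unfold μE mo; simp [exl, E3]⟩⟩
  h3 := ⟨10, rfl, Or.inl ⟨by norm_num, by decide, by unfold μE mo; simp [exl, E3]⟩⟩
  h4 := ⟨21, rfl, Or.inr ⟨le_rfl, hx.zr 3 (by decide)⟩⟩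

theorem POK4 (x : Fin 4 → ℝ) : POK 39 S4 (μE E4 x) pos4 x where
  h1 := ⟨13, rfl, Or.inl ⟨by norm_num, by decide, by unfold μE mo; simp [exl, E4]⟩⟩
  h2 := ⟨14, rfl, Or.inl ⟨by norm_num, by decide, by unfold μE mo; simp [exl, E4]⟩⟩
  h3 := ⟨17, rfl, Or.inl ⟨by norm_num, by decide, by unfold μE mo; simp [exl, E4]⟩⟩
  h4 := ⟨19, rfl, Or.inl ⟨by norm_num, by decide, by unfold μE mo; simp [exl, E4]⟩⟩

/-! ### Kernel instances -/

/-- A kernel instance for `k` variables. -/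
structure KOK (k : ℕ) (A : Arp Q2 HQ) (X : Xt Q2) (lin : Lin → Q2) (env : Bx4 → (Ev Q2 → Bool) → Bool) (Rel : (Fin 4 → ℝ) → ℝ → Q2 → Prop)
    (RelP : (Fin 4 → ℝ) → H9 ℝ → HQ → Prop) (envB : Bx4 → Ev Q2) : Prop where
  hA : ∀ x, Cub k x → ArpOK A (Rel x) (RelP x)
  hX : ∀ x, Cub k x → XtOK X (Rel x)
  hL : ∀ x, Cub k x → ∀ {L : Lin} {y : ℝ}, L.Holds x y → Rel x y (lin L)
  hE : EnvOK Rel k (fun _ => true) envB exK
  eq : ∀ B f, env B f = f (envB B)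

noncomputable def env1 (B : Bx4) (f : Ev Q2 → Bool) : Bool := envC lay1 pos1 B.a B.b B.c B.t f
noncomputable def env2 (B : Bx4) (f : Ev Q2 → Bool) : Bool := envC lay2 pos2 B.a B.b B.c B.t f
noncomputable def env3 (B : Bx4) (f : Ev Q2 → Bool) : Bool := envC lay3 pos3 B.a B.b B.c B.t f
noncomputable def env4 (B : Bx4) (f : Ev Q2 → Bool) : Bool := envC lay4 pos4 B.a B.b B.c B.t f

theorem KOK1 {k : ℕ} (hk : k ≤ 1) : KOK k AQ1 (XQ lay1) (linQ lay1 pos1) env1 (fun x => RepQ 3 S1 (μE E1 x)) (fun x => RelQ 3 2 1 S1 (μE E1 x) pl1 dl1)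
    (fun B => envE lay1 pos1 B.a B.b B.c B.t) where
  hA := fun _ hx => AQ1_ok hx.le
  hX := fun _ hx => XQ_ok (mkL_ok 3 1) (Sem_of mulT1 hx.le)
  hL := fun _ hx => linQ_gen (mkL_ok 3 1) (Sem_of mulT1 hx.le) (POK1 hk hx)
  hE := ⟨fun _ _ _ hx _ _ _ _ hB => envE_ok (mkL_ok 3 1) (Sem_of mulT1 hx.le) hx.le (POK1 hk hx) hB.a hB.b hB.c hB.t⟩
  eq := fun B f => envC_eq lay1 pos1 B.a B.b B.c B.t f

theorem KOK2 : KOK 2 AQ2 (XQ lay2) (linQ lay2 pos2) env2 (fun x => RepQ 9 S2 (μE E2 x)) (fun x => RelQ 9 4 2 S2 (μE E2 x) pl2 dl2)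
    (fun B => envE lay2 pos2 B.a B.b B.c B.t) where
  hA := fun _ hx => AQ2_ok hx.le
  hX := fun _ hx => XQ_ok (mkL_ok 9 3) (Sem_of mulT2 hx.le)
  hL := fun _ hx => linQ_gen (mkL_ok 9 3) (Sem_of mulT2 hx.le) (POK2 hx)
  hE := ⟨fun _ _ _ hx _ _ _ _ hB => envE_ok (mkL_ok 9 3) (Sem_of mulT2 hx.le) hx.le (POK2 hx) hB.a hB.b hB.c hB.t⟩
  eq := fun B f => envC_eq lay2 pos2 B.a B.b B.c B.t f

theorem KOK3 : KOK 3 AQ3 (XQ lay3) (linQ lay3 pos3) env3 (fun x => RepQ 21 S3 (μE E3 x)) (fun x => RelQ 21 7 3 S3 (μE E3 x) pl3 dl3)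
    (fun B => envE lay3 pos3 B.a B.b B.c B.t) where
  hA := fun _ hx => AQ3_ok hx.le
  hX := fun _ hx => XQ_ok (mkL_ok 21 7) (Sem_of mulT3 hx.le)
  hL := fun _ hx => linQ_gen (mkL_ok 21 7) (Sem_of mulT3 hx.le) (POK3 hx)
  hE := ⟨fun _ _ _ hx _ _ _ _ hB => envE_ok (mkL_ok 21 7) (Sem_of mulT3 hx.le) hx.le (POK3 hx) hB.a hB.b hB.c hB.t⟩
  eq := fun B f => envC_eq lay3 pos3 B.a B.b B.c B.t f

theorem KOK4 : KOK 4 AQ4 (XQ lay4) (linQ lay4 pos4) env4 (fun x => RepQ 39 S4 (μE E4 x)) (fun x => RelQ 39 12 4 S4 (μE E4 x) pl4 dl4)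
    (fun B => envE lay4 pos4 B.a B.b B.c B.t) where
  hA := fun _ hx => AQ4_ok hx.le
  hX := fun _ hx => XQ_ok (mkL_ok 39 13) (Sem_of mulT4 hx.le)
  hL := fun _ hx => linQ_gen (mkL_ok 39 13) (Sem_of mulT4 hx.le) (POK4 _)
  hE := ⟨fun _ _ x hx _ _ _ _ hB => envE_ok (mkL_ok 39 13) (Sem_of mulT4 hx.le) hx.le (POK4 x) hB.a hB.b hB.c hB.t⟩
  eq := fun B f => envC_eq lay4 pos4 B.a B.b B.c B.t f

/-- A property which holds for a kernel instance for `k` variables. -/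
noncomputable def sel (k : ℕ) (f : Arp Q2 HQ → Xt Q2 → (Lin → Q2) → (Bx4 → (Ev Q2 → Bool) → Bool) → Bool) : Bool :=
  cond (Nat.ble k (nat_lit 1)) (f AQ1 (XQ lay1) (linQ lay1 pos1) env1) (cond (Nat.ble k (nat_lit 2)) (f AQ2 (XQ lay2) (linQ lay2 pos2) env2)
    (cond (Nat.ble k (nat_lit 3)) (f AQ3 (XQ lay3) (linQ lay3 pos3) env3) (f AQ4 (XQ lay4) (linQ lay4 pos4) env4)))

/-- The selected instance. -/
theorem sel_ok {k : ℕ} (hk : k ≤ 4) {f : Arp Q2 HQ → Xt Q2 → (Lin → Q2) → (Bx4 → (Ev Q2 → Bool) → Bool) → Bool} (h : sel k f = true) :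
    ∃ A X lin env Rel RelP envB, KOK k A X lin env Rel RelP envB ∧ f A X lin env = true := by
  unfold sel at h
  cases h1 : Nat.ble k (nat_lit 1) with
  | true =>
    rw [h1, cond_true] at h
    rw [Nat.ble_eq] at h1
    exact ⟨_, _, _, _, _, _, _, KOK1 h1, h⟩
  | false =>
    rw [h1, cond_false] at h
    cases h2 : Nat.ble k (nat_lit 2) with
    | true =>
      rw [h2, cond_true] at h
      rw [Nat.ble_eq] at h2
      have h3 : ¬ (k ≤ 1) := by
        intro h4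
        have : Nat.ble k (nat_lit 1) = true := Nat.ble_eq.mpr h4
        rw [h1] at this
        exact Bool.false_ne_true this
      have h5 : k = 2 := by
        have : k ≤ 2 := h2
        omega
      subst h5
      exact ⟨_, _, _, _, _, _, _, KOK2, h⟩
    | false =>
      rw [h2, cond_false] at h
      have h6 : ¬ (k ≤ 2) := by
        intro h4
        have : Nat.ble k (nat_lit 2) = true := Nat.ble_eq.mpr h4
        rw [h2] at this
        exact Bool.false_ne_true this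
      cases h3 : Nat.ble k (nat_lit 3) with
      | true =>
        rw [h3, cond_true] at h
        rw [Nat.ble_eq] at h3
        have h5 : k = 3 := by
          have : k ≤ 3 := h3
          omega
        subst h5
        exact ⟨_, _, _, _, _, _, _, KOK3, h⟩
      | false =>
        rw [h3, cond_false] at h
        have h7 : ¬ (k ≤ 3) := by
          intro h4
          have : Nat.ble k (nat_lit 3) = true := Nat.ble_eq.mpr h4
          rw [h3] at this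
          exact Bool.false_ne_true this
        have h5 : k = 4 := by omega
        subst h5
        exact ⟨_, _, _, _, _, _, _, KOK4, h⟩

/-- The test that a box is outside. -/
noncomputable def outQ (k : ℕ) (B : Bx4) (m : ℕ) : Bool := sel k fun A _ _ env => env B fun e => outc A e m

theorem outQ_ok {k : ℕ} (hk : k ≤ 4) (K : ℕ → ℕ → ℕ → Prop) (B : Bx4) (m : ℕ) (h : outQ k B m = true) : Outs K k B := by
  obtain ⟨A, X, lin, env, Rel, RelP, envB, hK, h⟩ := sel_ok hk h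
  rw [hK.eq] at h
  exact outc_sound hK.hA hK.hE K B m (by rw [Bool.true_and]; exact h)

end Pool.Agent.Work.MP_88b7aa_gt.Kd
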